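import Pool.Agent.Helper513.ZgT0.KillDefs

set_option autoImplicit false

namespace Pool.Agent.Helper513.ZgT0

section RightB

variable {W : Type} [LinearOrder W] [WellFoundedLT W] [Nonempty W] {𝔅 : Set (Pat W)}

theorem Kfn_add_self {W : Type} (v : Fn W) : v + v = 0 := by
  funext s
  exact K_add_self (v s)

theorem Kfn_neg {W : Type} (v : Fn W) : -v = v := by
  rw [neg_eq_iff_add_eq_zero]
  exact Kfn_add_self v

theorem Kfn_eq_of_add {W : Type} {v w : Fn W} (h : v + w = 0) : v = w := by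
  have h1 : v + w + w = w := by rw [h, zero_add]
  rwa [add_assoc, Kfn_add_self, add_zero] at h1

omit [WellFoundedLT W] [Nonempty W] in
theorem isV_sum (hS : IsSys 𝔅) {A : Set W} {ι : Type} (J : Finset ι) {v : ι → Fn W}
    (hv : ∀ j ∈ J, IsV 𝔅 A (v j)) : IsV 𝔅 A (∑ j ∈ J, v j) := by
  classical
  induction J using Finset.induction_on with
  | empty => simpa using isV_zero
  | insert a J ha ih =>
    rw [Finset.sum_insert ha]
    exact isV_add hS (hv a (Finset.mem_insert_self a J))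
      (ih fun j hj => hv j (Finset.mem_insert_of_mem hj))

omit [WellFoundedLT W] [Nonempty W] in
theorem closure_sum {A A' : Set W} {v : Fn W}
    (hv : v ∈ AddSubgroup.closure {w : Fn W | ∃ f g, IsV 𝔅 A f ∧ IsV 𝔅 A' g ∧ w = f * g}) :
    ∃ (m : ℕ) (f g : Fin m → Fn W), (∀ j, IsV 𝔅 A (f j)) ∧ (∀ j, IsV 𝔅 A' (g j)) ∧
      v = ∑ j, f j * g j := by
  induction hv using AddSubgroup.closure_induction with
  | mem x hx =>
    obtain ⟨f, g, hf, hg, rfl⟩ := hx
    exact ⟨1, fun _ => f, fun _ => g, fun _ => hf, fun _ => hg, by simp⟩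
  | zero => exact ⟨0, Fin.elim0, Fin.elim0, fun j => j.elim0, fun j => j.elim0, by simp⟩
  | add x y hx hy ihx ihy =>
    obtain ⟨m, f, g, hf, hg, rfl⟩ := ihx
    obtain ⟨m', f', g', hf', hg', rfl⟩ := ihy
    refine ⟨m + m', Fin.append f f', Fin.append g g', ?_, ?_, ?_⟩
    · intro j
      refine Fin.addCases (fun i => ?_) (fun i => ?_) j
      · rw [Fin.append_left]; exact hf i
      · rw [Fin.append_right]; exact hf' i
    · intro j
      refine Fin.addCases (fun i => ?_) (fun i => ?_) j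
      · rw [Fin.append_left]; exact hg i
      · rw [Fin.append_right]; exact hg' i
    · rw [Fin.sum_univ_add]
      simp only [Fin.append_left, Fin.append_right]
  | neg x hx ih =>
    rw [Kfn_neg]
    exact ih

/-- The configuration used in the elimination argument. -/
structure Cfg (𝔅 : Set (Pat W)) (Q : Set W → Fn W → Prop) (A1 : Set W) {m : ℕ}
    (f : Fin m → Fn W) (γ : W) (A2 : Set W) (g : Fin m → Fn W) : Prop where
  isA : IsA 𝔅 A2
  disj : Disjoint A1 A2
  far : ∀ i ∈ A2, γ < i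
  isV : ∀ j, IsV 𝔅 A2 (g j)
  ne : ∃ j, g j ≠ 0
  kill : Q (A1 ∪ A2) (∑ j, f j * g j)

theorem exists_indep (hS : IsSys 𝔅) (hClo : Clo W) {Q : Set W → Fn W → Prop}
    (hQ : KillSys 𝔅 Q) (γ0 : W)
    (hR : ∀ p, γ0 < p → ∃ A ρ, IsA 𝔅 A ∧ p ∈ A ∧ IsV 𝔅 A ρ ∧ Q A ρ ∧ ¬ Q A (dl p 0 * ρ)) :
    ∃ (A1 : Set W) (m : ℕ) (f : Fin m → Fn W), IsA 𝔅 A1 ∧ (∀ j, IsV 𝔅 A1 (f j)) ∧
      (∀ c : Fin m → K, c ≠ 0 → ¬ Q A1 (∑ j, c j • f j)) ∧
      ∀ γ, ∃ A2 g, Cfg 𝔅 Q A1 f γ A2 g := by
  classical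
  by_contra hcon
  push Not at hcon
  have hb : ∀ (A1 : Set W) (F : Σ m : ℕ, Fin m → Fn W), ∃ γ : W, IsA 𝔅 A1 →
      (∀ j, IsV 𝔅 A1 (F.2 j)) → (∀ c : Fin F.1 → K, c ≠ 0 → ¬ Q A1 (∑ j, c j • F.2 j)) →
      ∀ A2 g, ¬ Cfg 𝔅 Q A1 F.2 γ A2 g := by
    intro A1 F
    by_cases h : IsA 𝔅 A1 ∧ (∀ j, IsV 𝔅 A1 (F.2 j)) ∧
        (∀ c : Fin F.1 → K, c ≠ 0 → ¬ Q A1 (∑ j, c j • F.2 j))
    · obtain ⟨γ, hγ⟩ := hcon A1 F.1 F.2 h.1 h.2.1 h.2.2
      exact ⟨γ, fun _ _ _ => hγ⟩
    · refine ⟨γ0, fun h1 h2 h3 => absurd ⟨h1, h2, h3⟩ h⟩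
  choose b hb using hb
  obtain ⟨β, hβ, -, hβb⟩ := hClo γ0 b
  obtain ⟨A, ρ, hA, hβA, hρ, hQρ, hnQ⟩ := hR β hβ
  set A1 : Set W := A ∩ Set.Iio β with hA1
  set A2 : Set W := A \ Set.Iio β with hA2
  have hA1A : IsA 𝔅 A1 := isA_inter_Iio hS hA β
  have hA2A : IsA 𝔅 A2 := by
    have := isA_diff hS hA hA1A
    rwa [hA1, Set.diff_self_inter] at this
  have hU : A1 ∪ A2 = A := Set.inter_union_diff A (Set.Iio β)
  have hd : Disjoint A1 A2 := by
    rw [Set.disjoint_left]
    intro i hi hi'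
    exact hi'.2 hi.2
  have hβA2 : β ∈ A2 := ⟨hβA, fun h => lt_irrefl β h⟩
  have hρ' : IsV 𝔅 (A1 ∪ A2) ρ := by rw [hU]; exact hρ
  obtain ⟨m0, f0, g0, hf0, hg0, hsum0⟩ := closure_sum (isV_prod hS hA1A hA2A hd hρ')
  -- multiplication by `dl β 0`
  have hdl : ∀ v, IsV 𝔅 A2 v → IsV 𝔅 A2 (dl β 0 * v) := by
    intro v hv
    refine isV_finmul hS (F := {β}) (Set.finite_singleton β) ?_ ?_ hv
    · intro i hi
      rw [Set.mem_singleton_iff.1 hi]
      exact hβA2
    · intro s t hst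
      unfold dl
      rw [hst β (Set.mem_singleton β)]
  let P : ℕ → Prop := fun m => ∃ f g : Fin m → Fn W, (∀ j, IsV 𝔅 A1 (f j)) ∧
    (∀ j, IsV 𝔅 A2 (g j)) ∧ Q A (∑ j, f j * g j) ∧ ¬ Q A (∑ j, f j * (dl β 0 * g j))
  have hP0 : P m0 := by
    refine ⟨f0, g0, hf0, hg0, ?_, ?_⟩
    · rw [← hsum0]; exact hQρ
    · have : ∑ j, f0 j * (dl β 0 * g0 j) = dl β 0 * ρ := by
        rw [hsum0, Finset.mul_sum]
        refine Finset.sum_congr rfl fun j _ => ?_
        ring
      rw [this]; exact hnQ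
  have hex : ∃ m, P m := ⟨m0, hP0⟩
  obtain ⟨f, g, hf, hg, hQ1, hQ2⟩ := Nat.find_spec hex
  have hmin : ∀ n, n < Nat.find hex → ¬ P n := fun n hn => Nat.find_min hex hn
  generalize Nat.find hex = m at f g hf hg hQ1 hQ2 hmin
  have hmulV : ∀ v w, IsV 𝔅 A1 v → IsV 𝔅 A2 w → IsV 𝔅 A (v * w) := by
    intro v w hv hw
    have := isV_mul hS hA1A hA2A hd hv hw
    rwa [hU] at this
  -- independence
  have hind : ∀ c : Fin m → K, c ≠ 0 → ¬ Q A1 (∑ j, c j • f j) := by
    intro c hc hq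
    obtain ⟨k, hk⟩ : ∃ k, c k ≠ 0 := by
      by_contra h
      push Not at h
      exact hc (funext h)
    have hk1 : c k = 1 := K_ne_zero hk
    obtain ⟨m', rfl⟩ : ∃ m', m = m' + 1 := ⟨m - 1, by have := k.pos; omega⟩
    set q : Fn W := ∑ j, c j • f j with hqdef
    have hqV : IsV 𝔅 A1 q := isV_sum hS _ fun j _ => isV_smul (c j) (hf j)
    have key : ∀ G : Fin (m' + 1) → Fn W,
        ∑ j : Fin m', f (k.succAbove j) * (G (k.succAbove j) + c (k.succAbove j) • G k) =
          (∑ j, f j * G j) + q * G k := by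
      intro G
      have h1 : ∑ j, f j * (G j + c j • G k) = (∑ j, f j * G j) + q * G k := by
        rw [hqdef, Finset.sum_mul, ← Finset.sum_add_distrib]
        refine Finset.sum_congr rfl fun j _ => ?_
        funext s
        simp only [Pi.add_apply, Pi.mul_apply, Pi.smul_apply, smul_eq_mul]
        ring
      rw [← h1, Fin.sum_univ_succAbove _ k]
      have h2 : G k + c k • G k = 0 := by
        rw [hk1, one_smul]
        exact Kfn_add_self _
      rw [h2, mul_zero, zero_add]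
    have hQq : ∀ w, IsV 𝔅 A2 w → Q A (q * w) := by
      intro w hw
      have := hQ.mul A1 A2 q w hA1A hA2A hd hqV hw hq
      rwa [hU] at this
    refine hmin m' (Nat.lt_succ_self m') ⟨fun j => f (k.succAbove j),
      fun j => g (k.succAbove j) + c (k.succAbove j) • g k, fun j => hf _,
      fun j => isV_add hS (hg _) (isV_smul _ (hg k)), ?_, ?_⟩
    · rw [key g]
      exact hQ.add A _ _ hA (isV_sum hS _ fun j _ => hmulV _ _ (hf j) (hg j))
        (hmulV _ _ hqV (hg k)) hQ1 (hQq _ (hg k))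
    · intro hbad
      apply hQ2
      have h3 := key (fun j => dl β 0 * g j)
      have h4 : ∑ j : Fin m', f (k.succAbove j) *
          (dl β 0 * (g (k.succAbove j) + c (k.succAbove j) • g k)) =
          (∑ j, f j * (dl β 0 * g j)) + q * (dl β 0 * g k) := by
        rw [← h3]
        refine Finset.sum_congr rfl fun j _ => ?_
        funext s
        simp only [Pi.add_apply, Pi.mul_apply, Pi.smul_apply, smul_eq_mul]
        ring
      rw [h4] at hbad
      have h5 : ∑ j, f j * (dl β 0 * g j) =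
          ((∑ j, f j * (dl β 0 * g j)) + q * (dl β 0 * g k)) + q * (dl β 0 * g k) := by
        rw [add_assoc, Kfn_add_self, add_zero]
      rw [h5]
      have hV1 : IsV 𝔅 A (∑ j, f j * (dl β 0 * g j)) :=
        isV_sum hS _ fun j _ => hmulV _ _ (hf j) (hdl _ (hg j))
      have hV2 : IsV 𝔅 A (q * (dl β 0 * g k)) := hmulV _ _ hqV (hdl _ (hg k))
      exact hQ.add A _ _ hA (isV_add hS hV1 hV2) hV2 hbad (hQq _ (hdl _ (hg k)))
  have hne : ∃ j, g j ≠ 0 := by
    by_contra h
    push Not at h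
    apply hQ2
    have : ∑ j, f j * (dl β 0 * g j) = 0 := by
      refine Finset.sum_eq_zero fun j _ => ?_
      rw [h j, mul_zero, mul_zero]
    rw [this]
    exact hQ.zero A hA
  have hlt : b A1 ⟨m, f⟩ < β :=
    hβb A1 (isA_countable hS hA1A) (fun i hi => hi.2) ⟨m, f⟩ fun j => (hf j).1
  refine hb A1 ⟨m, f⟩ hA1A hf hind A2 g ⟨hA2A, hd, ?_, hg, hne, ?_⟩
  · intro i hi
    have : ¬ i < β := hi.2
    exact lt_of_lt_of_le hlt (not_lt.1 this)
  · rw [hU]; exact hQ1

/-- There is a function `f`, not killed, and arbitrarily far functions `g ≠ 0` with `f * g`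
killed. -/
theorem exists_far (hS : IsSys 𝔅) (hN : Bdd W ℕ) (hClo : Clo W) {Q : Set W → Fn W → Prop}
    (hQ : KillSys 𝔅 Q) (hR : Rel 𝔅 Q) :
    ∃ A f, IsA 𝔅 A ∧ IsV 𝔅 A f ∧ ¬ Q A f ∧ ∀ γ : W, ∃ A' g, IsA 𝔅 A' ∧ Disjoint A A' ∧
      (∀ i ∈ A', γ < i) ∧ IsV 𝔅 A' g ∧ g ≠ 0 ∧ Q (A ∪ A') (f * g) := by
  classical
  by_cases hcase : ∀ γ : W, ∃ p > γ, ∃ i, Q {p} (dl p i)
  · have hA0 : IsA 𝔅 (∅ : Set W) := isA_finite hS Set.finite_empty
    refine ⟨∅, 1, hA0, isV_fin hS Set.finite_empty fun s t _ => rfl, ?_, ?_⟩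
    · obtain ⟨v, hv, hnv⟩ := hQ.non ∅ hA0
      intro h1
      apply hnv
      rcases K_cases (v 0) with h0 | h0
      · have : v = 0 := by
          funext s
          rw [hv.1 s 0 (fun i hi => absurd hi (Set.notMem_empty i)), h0]
          rfl
        rw [this]
        exact hQ.zero ∅ hA0
      · have : v = 1 := by
          funext s
          rw [hv.1 s 0 (fun i hi => absurd hi (Set.notMem_empty i)), h0]
          rfl
        rw [this]
        exact h1
    · intro γ
      obtain ⟨p, hp, i, hi⟩ := hcase γ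
      refine ⟨{p}, dl p i, isA_finite hS (Set.finite_singleton p), Set.empty_disjoint _, ?_,
        isV_fin hS (Set.finite_singleton p) ?_, ?_, ?_⟩
      · intro j hj
        rw [Set.mem_singleton_iff.1 hj]
        exact hp
      · intro s t hst
        unfold dl
        rw [hst p (Set.mem_singleton p)]
      · intro h
        have h1 := congrFun h (fun _ => i)
        unfold dl at h1
        simp at h1
      · rw [Set.empty_union, one_mul]
        exact hi
  · push Not at hcase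
    obtain ⟨γ0, hγ0⟩ := hcase
    obtain ⟨A1, m, f, hA1, hf, hind, hfar⟩ := exists_indep hS hClo hQ γ0 (by
      intro p hp
      rcases hR p with h | h | h
      · exact absurd h (hγ0 p hp 0)
      · exact absurd h (hγ0 p hp 1)
      · exact h)
    let R : Finset (Fin m) → Prop := fun J => ∀ γ, ∃ A2 g, Cfg 𝔅 Q A1 f γ A2 g ∧
      ∀ j, j ∉ J → g j = 0
    have hRu : R Finset.univ := by
      intro γ
      obtain ⟨A2, g, h⟩ := hfar γ
      exact ⟨A2, g, h, fun j hj => absurd (Finset.mem_univ j) hj⟩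
    have hexn : ∃ n, ∃ J : Finset (Fin m), J.card = n ∧ R J := ⟨_, Finset.univ, rfl, hRu⟩
    obtain ⟨J, hJc, hRJ⟩ := Nat.find_spec hexn
    have hJmin : ∀ k ∈ J, ¬ R (J.erase k) := by
      intro k hk hbad
      have h1 : (J.erase k).card < Nat.find hexn := by
        rw [← hJc]
        exact Finset.card_erase_lt_of_mem hk
      exact Nat.find_min hexn h1 ⟨_, rfl, hbad⟩
    have hγk : ∀ k : Fin m, ∃ γ : W, k ∈ J → ∀ A2 g, Cfg 𝔅 Q A1 f γ A2 g →
        ¬ ∀ j, j ∉ J.erase k → g j = 0 := by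
      intro k
      by_cases hk : k ∈ J
      · have h1 := hJmin k hk
        simp only [R] at h1
        push Not at h1
        obtain ⟨γ, hγ⟩ := h1
        refine ⟨γ, fun _ A2 g hg hall => ?_⟩
        obtain ⟨j, hj, hj'⟩ := hγ A2 g hg
        exact hj' (hall j hj)
      · exact ⟨γ0, fun h => absurd h hk⟩
    choose γk hγk using hγk
    obtain ⟨γ1, hγ1⟩ := Finset.exists_le (Finset.univ.image γk)
    have hγ1' : ∀ k, γk k ≤ γ1 := fun k =>
      hγ1 _ (Finset.mem_image_of_mem γk (Finset.mem_univ k))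
    obtain ⟨A2, g, hg, hgJ⟩ := hRJ γ1
    obtain ⟨k, hk⟩ := hg.ne
    have hkJ : k ∈ J := by
      by_contra h
      exact hk (hgJ k h)
    obtain ⟨x, hx⟩ : ∃ x, g k x ≠ 0 := by
      by_contra h
      push Not at h
      exact hk (funext h)
    have hx1 : g k x = 1 := K_ne_zero hx
    set c : Fin m → K := fun j => g j x with hc
    have hc0 : c ≠ 0 := by
      intro h
      apply hx
      exact congrFun h k
    have hA2c : ∃ b : W, ∀ i ∈ A2, i < b := by
      rcases A2.eq_empty_or_nonempty with h | h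
      · exact ⟨γ0, fun i hi => by rw [h] at hi; exact absurd hi (Set.notMem_empty i)⟩
      · obtain ⟨F, hF⟩ := (isA_countable hS hg.isA).exists_eq_range h
        obtain ⟨b, hb⟩ := hN F
        refine ⟨b, fun i hi => ?_⟩
        rw [hF] at hi
        obtain ⟨n, rfl⟩ := hi
        exact hb n
    obtain ⟨bA, hbA⟩ := hA2c
    refine ⟨A1, ∑ j, c j • f j, hA1, isV_sum hS _ fun j _ => isV_smul _ (hf j), hind c hc0, ?_⟩
    intro γ
    obtain ⟨A2', g', hg', hgJ'⟩ := hRJ (max γ (max γ1 bA))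
    have hd22 : Disjoint A2 A2' := by
      rw [Set.disjoint_left]
      intro i hi hi'
      have h1 := hbA i hi
      have h2 := hg'.far i hi'
      have h3 : bA ≤ max γ (max γ1 bA) := (le_max_right _ _).trans (le_max_right _ _)
      exact lt_irrefl i (h1.trans_le (h3.trans h2.le))
    have hd1 : Disjoint A1 (A2 ∪ A2') := by
      rw [Set.disjoint_union_right]
      exact ⟨hg.disj, hg'.disj⟩
    set h : Fin m → Fn W := fun j => g j * g' k + g' j * g k with hh
    have hhV : ∀ j, IsV 𝔅 (A2 ∪ A2') (h j) := by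
      intro j
      refine isV_add hS (isV_mul hS hg.isA hg'.isA hd22 (hg.isV j) (hg'.isV k)) ?_
      rw [Set.union_comm]
      exact isV_mul hS hg'.isA hg.isA hd22.symm (hg'.isV j) (hg.isV k)
    have hfg : IsV 𝔅 (A1 ∪ A2) (∑ j, f j * g j) :=
      isV_sum hS _ fun j _ => isV_mul hS hA1 hg.isA hg.disj (hf j) (hg.isV j)
    have hfg' : IsV 𝔅 (A1 ∪ A2') (∑ j, f j * g' j) :=
      isV_sum hS _ fun j _ => isV_mul hS hA1 hg'.isA hg'.disj (hf j) (hg'.isV j)
    have hA12 : IsA 𝔅 (A1 ∪ A2) := isA_union hS hA1 hg.isA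
    have hA12' : IsA 𝔅 (A1 ∪ A2') := isA_union hS hA1 hg'.isA
    have e1 : (A1 ∪ A2) ∪ A2' = A1 ∪ (A2 ∪ A2') := Set.union_assoc _ _ _
    have e2 : (A1 ∪ A2') ∪ A2 = A1 ∪ (A2 ∪ A2') := by
      rw [Set.union_assoc, Set.union_comm A2' A2]
    have dd1 : Disjoint (A1 ∪ A2) A2' := by
      rw [Set.disjoint_union_left]
      exact ⟨hg'.disj, hd22⟩
    have dd2 : Disjoint (A1 ∪ A2') A2 := by
      rw [Set.disjoint_union_left]
      exact ⟨hg.disj, hd22.symm⟩
    have hsum : ∑ j, f j * h j = (∑ j, f j * g j) * g' k + (∑ j, f j * g' j) * g k := by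
      rw [Finset.sum_mul, Finset.sum_mul, ← Finset.sum_add_distrib]
      refine Finset.sum_congr rfl fun j _ => ?_
      rw [hh]
      ring
    have hkill : Q (A1 ∪ (A2 ∪ A2')) (∑ j, f j * h j) := by
      rw [hsum]
      have k1 := hQ.mul _ _ _ _ hA12 hg'.isA dd1 hfg (hg'.isV k) hg.kill
      have k2 := hQ.mul _ _ _ _ hA12' hg.isA dd2 hfg' (hg.isV k) hg'.kill
      have v1 := isV_mul hS hA12 hg'.isA dd1 hfg (hg'.isV k)
      have v2 := isV_mul hS hA12' hg.isA dd2 hfg' (hg.isV k)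
      rw [e1] at k1 v1
      rw [e2] at k2 v2
      exact hQ.add _ _ _ (isA_union hS hA1 (isA_union hS hg.isA hg'.isA)) v1 v2 k1 k2
    have hzero : ∀ j, h j = 0 := by
      by_contra hcon
      push Not at hcon
      refine hγk k hkJ (A2 ∪ A2') h ⟨isA_union hS hg.isA hg'.isA, hd1, ?_, hhV, hcon, hkill⟩ ?_
      · intro i hi
        rcases hi with hi | hi
        · exact (hγ1' k).trans_lt (hg.far i hi)
        · have h3 : γ1 ≤ max γ (max γ1 bA) := (le_max_left _ _).trans (le_max_right _ _)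
          exact ((hγ1' k).trans h3).trans_lt (hg'.far i hi)
      · intro j hj
        by_cases hjk : j = k
        · rw [hjk, hh]
          show g k * g' k + g' k * g k = 0
          rw [mul_comm (g' k) (g k)]
          exact Kfn_add_self _
        · have hjJ : j ∉ J := fun hjJ => hj (Finset.mem_erase.2 ⟨hjk, hjJ⟩)
          rw [hh]
          show g j * g' k + g' j * g k = 0
          rw [hgJ j hjJ, hgJ' j hjJ, zero_mul, zero_mul, add_zero]
    have hgg : ∀ j, g' j = c j • g' k := by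
      intro j
      funext s
      have h1 : g j * g' k = g' j * g k := Kfn_eq_of_add (hzero j)
      have h2 := congrFun h1 (sp A2 x s)
      simp only [Pi.mul_apply] at h2
      have h3 : ∀ i, g i (sp A2 x s) = g i x := fun i =>
        (hg.isV i).1 _ _ fun l hl => sp_of_mem hl
      have h4 : ∀ i, g' i (sp A2 x s) = g' i s := fun i =>
        (hg'.isV i).1 _ _ fun l hl => sp_of_notMem fun hl' =>
          Set.disjoint_left.1 hd22 hl' hl
      rw [h3, h3, h4, h4, hx1, mul_one] at h2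
      rw [← h2]
      rfl
    refine ⟨A2', g' k, hg'.isA, hg'.disj, ?_, hg'.isV k, ?_, ?_⟩
    · intro i hi
      exact (le_max_left _ _).trans_lt (hg'.far i hi)
    · intro h0
      obtain ⟨j, hj⟩ := hg'.ne
      apply hj
      rw [hgg j, h0, smul_zero]
    · have h5 : (∑ j, c j • f j) * g' k = ∑ j, f j * g' j := by
        rw [Finset.sum_mul]
        refine Finset.sum_congr rfl fun j _ => ?_
        rw [hgg j]
        funext s
        simp only [Pi.mul_apply, Pi.smul_apply, smul_eq_mul]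
        ring
      rw [h5]
      exact hg'.kill

end RightB

end Pool.Agent.Helper513.ZgT0
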