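import Pool.Agent.Helper513.ZgT0.KillDefs

set_option autoImplicit false

namespace Pool.Agent.Helper513.ZgT0

section RightC

variable {W : Type} [LinearOrder W] [WellFoundedLT W] [Nonempty W] {𝔅 : Set (Pat W)}

omit [Nonempty W] in
/-- blocks -/
theorem blk_exists (hS : IsSys 𝔅) (hN : Bdd W ℕ) {Q : Set W → Fn W → Prop} (hQ : KillSys 𝔅 Q)
    (hfar : ∀ γ : W, ∃ A g, IsA 𝔅 A ∧ (∀ i ∈ A, γ < i) ∧ IsV 𝔅 A g ∧ g ≠ 0 ∧ Q A g) (γ : W) :
    ∃ (A : Set W) (g : Fn W) (γ' : W), γ < γ' ∧ (∀ i ∈ A, γ < i) ∧ (∀ i ∈ A, i < γ') ∧ Q A g ∧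
      ∃ z, GoodBlk 𝔅 A g z := by
  obtain ⟨A, g, hA, hγ, hV, h0, hQg⟩ := hfar γ
  obtain ⟨z, hz, hgz⟩ := isV_sep hS hA hV h0
  have hne : A.Nonempty := by
    rw [Set.nonempty_iff_ne_empty]
    intro hemp
    subst hemp
    obtain ⟨v, hv, hnv⟩ := hQ.non ∅ hA
    rcases K_cases (v z) with h | h
    · apply hnv
      have : v = 0 := by
        funext s
        rw [hv.1 s z (fun i hi => absurd hi (Set.notMem_empty i)), h]
        rfl
      rw [this]
      exact hQ.zero ∅ hA
    · apply hnv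
      have : v = g := by
        funext s
        rw [hv.1 s z (fun i hi => absurd hi (Set.notMem_empty i)), h,
          hV.1 s z (fun i hi => absurd hi (Set.notMem_empty i)), hgz]
      rw [this]
      exact hQg
  have hc := isA_countable hS hA
  obtain ⟨f, hf⟩ := hc.exists_eq_range hne
  obtain ⟨b, hb⟩ := hN f
  have hAb : ∀ i ∈ A, i < b := by
    intro i hi
    rw [hf] at hi
    obtain ⟨n, rfl⟩ := hi
    exact hb n
  obtain ⟨i0, hi0⟩ := id hne
  refine ⟨A, g, b, (hγ i0 hi0).trans (hAb i0 hi0), hγ, hAb, hQg, z, hne, hc, hA, hV, hz, hgz, ?_⟩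
  by_cases hone : ∀ s, g s = 1
  · exact Or.inl hone
  right
  push Not at hone
  obtain ⟨s, hs⟩ := hone
  have hs0 : g s = 0 := (K_cases (g s)).resolve_right hs
  have hmem : (1 + g : Fn W) ∈ MS 𝔅 A := by
    apply AddSubgroup.add_mem
    · apply AddSubgroup.subset_closure
      exact ⟨∅, Set.empty_subset _, isA_finite hS Set.finite_empty,
        isV_fin hS Set.finite_empty (fun s t _ => rfl)⟩
    · apply AddSubgroup.subset_closure
      exact ⟨A, subset_rfl, hA, hV⟩
  have hne0 : (1 + g : Fn W) ≠ 0 := by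
    intro h
    have := congrFun h s
    simp only [Pi.add_apply, Pi.one_apply, Pi.zero_apply, hs0, add_zero] at this
    exact absurd this (by decide)
  obtain ⟨y, hy, hy1⟩ := MS_sep hS hA hmem hne0
  refine ⟨y, hy, ?_⟩
  simp only [Pi.add_apply, Pi.one_apply] at hy1
  exact left_eq_add.mp hy1.symm |>.symm ▸ rfl

omit [Nonempty W] in
/-- pools of blocks -/
theorem pool_exists (hS : IsSys 𝔅) {J : Type} (hI : Bdd W J)
    (hN : Bdd W ℕ) {Q : Set W → Fn W → Prop} (hQ : KillSys 𝔅 Q)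
    (hfar : ∀ γ : W, ∃ A g, IsA 𝔅 A ∧ (∀ i ∈ A, γ < i) ∧ IsV 𝔅 A g ∧ g ≠ 0 ∧ Q A g) (γ : W) :
    ∃ (fam : J → Set W × Fn W) (γ' : W), γ < γ' ∧ (∀ i, (fam i).1 ⊆ Set.Ico γ γ') ∧
      (∀ i, ∃ z, GoodBlk 𝔅 (fam i).1 (fam i).2 z) ∧ (∀ i, Q (fam i).1 (fam i).2) ∧
      ∀ i j, i ≠ j → Disjoint (fam i).1 (fam j).1 := by
  classical
  choose bA bg bd h1 h2 h3 h4 h5 using blk_exists hS hN hQ hfar
  choose sup hsup using hI
  set r : J → J → Prop := WellOrderingRel with hr
  have wf : WellFounded r := IsWellFounded.wf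
  set b : J → W := wf.fix (fun i rec => sup (fun j => if h : r j i then bd (rec j h) else γ))
    with hb
  have hbe : ∀ i, b i = sup (fun j => if r j i then bd (b j) else γ) := by
    intro i
    rw [hb, wf.fix_eq]
    rfl
  have hbγ : ∀ i, γ < b i := by
    intro i
    have := hsup (fun j => if r j i then bd (b j) else γ) i
    rw [← hbe, if_neg (irrefl i)] at this
    exact this
  have hbb : ∀ i j, r j i → bd (b j) < b i := by
    intro i j hji
    have := hsup (fun j => if r j i then bd (b j) else γ) j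
    rw [← hbe, if_pos hji] at this
    exact this
  obtain ⟨γ1, hγ1⟩ := hN (fun _ => γ)
  refine ⟨fun i => (bA (b i), bg (b i)), max γ1 (sup fun i => bd (b i)),
    lt_max_of_lt_left (hγ1 0), fun i x hx => ?_, fun i => h5 (b i), fun i => h4 (b i),
    fun i j hij => ?_⟩
  · exact ⟨((hbγ i).trans (h2 (b i) x hx)).le,
      lt_max_of_lt_right ((h3 (b i) x hx).trans (hsup (fun i => bd (b i)) i))⟩
  · have key : ∀ i j, r i j → Disjoint (bA (b i)) (bA (b j)) := by
      intro i j hij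
      rw [Set.disjoint_left]
      intro x hx hx'
      have e1 := h3 (b i) x hx
      have e2 := h2 (b j) x hx'
      have e3 := hbb j i hij
      exact absurd (e1.trans (e3.trans e2)) (lt_irrefl _)
    rcases trichotomous_of r i j with h | h | h
    · exact key i j h
    · exact absurd h hij
    · exact (key j i h).symm

/-- The hitting property gives a contradiction. -/
theorem far_false (hS : IsSys 𝔅) {I : ℕ → Type} (hHit : Hit 𝔅 I) (hI : ∀ n, Bdd W (I n))
    (hN : Bdd W ℕ) {Q : Set W → Fn W → Prop} (hQ : KillSys 𝔅 Q)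
    (hfar : ∀ γ : W, ∃ A g, IsA 𝔅 A ∧ (∀ i ∈ A, γ < i) ∧ IsV 𝔅 A g ∧ g ≠ 0 ∧ Q A g) : False := by
  classical
  choose fam nxt f1 f2 f3 f4 f5 using fun n => pool_exists hS (hI n) hN hQ hfar
  set lad : ℕ → W := fun n => Nat.rec (Classical.arbitrary W) (fun n x => nxt n x) n with hlad
  have hlads : ∀ n, lad (n + 1) = nxt n (lad n) := fun n => rfl
  have hmono : StrictMono lad := strictMono_nat_of_lt_succ fun n => by
    rw [hlads]; exact f1 n (lad n)
  obtain ⟨δ0, hδ0⟩ := hN lad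
  set δ : W := wellFounded_lt.min {x | ∀ n, lad n < x} ⟨δ0, hδ0⟩ with hδ
  have hδ1 : ∀ n, lad n < δ := wellFounded_lt.min_mem {x | ∀ n, lad n < x} ⟨δ0, hδ0⟩
  have hδ2 : ∀ x < δ, ∃ n, x < lad n := by
    intro x hx
    have h1 : ¬ ∀ n, lad n < x := fun h =>
      wellFounded_lt.not_lt_min {x | ∀ n, lad n < x} (x := x) h hx
    push Not at h1
    obtain ⟨n, hn⟩ := h1
    exact ⟨n + 1, hn.trans_lt (hmono (Nat.lt_succ_self n))⟩
  obtain ⟨B, hB, hBt, hBC⟩ := hHit δ lad (fun n => fam n (lad n)) hmono hδ1 hδ2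
    (fun n i => by rw [hlads]; exact f2 n (lad n) i)
    (fun n i => by
      obtain ⟨z, hz⟩ := f3 n (lad n) i
      refine ⟨z, hz.ne, hz.count, low_of_isA hS hz.isA (x := lad (n + 1)) (fun y hy => ?_)
        (hδ1 (n + 1)), isV_low hz.isV, isZ_low hz.isZ, hz.one, ?_⟩
      · rw [hlads]; exact (f2 n (lad n) i hy).2
      · rcases hz.zero with h | ⟨y, h1, h2⟩
        · exact Or.inl h
        · exact Or.inr ⟨y, isZ_low h1, h2⟩)
    (fun n i j hij => f5 n (lad n) i j hij)
  have hQB : ∀ n, Q (B.C n) (B.D n) := by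
    intro n
    obtain ⟨i, h1, h2⟩ := hBC n
    rw [h1, h2]
    exact f4 n (lad n) i
  obtain ⟨v, hv, hnv⟩ := hQ.non (B.tail 0) (isA_tail hS hB 0)
  obtain ⟨m, hm, hvm⟩ := hv.2 B hB ⟨0, subset_rfl⟩
  apply hnv
  have hw := isV_spec hS (A := B.tail m) hv B.z
  set w : Fn W := fun s => v (sp (B.tail m) B.z s) with hwdef
  have hA1 := isA_diff hS (isA_tail hS hB 0) (isA_tail hS hB m)
  have hA2 := isA_tail hS hB (m + 1)
  have hd1 : Disjoint (B.tail 0 \ B.tail m) (B.tail (m + 1)) := by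
    rw [Set.disjoint_left]
    intro x hx hx'
    exact hx.2 (tail_anti B (Nat.le_succ m) hx')
  have hg' := isV_mul hS hA1 hA2 hd1 hw (isV_t hS hB (m + 1))
  have hgood := good_C hS hB m
  have hd2 : Disjoint (B.C m) ((B.tail 0 \ B.tail m) ∪ B.tail (m + 1)) := by
    rw [Set.disjoint_union_right]
    refine ⟨?_, C_disjoint_tail hS hB (Nat.lt_succ_self m)⟩
    rw [Set.disjoint_left]
    intro x hx hx'
    exact hx'.2 (C_sub_tail B le_rfl hx)
  have hQm := hQ.mul (B.C m) _ (B.D m) _ hgood.isA (isA_union hS hA1 hA2) hd2 hgood.isV hg' (hQB m)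
  have hset : B.C m ∪ ((B.tail 0 \ B.tail m) ∪ B.tail (m + 1)) = B.tail 0 := by
    ext x
    simp only [Set.mem_union, Set.mem_sdiff]
    constructor
    · rintro (h | ⟨h, -⟩ | h)
      · exact C_sub_tail B (Nat.zero_le m) h
      · exact h
      · exact tail_anti B (Nat.zero_le _) h
    · intro h
      by_cases hx : x ∈ B.tail m
      · rw [tail_succ] at hx
        rcases hx with hx | hx
        · exact Or.inl hx
        · exact Or.inr (Or.inr hx)
      · exact Or.inr (Or.inl ⟨h, hx⟩)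
  have hveq : B.D m * (w * B.t (m + 1)) = v := by
    funext s
    simp only [Pi.mul_apply]
    rw [hvm s, t_succ hS hB m s]
    ring
  rw [hset, hveq] at hQm
  exact hQm

end RightC

end Pool.Agent.Helper513.ZgT0
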