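import Pool.Agent.Helper513.ZgT0.Ring

set_option autoImplicit false

namespace Pool.Agent.Helper513.ZgT0

section AuxBasic

variable {W : Type}


theorem zz_dep {A : Set W} {v : Fn W} (hv : DepOn A v) (y s : W → K) : v (sp A y s) = v y :=
  hv _ _ fun _ hi => sp_of_mem hi

theorem zz_sp_self (A : Set W) (z z' s : W → K) : sp A z (sp A z' s) = sp A z s := by
  funext i
  by_cases h : i ∈ A
  · rw [sp_of_mem h, sp_of_mem h]
  · rw [sp_of_notMem h, sp_of_notMem h, sp_of_notMem h]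

theorem zz_sp_in (A : Set W) (z z' s : W → K) : sp A (sp A z z') s = sp A z s := by
  funext i
  by_cases h : i ∈ A
  · rw [sp_of_mem h, sp_of_mem h, sp_of_mem h]
  · rw [sp_of_notMem h, sp_of_notMem h]

theorem zz_neg (a : K) : -a = a := by
  revert a
  decide

end AuxBasic

section AuxOrd

variable {W : Type} [LinearOrder W] {𝔅 : Set (Pat W)}

theorem zz_isV_sum (hS : IsSys 𝔅) {A : Set W} {ι : Type} (s : Finset ι) (f : ι → Fn W)
    (h : ∀ i ∈ s, IsV 𝔅 A (f i)) : IsV 𝔅 A (∑ i ∈ s, f i) := by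
  classical
  induction s using Finset.induction_on with
  | empty => rw [Finset.sum_empty]; exact isV_zero
  | insert a s ha ih =>
    rw [Finset.sum_insert ha]
    exact isV_add hS (h a (Finset.mem_insert_self a s))
      (ih fun i hi => h i (Finset.mem_insert_of_mem hi))

theorem zz_normal_form (hS : IsSys 𝔅) {A : Set W} {r : Module.End K (Fn W)} (hr : r ∈ LA 𝔅 A) :
    ∃ (Y : Finset (W → K)) (t : (W → K) → Fn W), (∀ y ∈ Y, IsZ 𝔅 A y ∧ sp A y 0 = y) ∧
      (∀ y, IsV 𝔅 A (t y)) ∧ (∀ y, y ∉ Y → t y = 0) ∧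
      ∀ (φ : Fn W) (s : W → K), r φ s = ∑ y ∈ Y, t y s * φ (sp A y s) := by
  classical
  unfold LA at hr
  induction hr using AddSubgroup.closure_induction with
  | mem a ha =>
    obtain ⟨v, z, hv, hz, rfl⟩ := ha
    refine ⟨{sp A z 0}, fun y => if y = sp A z 0 then v else 0, ?_, ?_, ?_, ?_⟩
    · intro y hy
      rw [Finset.mem_singleton] at hy
      subst hy
      refine ⟨isZ_congr (fun i hi => (sp_of_mem hi).symm) hz, zz_sp_in A z 0 0⟩
    · intro y
      show IsV 𝔅 A (if y = sp A z 0 then v else 0)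
      by_cases h : y = sp A z 0
      · rw [if_pos h]; exact hv
      · rw [if_neg h]; exact isV_zero
    · intro y hy
      rw [Finset.mem_singleton] at hy
      exact if_neg hy
    · intro φ s
      rw [Finset.sum_singleton]
      show v s * φ (sp A z s) = (if sp A z 0 = sp A z 0 then v else 0) s * φ (sp A (sp A z 0) s)
      rw [if_pos rfl, zz_sp_in]
  | zero =>
    refine ⟨∅, fun _ => 0, by simp, fun _ => isV_zero, fun _ _ => rfl, ?_⟩
    intro φ s
    simp
  | add x y _ _ hx hy =>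
    obtain ⟨Y1, t1, a1, b1, c1, d1⟩ := hx
    obtain ⟨Y2, t2, a2, b2, c2, d2⟩ := hy
    refine ⟨Y1 ∪ Y2, t1 + t2, ?_, ?_, ?_, ?_⟩
    · intro y hy
      rcases Finset.mem_union.1 hy with h | h
      · exact a1 y h
      · exact a2 y h
    · intro y
      exact isV_add hS (b1 y) (b2 y)
    · intro y hy
      rw [Finset.mem_union, not_or] at hy
      rw [Pi.add_apply, c1 y hy.1, c2 y hy.2, add_zero]
    · intro φ s
      have e1 : ∑ y ∈ Y1, t1 y s * φ (sp A y s) = ∑ y ∈ Y1 ∪ Y2, t1 y s * φ (sp A y s) := by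
        apply Finset.sum_subset Finset.subset_union_left
        intro y _ hy
        rw [c1 y hy, Pi.zero_apply, zero_mul]
      have e2 : ∑ y ∈ Y2, t2 y s * φ (sp A y s) = ∑ y ∈ Y1 ∪ Y2, t2 y s * φ (sp A y s) := by
        apply Finset.sum_subset Finset.subset_union_right
        intro y _ hy
        rw [c2 y hy, Pi.zero_apply, zero_mul]
      rw [LinearMap.add_apply, Pi.add_apply, d1, d2, e1, e2, ← Finset.sum_add_distrib]
      refine Finset.sum_congr rfl fun y _ => ?_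
      rw [Pi.add_apply, Pi.add_apply, add_mul]
  | neg x _ hx =>
    obtain ⟨Y, t, a, b, c, d⟩ := hx
    refine ⟨Y, t, a, b, c, ?_⟩
    intro φ s
    rw [LinearMap.neg_apply, Pi.neg_apply, zz_neg, d]

/-- A linear map has a quasi-inverse. -/
theorem zz_exists_qinv {V V' : Type} [AddCommGroup V] [Module K V] [AddCommGroup V'] [Module K V']
    (f : V →ₗ[K] V') : ∃ g : V' →ₗ[K] V, ∀ v, f (g (f v)) = f v := by
  obtain ⟨s, hs⟩ := f.rangeRestrict.exists_rightInverse_of_surjective f.range_rangeRestrict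
  obtain ⟨π, hπ⟩ := (LinearMap.range f).subtype.exists_leftInverse_of_injective
    (Submodule.ker_subtype _)
  refine ⟨s ∘ₗ π, fun v => ?_⟩
  have h1 : π (f v) = f.rangeRestrict v := LinearMap.congr_fun hπ (f.rangeRestrict v)
  have h2 : f.rangeRestrict (s (f.rangeRestrict v)) = f.rangeRestrict v :=
    LinearMap.congr_fun hs _
  change f (s (π (f v))) = f v
  rw [h1]
  exact congrArg Subtype.val h2

end AuxOrd

section RingTargets

variable {W : Type} [LinearOrder W] [WellFoundedLT W] {𝔅 : Set (Pat W)}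

theorem LA_regular (hS : IsSys 𝔅) {A : Set W} (hA : IsA 𝔅 A) {r : Module.End K (Fn W)}
    (hr : r ∈ LA 𝔅 A) : ∃ q ∈ LA 𝔅 A, r * q * r = r := by
  classical
  obtain ⟨Y, t, hY, ht, -, hr'⟩ := zz_normal_form hS hr
  -- the finite set of values
  let V := Y → K
  let τ : (W → K) → V := fun x y => t y x
  let ι := {c : V // ∃ x, IsZ 𝔅 A x ∧ τ x = c}
  let p : ι → (W → K) := fun c => c.2.choose
  have hpZ : ∀ c : ι, IsZ 𝔅 A (p c) := fun c => c.2.choose_spec.1
  have hp : ∀ c : ι, τ (p c) = c.1 := fun c => c.2.choose_spec.2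
  let L : (ι → K) →ₗ[K] V := Fintype.linearCombination K (fun c : ι => c.1)
  obtain ⟨C, hC⟩ := zz_exists_qinv L
  have hLZ : ∀ x, IsZ 𝔅 A x → τ x ∈ LinearMap.range L := by
    intro x hx
    refine ⟨Pi.single ⟨τ x, x, hx, rfl⟩ 1, ?_⟩
    rw [Fintype.linearCombination_apply_single, one_smul]
  have hLr : ∀ x, τ x ∈ LinearMap.range L := by
    intro x
    by_contra hx
    obtain ⟨f, hf1, hf2⟩ := Submodule.exists_dual_map_eq_bot_of_notMem hx inferInstance
    have hfs : ∀ c : V, f c = ∑ y : Y, c y * f (Pi.single y 1) := by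
      intro c
      have : c = ∑ y : Y, c y • (Pi.single y (1 : K) : V) := by
        funext w'
        rw [Finset.sum_apply, Finset.sum_eq_single w']
        · simp
        · intro w _ hne
          simp [hne.symm]
        · intro h
          exact absurd (Finset.mem_univ _) h
      conv_lhs => rw [this]
      simp only [map_sum, map_smul, smul_eq_mul]
    let w : Fn W := ∑ y : Y, f (Pi.single y 1) • t y
    have hwV : IsV 𝔅 A w := zz_isV_sum hS _ _ fun y _ => isV_smul _ (ht y)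
    have hwx : ∀ s, w s = f (τ s) := by
      intro s
      rw [hfs]
      show (∑ y : Y, f (Pi.single y 1) • t y) s = _
      rw [Finset.sum_apply]
      refine Finset.sum_congr rfl fun y _ => ?_
      rw [Pi.smul_apply, smul_eq_mul, mul_comm]
    have hw0 : w ≠ 0 := by
      intro h0
      apply hf1
      rw [← hwx, h0, Pi.zero_apply]
    obtain ⟨z, hz, hwz⟩ := isV_sep hS hA hwV hw0
    have h1 : f (τ z) ∈ (LinearMap.range L).map f := Submodule.mem_map_of_mem (hLZ z hz)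
    rw [hf2, Submodule.mem_bot, ← hwx, hwz] at h1
    exact one_ne_zero h1
  have hLτ : ∀ x, L (C (τ x)) = τ x := by
    intro x
    obtain ⟨a, ha⟩ := hLr x
    rw [← ha, hC]
  -- separating functions
  have hsep : ∀ y : Y, ∃ h, IsV 𝔅 A h ∧ h y = 1 ∧ ∀ y' ∈ Y, y' ≠ y → h y' = 0 := by
    intro y
    apply sep_finite hS hA Y (fun y hy => (hY y hy).1) y.1 y.2
    intro y' hy' hne
    by_contra hno
    push Not at hno
    apply hne
    rw [← (hY y' hy').2, ← (hY y.1 y.2).2]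
    funext i
    by_cases hi : i ∈ A
    · rw [sp_of_mem hi, sp_of_mem hi]
      exact (hno i hi).symm
    · rw [sp_of_notMem hi, sp_of_notMem hi]
  choose h hhV hh1 hh0 using hsep
  let ρ : ι → Fn W := fun c => ∑ y : Y, C (Pi.single y 1) c • h y
  have hρV : ∀ c, IsV 𝔅 A (ρ c) := fun c => zz_isV_sum hS _ _ fun y _ => isV_smul _ (hhV y)
  have hρ : ∀ (c : ι) (y : Y) (x : W → K), ρ c (sp A y.1 x) = C (Pi.single y 1) c := by
    intro c y x
    rw [zz_dep (hρV c).1]
    show (∑ y' : Y, C (Pi.single y' 1) c • h y') y.1 = _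
    rw [Finset.sum_apply, Finset.sum_eq_single y]
    · rw [Pi.smul_apply, hh1, smul_eq_mul, mul_one]
    · intro y' _ hne
      rw [Pi.smul_apply, hh0 y' y.1 y.2 (fun e => hne (Subtype.ext e.symm)), smul_zero]
    · intro h
      exact absurd (Finset.mem_univ _) h
  let Q : Module.End K (Fn W) := ∑ c : ι, T A (ρ c) (p c)
  have hQL : Q ∈ LA 𝔅 A := by
    apply AddSubgroup.sum_mem
    intro c _
    exact AddSubgroup.subset_closure ⟨ρ c, p c, hρV c, hpZ c, rfl⟩
  have hQ : ∀ φ x, Q φ x = ∑ c, ρ c x * φ (sp A (p c) x) := by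
    intro φ x
    show (∑ c : ι, T A (ρ c) (p c)) φ x = _
    rw [LinearMap.sum_apply, Finset.sum_apply]
    rfl
  refine ⟨Q, hQL, ?_⟩
  refine LinearMap.ext fun φ => funext fun x => ?_
  rw [Module.End.mul_apply, Module.End.mul_apply]
  have hT' : ∀ φ x, r φ x = ∑ y : Y, τ x y * φ (sp A y.1 x) := by
    intro φ x
    rw [hr', ← Finset.sum_coe_sort]
  have h1 : ∀ y : Y, Q (r φ) (sp A y.1 x) =
      ∑ c, C (Pi.single y 1) c * ∑ y' : Y, c.1 y' * φ (sp A y'.1 x) := by
    intro y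
    rw [hQ]
    refine Finset.sum_congr rfl fun c _ => ?_
    rw [hρ, zz_sp_self, hT']
    congr 1
    refine Finset.sum_congr rfl fun y' _ => ?_
    rw [zz_sp_self]
    congr 1
    rw [← hp c]
    exact zz_dep (ht y'.1).1 _ _
  rw [hT', hT']
  simp only [h1]
  -- both sides are the value of a linear functional at `A (C (τ x))` and `τ x`
  let ev : V →ₗ[K] K := Fintype.linearCombination K (fun y : Y => φ (sp A y.1 x))
  have hev : ∀ c : V, ev c = ∑ y' : Y, c y' * φ (sp A y'.1 x) := fun c => by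
    rw [Fintype.linearCombination_apply]
    rfl
  have h3 : ∀ y : Y, ∑ c, C (Pi.single y 1) c * ∑ y' : Y, c.1 y' * φ (sp A y'.1 x) =
      ev (L (C (Pi.single y 1))) := by
    intro y
    have e1 : L (C (Pi.single y 1)) = ∑ c : ι, C (Pi.single y 1) c • c.1 :=
      Fintype.linearCombination_apply _ _ _
    rw [e1, map_sum]
    refine Finset.sum_congr rfl fun c _ => ?_
    rw [map_smul, hev, smul_eq_mul]
  simp only [h3]
  have h4 : ∑ y : Y, τ x y * ev (L (C (Pi.single y 1))) = ev (L (C (τ x))) := by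
    have : τ x = ∑ y : Y, τ x y • (Pi.single y (1 : K) : V) := by
      funext w'
      rw [Finset.sum_apply, Finset.sum_eq_single w']
      · simp
      · intro w _ hne
        simp [hne.symm]
      · intro h
        exact absurd (Finset.mem_univ _) h
    conv_rhs => rw [this]
    simp only [map_sum, map_smul, smul_eq_mul]
  rw [h4, hLτ, hev]

theorem zz_ring_id {R : Type} [Ring R] (T q z : R) :
    T * (q + z - q * T * z - z * T * q + q * T * z * T * q) * T =
      T * q * T + (T - T * q * T) * z * (T - T * q * T) := by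
  noncomm_ring

/-- sums of operators supported on members of the family -/
def zzS (𝔅 : Set (Pat W)) (G : Set (Set W)) : AddSubgroup (Module.End K (Fn W)) :=
  AddSubgroup.closure {r | ∃ A ∈ G, ∃ v z, IsV 𝔅 A v ∧ IsZ 𝔅 A z ∧ r = T A v z}

theorem zzS_mono {G G' : Set (Set W)} (h : G ⊆ G') : zzS 𝔅 G ≤ zzS 𝔅 G' :=
  AddSubgroup.closure_mono fun _ ⟨A, hA, x⟩ => ⟨A, h hA, x⟩

theorem zzS_LA {G : Set (Set W)} {A : Set W} (hA : A ∈ G) : LA 𝔅 A ≤ zzS 𝔅 G :=
  AddSubgroup.closure_mono fun _ ⟨v, z, x⟩ => ⟨A, hA, v, z, x⟩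

theorem zzS_mul (hS : IsSys 𝔅) {G G' G'' : Set (Set W)} (hG : ∀ A ∈ G, IsA 𝔅 A)
    (hG' : ∀ A ∈ G', IsA 𝔅 A) (h : ∀ A ∈ G, ∀ A' ∈ G', A ∪ A' ∈ G'')
    {a b : Module.End K (Fn W)} (ha : a ∈ zzS 𝔅 G) (hb : b ∈ zzS 𝔅 G') : a * b ∈ zzS 𝔅 G'' := by
  refine mul_mem_of ?_ ha hb
  rintro _ ⟨A, hA, v, z, hv, hz, rfl⟩ _ ⟨A', hA', v', z', hv', hz', rfl⟩
  rw [T_mul]
  exact AddSubgroup.subset_closure ⟨A ∪ A', h A hA A' hA', _, _, isV_comp hS (hG A hA) (hG' A' hA') hv hv',
    isZ_glue hS (hG' A' hA') hz hz', rfl⟩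

theorem zzS_split {G : Set (Set W)} {A : Set W} {r : Module.End K (Fn W)} (hr : r ∈ zzS 𝔅 G) :
    ∃ a ∈ LA 𝔅 A, ∃ b ∈ zzS 𝔅 (G \ {A}), r = a + b := by
  unfold zzS at hr
  induction hr using AddSubgroup.closure_induction with
  | mem a ha =>
    obtain ⟨A', hA', v, z, hv, hz, rfl⟩ := ha
    by_cases h : A' = A
    · subst h
      exact ⟨_, AddSubgroup.subset_closure ⟨v, z, hv, hz, rfl⟩, 0, AddSubgroup.zero_mem _, (add_zero _).symm⟩
    · exact ⟨0, AddSubgroup.zero_mem _, _, AddSubgroup.subset_closure ⟨A', ⟨hA', h⟩, v, z, hv, hz, rfl⟩,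
        (zero_add _).symm⟩
  | zero => exact ⟨0, AddSubgroup.zero_mem _, 0, AddSubgroup.zero_mem _, (add_zero _).symm⟩
  | add x y _ _ hx hy =>
    obtain ⟨a, ha, b, hb, rfl⟩ := hx
    obtain ⟨a', ha', b', hb', rfl⟩ := hy
    exact ⟨a + a', AddSubgroup.add_mem _ ha ha', b + b', AddSubgroup.add_mem _ hb hb', by abel⟩
  | neg x _ hx =>
    obtain ⟨a, ha, b, hb, rfl⟩ := hx
    exact ⟨-a, AddSubgroup.neg_mem _ ha, -b, AddSubgroup.neg_mem _ hb, by abel⟩

theorem zzS_regular (hS : IsSys 𝔅) (n : ℕ) : ∀ G : Finset (Set W), G.card = n → (∀ A ∈ G, IsA 𝔅 A) →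
    (∀ A ∈ G, ∀ A' ∈ G, A ∪ A' ∈ G) → ∀ r ∈ zzS 𝔅 (G : Set (Set W)),
    ∃ q ∈ zzS 𝔅 (G : Set (Set W)), r * q * r = r := by
  classical
  induction n with
  | zero =>
    intro G hG _ _ r hr
    rw [Finset.card_eq_zero] at hG
    subst hG
    have : zzS 𝔅 ((∅ : Finset (Set W)) : Set (Set W)) = ⊥ := by
      unfold zzS
      rw [AddSubgroup.closure_eq_bot_iff]
      rintro x ⟨A, hA, -⟩
      exact absurd hA (by simp)
    rw [this, AddSubgroup.mem_bot] at hr
    subst hr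
    exact ⟨0, AddSubgroup.zero_mem _, by simp⟩
  | succ n ih =>
    intro G hG hA hU r hr
    have hne : G.Nonempty := by rw [← Finset.card_pos]; omega
    obtain ⟨A1, hA1G, hmin⟩ := G.exists_minimal hne
    have hG' : (G.erase A1).card = n := by rw [Finset.card_erase_of_mem hA1G, hG]; rfl
    have hcoe : ((G.erase A1 : Finset (Set W)) : Set (Set W)) = (G : Set (Set W)) \ {A1} := by
      simp
    have hneu : ∀ A ∈ G.erase A1, ∀ A' ∈ G, A ∪ A' ≠ A1 := by
      intro A hA _ _ he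
      have h1 : A ≤ A1 := by rw [← he]; exact Set.subset_union_left
      have h2 : A1 ≤ A := hmin (Finset.mem_of_mem_erase hA) h1
      exact (Finset.ne_of_mem_erase hA) (le_antisymm h1 h2)
    have hU1 : ∀ A ∈ ((G.erase A1 : Finset (Set W)) : Set (Set W)), ∀ A' ∈ (G : Set (Set W)),
        A ∪ A' ∈ ((G.erase A1 : Finset (Set W)) : Set (Set W)) := by
      intro A hAe A' hA'
      exact Finset.mem_coe.2 (Finset.mem_erase.2 ⟨hneu A hAe A' hA',
        hU A (Finset.mem_of_mem_erase hAe) A' hA'⟩)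
    have hU2 : ∀ A ∈ (G : Set (Set W)), ∀ A' ∈ ((G.erase A1 : Finset (Set W)) : Set (Set W)),
        A ∪ A' ∈ ((G.erase A1 : Finset (Set W)) : Set (Set W)) := by
      intro A hA A' hA'
      rw [Set.union_comm]
      exact hU1 A' hA' A hA
    have hAe : ∀ A ∈ ((G.erase A1 : Finset (Set W)) : Set (Set W)), IsA 𝔅 A :=
      fun A h => hA A (Finset.mem_of_mem_erase h)
    have hAG : ∀ A ∈ (G : Set (Set W)), IsA 𝔅 A := fun A h => hA A h
    have hsub : zzS 𝔅 ((G.erase A1 : Finset (Set W)) : Set (Set W)) ≤ zzS 𝔅 (G : Set (Set W)) :=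
      zzS_mono (by intro A h; exact Finset.mem_of_mem_erase h)
    have mulG : ∀ {a b : Module.End K (Fn W)}, a ∈ zzS 𝔅 (G : Set (Set W)) → b ∈ zzS 𝔅 (G : Set (Set W)) →
        a * b ∈ zzS 𝔅 (G : Set (Set W)) := fun ha hb => zzS_mul hS hAG hAG (fun A hA A' hA' => hU A hA A' hA') ha hb
    have mulL : ∀ {a b : Module.End K (Fn W)}, a ∈ zzS 𝔅 ((G.erase A1 : Finset (Set W)) : Set (Set W)) →
        b ∈ zzS 𝔅 (G : Set (Set W)) → a * b ∈ zzS 𝔅 ((G.erase A1 : Finset (Set W)) : Set (Set W)) :=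
      fun ha hb => zzS_mul hS hAe hAG hU1 ha hb
    have mulR : ∀ {a b : Module.End K (Fn W)}, a ∈ zzS 𝔅 (G : Set (Set W)) →
        b ∈ zzS 𝔅 ((G.erase A1 : Finset (Set W)) : Set (Set W)) →
        a * b ∈ zzS 𝔅 ((G.erase A1 : Finset (Set W)) : Set (Set W)) :=
      fun ha hb => zzS_mul hS hAG hAe hU2 ha hb
    obtain ⟨a, ha, b, hb, hab⟩ := zzS_split (A := A1) hr
    rw [← hcoe] at hb
    obtain ⟨q, hq, hqa⟩ := LA_regular hS (hA A1 hA1G) ha
    have haG : a ∈ zzS 𝔅 (G : Set (Set W)) := zzS_LA (Finset.mem_coe.2 hA1G) ha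
    have hqG : q ∈ zzS 𝔅 (G : Set (Set W)) := zzS_LA (Finset.mem_coe.2 hA1G) hq
    have hu : r - r * q * r ∈ zzS 𝔅 ((G.erase A1 : Finset (Set W)) : Set (Set W)) := by
      have : r - r * q * r = b - (a * q * b + b * (q * a) + b * (q * b)) := by
        have h1 : (a + b) * q * (a + b) = a * q * a + (a * q * b + b * (q * a) + b * (q * b)) := by
          noncomm_ring
        rw [hab, h1, hqa]
        abel
      rw [this]
      exact AddSubgroup.sub_mem _ hb (AddSubgroup.add_mem _ (AddSubgroup.add_mem _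
        (mulR (mulG haG hqG) hb) (mulL hb (mulG hqG haG))) (mulL hb (mulG hqG (hsub hb))))
    obtain ⟨z, hz, hzu⟩ := ih (G.erase A1) hG' hAe
      (fun A h A' h' => hU1 A h A' (Finset.mem_of_mem_erase h')) _ hu
    have hzG := hsub hz
    refine ⟨q + z - q * r * z - z * r * q + q * r * z * r * q, ?_, ?_⟩
    · exact AddSubgroup.add_mem _ (AddSubgroup.sub_mem _ (AddSubgroup.sub_mem _
        (AddSubgroup.add_mem _ hqG hzG) (mulG (mulG hqG hr) hzG)) (mulG (mulG hzG hr) hqG))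
        (mulG (mulG (mulG (mulG hqG hr) hzG) hr) hqG)
    · rw [zz_ring_id, hzu]
      abel

theorem zz_exists_fam (hS : IsSys 𝔅) {r : Module.End K (Fn W)} (hr : r ∈ RR hS) :
    ∃ G : Finset (Set W), (∀ A ∈ G, IsA 𝔅 A) ∧ r ∈ zzS 𝔅 (G : Set (Set W)) := by
  classical
  rw [mem_RR] at hr
  induction hr using AddSubgroup.closure_induction with
  | mem a ha =>
    obtain ⟨A, v, z, hA, hv, hz, rfl⟩ := ha
    refine ⟨{A}, by simpa using hA, AddSubgroup.subset_closure ⟨A, by simp, v, z, hv, hz, rfl⟩⟩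
  | zero => exact ⟨∅, by simp, AddSubgroup.zero_mem _⟩
  | add x y _ _ hx hy =>
    obtain ⟨G, hG, hx⟩ := hx
    obtain ⟨G', hG', hy⟩ := hy
    refine ⟨G ∪ G', ?_, AddSubgroup.add_mem _ (zzS_mono ?_ hx) (zzS_mono ?_ hy)⟩
    · intro A hA
      rcases Finset.mem_union.1 hA with h | h
      · exact hG A h
      · exact hG' A h
    · intro A hA
      exact Finset.mem_coe.2 (Finset.mem_union_left _ hA)
    · intro A hA
      exact Finset.mem_coe.2 (Finset.mem_union_right _ hA)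
  | neg x _ hx =>
    obtain ⟨G, hG, hx⟩ := hx
    exact ⟨G, hG, AddSubgroup.neg_mem _ hx⟩

theorem zz_isA_sUnion (hS : IsSys 𝔅) (G : Finset (Set W)) (hG : ∀ A ∈ G, IsA 𝔅 A) :
    IsA 𝔅 (⋃₀ (G : Set (Set W))) := by
  classical
  induction G using Finset.induction_on with
  | empty =>
    rw [Finset.coe_empty, Set.sUnion_empty]
    exact isA_finite hS Set.finite_empty
  | insert A G hA ih =>
    rw [Finset.coe_insert, Set.sUnion_insert]
    exact isA_union hS (hG A (Finset.mem_insert_self A G))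
      (ih fun A' h => hG A' (Finset.mem_insert_of_mem h))

theorem zz_closure (hS : IsSys 𝔅) (G : Finset (Set W)) (hG : ∀ A ∈ G, IsA 𝔅 A) :
    ∃ G' : Finset (Set W), G ⊆ G' ∧ (∀ A ∈ G', IsA 𝔅 A) ∧ ∀ A ∈ G', ∀ A' ∈ G', A ∪ A' ∈ G' := by
  classical
  refine ⟨G.powerset.image (fun H : Finset (Set W) => ⋃₀ (H : Set (Set W))), ?_, ?_, ?_⟩
  · intro A hA
    refine Finset.mem_image.2 ⟨{A}, Finset.mem_powerset.2 (by simpa using hA), ?_⟩
    simp
  · intro A hA
    obtain ⟨H, hH, rfl⟩ := Finset.mem_image.1 hA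
    exact zz_isA_sUnion hS H fun A h => hG A (Finset.mem_powerset.1 hH h)
  · intro A hA A' hA'
    obtain ⟨H, hH, rfl⟩ := Finset.mem_image.1 hA
    obtain ⟨H', hH', rfl⟩ := Finset.mem_image.1 hA'
    refine Finset.mem_image.2 ⟨H ∪ H', Finset.mem_powerset.2
      (Finset.union_subset (Finset.mem_powerset.1 hH) (Finset.mem_powerset.1 hH')), ?_⟩
    rw [Finset.coe_union, Set.sUnion_union]

theorem zz_zzS_RR (hS : IsSys 𝔅) {G : Finset (Set W)} (hG : ∀ A ∈ G, IsA 𝔅 A) {r : Module.End K (Fn W)}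
    (hr : r ∈ zzS 𝔅 (G : Set (Set W))) : r ∈ RR hS := by
  rw [mem_RR]
  refine AddSubgroup.closure_mono ?_ hr
  rintro _ ⟨A, hA, v, z, hv, hz, rfl⟩
  exact ⟨A, v, z, hG A hA, hv, hz, rfl⟩

theorem RR_regular (hS : IsSys 𝔅) (a : RR hS) : ∃ x : RR hS, a * x * a = a := by
  obtain ⟨a, ha⟩ := a
  obtain ⟨G, hG, haG⟩ := zz_exists_fam hS ha
  obtain ⟨G', hGG', hG', hU⟩ := zz_closure hS G hG
  obtain ⟨q, hq, h⟩ := zzS_regular hS _ G' rfl hG' hU a (zzS_mono (by exact_mod_cast hGG') haG)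
  exact ⟨⟨q, zz_zzS_RR hS hG' hq⟩, Subtype.ext h⟩

theorem zz_T_one (A : Set W) (v : Fn W) (z : W → K) : T A v z 1 = v := by
  funext s
  rw [T_apply, Pi.one_apply, mul_one]

theorem zz_MS_mono {A A' : Set W} (h : A ⊆ A') : MS 𝔅 A ≤ MS 𝔅 A' :=
  AddSubgroup.closure_mono fun _ ⟨B, hB, x⟩ => ⟨B, hB.trans h, x⟩

theorem zz_apply_one (hS : IsSys 𝔅) {r : Module.End K (Fn W)} (hr : r ∈ RR hS) :
    ∃ A, IsA 𝔅 A ∧ r 1 ∈ MS 𝔅 A := by
  rw [mem_RR] at hr
  induction hr using AddSubgroup.closure_induction with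
  | mem a ha =>
    obtain ⟨A, v, z, hA, hv, hz, rfl⟩ := ha
    refine ⟨A, hA, ?_⟩
    rw [zz_T_one]
    exact AddSubgroup.subset_closure ⟨A, subset_rfl, hA, hv⟩
  | zero => exact ⟨∅, isA_finite hS Set.finite_empty, AddSubgroup.zero_mem _⟩
  | add x y _ _ hx hy =>
    obtain ⟨A, hA, hx⟩ := hx
    obtain ⟨A', hA', hy⟩ := hy
    refine ⟨A ∪ A', isA_union hS hA hA', ?_⟩
    rw [LinearMap.add_apply]
    exact AddSubgroup.add_mem _ (zz_MS_mono Set.subset_union_left hx)
      (zz_MS_mono Set.subset_union_right hy)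
  | neg x _ hx =>
    obtain ⟨A, hA, hx⟩ := hx
    refine ⟨A, hA, ?_⟩
    rw [LinearMap.neg_apply]
    exact AddSubgroup.neg_mem _ hx

theorem zz_finite_dep (hS : IsSys 𝔅) {r : Module.End K (Fn W)} (hr : r ∈ RR hS) (s : W → K) :
    ∃ Y : Finset (W → K), ∀ φ φ' : Fn W, (∀ y ∈ Y, φ y = φ' y) → r φ s = r φ' s := by
  classical
  rw [mem_RR] at hr
  induction hr using AddSubgroup.closure_induction with
  | mem a ha =>
    obtain ⟨A, v, z, hA, hv, hz, rfl⟩ := ha
    refine ⟨{sp A z s}, fun φ φ' h => ?_⟩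
    rw [T_apply, T_apply, h _ (Finset.mem_singleton_self _)]
  | zero => exact ⟨∅, fun φ φ' _ => rfl⟩
  | add x y _ _ hx hy =>
    obtain ⟨Y, hx⟩ := hx
    obtain ⟨Y', hy⟩ := hy
    refine ⟨Y ∪ Y', fun φ φ' h => ?_⟩
    rw [LinearMap.add_apply, LinearMap.add_apply, Pi.add_apply, Pi.add_apply,
      hx φ φ' fun y hy => h y (Finset.mem_union_left _ hy),
      hy φ φ' fun y hy => h y (Finset.mem_union_right _ hy)]
  | neg x _ hx =>
    obtain ⟨Y, hx⟩ := hx
    refine ⟨Y, fun φ φ' h => ?_⟩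
    rw [LinearMap.neg_apply, LinearMap.neg_apply, Pi.neg_apply, Pi.neg_apply, hx φ φ' h]

/-- a function of finitely many coordinates with given values at finitely many points -/
theorem zz_interp (Y : Finset (W → K)) (φ : Fn W) :
    ∃ (F : Set W) (φ' : Fn W), F.Finite ∧ DepOn F φ' ∧ ∀ y ∈ Y, φ y = φ' y := by
  classical
  have hpair : ∀ y y' : W → K, ∃ F : Finset W, y ≠ y' → ∃ i ∈ F, y i ≠ y' i := by
    intro y y'
    by_cases h : y = y'
    · exact ⟨∅, fun h' => absurd h h'⟩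
    · obtain ⟨i, hi⟩ := Function.ne_iff.1 h
      exact ⟨{i}, fun _ => ⟨i, Finset.mem_singleton_self i, hi⟩⟩
  choose F hF using hpair
  let F' : Finset W := Y.biUnion fun y => Y.biUnion fun y' => F y y'
  have hF' : ∀ y ∈ Y, ∀ y' ∈ Y, (∀ i ∈ F', y i = y' i) → y = y' := by
    intro y hy y' hy' h
    by_contra hne
    obtain ⟨i, hi, hi'⟩ := hF y y' hne
    exact hi' (h i (Finset.mem_biUnion.2 ⟨y, hy, Finset.mem_biUnion.2 ⟨y', hy', hi⟩⟩))
  refine ⟨(F' : Set W), fun x => if h : ∃ y ∈ Y, ∀ i ∈ F', x i = y i then φ h.choose else 0,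
    F'.finite_toSet, ?_, ?_⟩
  · intro s t hst
    have : ∀ y : W → K, (∀ i ∈ F', s i = y i) ↔ (∀ i ∈ F', t i = y i) := by
      intro y
      exact ⟨fun h i hi => (hst i (Finset.mem_coe.2 hi)).symm.trans (h i hi),
        fun h i hi => (hst i (Finset.mem_coe.2 hi)).trans (h i hi)⟩
    simp only [this]
  · intro y hy
    have hex : ∃ y' ∈ Y, ∀ i ∈ F', y i = y' i := ⟨y, hy, fun _ _ => rfl⟩
    show φ y = if h : ∃ y' ∈ Y, ∀ i ∈ F', y i = y' i then φ h.choose else 0
    rw [dif_pos hex]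
    have := hF' y hy hex.choose hex.choose_spec.1 hex.choose_spec.2
    rw [← this]

/-- The annihilator of the constant function `1` is a left ideal with a faithful uniform
quotient. -/
theorem RR_left (hS : IsSys 𝔅) : ∃ I : Submodule (RR hS) (RR hS), (1 : RR hS) ∉ I ∧
    (∀ a b : RR hS, a ∉ I → b ∉ I → ∃ s t : RR hS, s * a - t * b ∈ I ∧ s * a ∉ I) ∧
    (∀ r : RR hS, r ≠ 0 → ∃ s : RR hS, r * s ∉ I) := by
  let I : Submodule (RR hS) (RR hS) :=
    { carrier := {r | (r : Module.End K (Fn W)) 1 = 0}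
      add_mem' := by
        intro a b ha hb
        have ha' : (a : Module.End K (Fn W)) 1 = 0 := ha
        have hb' : (b : Module.End K (Fn W)) 1 = 0 := hb
        show ((a : Module.End K (Fn W)) + (b : Module.End K (Fn W))) 1 = 0
        rw [LinearMap.add_apply, ha', hb', add_zero]
      zero_mem' := rfl
      smul_mem' := by
        intro c a ha
        have ha' : (a : Module.End K (Fn W)) 1 = 0 := ha
        show ((c : Module.End K (Fn W)) * (a : Module.End K (Fn W))) 1 = 0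
        rw [Module.End.mul_apply, ha', map_zero] }
  have hI : ∀ r : RR hS, r ∈ I ↔ (r : Module.End K (Fn W)) 1 = 0 := fun r => Iff.rfl
  have hne : ∀ {v : Fn W} {z : W → K}, v z = 1 → v ≠ 0 := by
    intro v z h h0
    rw [h0, Pi.zero_apply] at h
    exact zero_ne_one h
  refine ⟨I, ?_, ?_, ?_⟩
  · rw [hI]
    exact hne (v := (1 : Fn W)) (z := 0) rfl
  · intro a b ha hb
    rw [hI] at ha hb
    obtain ⟨A1, hA1, h1⟩ := zz_apply_one hS a.2
    obtain ⟨A2, hA2, h2⟩ := zz_apply_one hS b.2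
    have hA := isA_union hS hA1 hA2
    have h1' := zz_MS_mono (𝔅 := 𝔅) (Set.subset_union_left : A1 ⊆ A1 ∪ A2) h1
    have h2' := zz_MS_mono (𝔅 := 𝔅) (Set.subset_union_right : A2 ⊆ A1 ∪ A2) h2
    obtain ⟨z, hz, hφz⟩ := MS_sep hS hA h1' ha
    obtain ⟨z', hz', hψz⟩ := MS_sep hS hA h2' hb
    obtain ⟨v, hv, hvz⟩ := exists_isV_one hS hA hz
    have e1 : (T (A1 ∪ A2) v z) ((a : Module.End K (Fn W)) 1) = v := by
      funext x
      rw [T_apply, zz_dep (MS_dep h1'), hφz, mul_one]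
    have e2 : (T (A1 ∪ A2) v z') ((b : Module.End K (Fn W)) 1) = v := by
      funext x
      rw [T_apply, zz_dep (MS_dep h2'), hψz, mul_one]
    refine ⟨⟨T (A1 ∪ A2) v z, T_mem_RR hS hA hv hz⟩, ⟨T (A1 ∪ A2) v z', T_mem_RR hS hA hv hz'⟩, ?_, ?_⟩
    · rw [hI]
      show (T (A1 ∪ A2) v z * (a : Module.End K (Fn W)) - T (A1 ∪ A2) v z' * (b : Module.End K (Fn W))) 1 = 0
      rw [LinearMap.sub_apply, Module.End.mul_apply, Module.End.mul_apply, e1, e2, sub_self]
    · rw [hI]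
      show (T (A1 ∪ A2) v z * (a : Module.End K (Fn W))) 1 ≠ 0
      rw [Module.End.mul_apply, e1]
      exact hne hvz
  · intro r hr
    have hr' : (r : Module.End K (Fn W)) ≠ 0 := fun h => hr (Subtype.ext h)
    obtain ⟨φ, hφ⟩ : ∃ φ, (r : Module.End K (Fn W)) φ ≠ 0 := by
      by_contra hno
      push Not at hno
      exact hr' (LinearMap.ext hno)
    obtain ⟨s, hs⟩ := Function.ne_iff.1 hφ
    obtain ⟨Y, hY⟩ := zz_finite_dep hS r.2 s
    obtain ⟨F, φ', hF, hdep, hφ'⟩ := zz_interp Y φ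
    refine ⟨⟨T F φ' 0, T_mem_RR hS (isA_finite hS hF) (isV_fin hS hF hdep) (isZ_fin hS hF 0)⟩, ?_⟩
    rw [hI]
    show ((r : Module.End K (Fn W)) * T F φ' 0) 1 ≠ 0
    rw [Module.End.mul_apply, zz_T_one]
    intro h0
    apply hs
    rw [hY φ φ' hφ', h0]

end RingTargets

end Pool.Agent.Helper513.ZgT0
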