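import Pool.Agent.Helper513.ZgT0.Base

set_option autoImplicit false

open Cardinal

namespace Pool.Agent.Helper513.ZgT0

theorem Iio_le_aux (κ : Cardinal.{0}) (δ : (Order.succ κ).ord.ToType) : #(Set.Iio δ) ≤ κ := by
  have h : #(Set.Iio δ) < Order.succ κ := by
    simpa using mk_Iio_lt δ
  exact Order.lt_succ_iff.1 h

theorem bdd_aux (κ : Cardinal.{0}) (hκ : ℵ₀ ≤ κ) (ι : Type) (hι : #ι ≤ κ) :
    Bdd ((Order.succ κ).ord.ToType) ι := by
  intro f
  by_contra h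
  push Not at h
  have hIic : ∀ w : (Order.succ κ).ord.ToType, #(Set.Iic w) ≤ κ := by
    intro w
    rw [← Set.Iio_insert]
    refine mk_insert_le.trans ?_
    refine (add_le_add_left (Iio_le_aux κ w) 1).trans ?_
    rw [add_one_eq hκ]
  have hU : (Set.univ : Set ((Order.succ κ).ord.ToType)) ⊆ ⋃ i, Set.Iic (f i) := by
    intro b _
    obtain ⟨i, hi⟩ := h b
    exact Set.mem_iUnion.2 ⟨i, hi⟩
  have h1 : #((Order.succ κ).ord.ToType) ≤ κ := by
    calc #((Order.succ κ).ord.ToType) = #(Set.univ : Set ((Order.succ κ).ord.ToType)) := mk_univ.symm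
      _ ≤ #(⋃ i, Set.Iic (f i) : Set _) := mk_le_mk_of_subset hU
      _ ≤ Cardinal.sum (fun i => #(Set.Iic (f i))) := mk_iUnion_le_sum_mk
      _ ≤ Cardinal.sum (fun _ : ι => κ) := sum_le_sum _ _ (fun i => hIic _)
      _ = #ι * κ := sum_const' _ _
      _ ≤ κ * κ := mul_le_mul_left hι κ
      _ = κ := mul_eq_self hκ
  rw [mk_ord_toType] at h1
  exact absurd h1 (not_le.2 (Order.lt_succ κ))

/-- pairs of a countable subset of the initial segment and functions supported there -/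
def TT {W : Type} [LinearOrder W] (x : W) : Set (Set W × (Σ m : ℕ, Fin m → Fn W)) :=
  {p | p.1.Countable ∧ p.1 ⊆ Set.Iio x ∧ ∀ j, DepOn p.1 (p.2.2 j)}

theorem card_F (θ : Cardinal.{0}) (hθ : ℵ₀ ≤ θ)
    (h2 : (2 : Cardinal.{0}) ^ ((2 : Cardinal.{0}) ^ ℵ₀) ≤ θ) :
    #(Σ m : ℕ, Fin m → ((ℕ → K) → K)) ≤ θ := by
  have hF : #((ℕ → K) → K) ≤ θ := by
    have hK : #K = 2 := by
      rw [mk_fintype]
      simp [K, ZMod.card]
    rw [← power_def, ← power_def, hK, mk_nat]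
    exact h2
  have e : #(Σ m : ℕ, Fin m → ((ℕ → K) → K)) = #(List ((ℕ → K) → K)) :=
    mk_congr (List.equivSigmaTuple (α := (ℕ → K) → K)).symm
  rw [e]
  exact (mk_list_le_max _).trans (max_le hθ hF)

theorem card_TT {W : Type} [LinearOrder W] (θ : Cardinal.{0}) (hθ : ℵ₀ ≤ θ) (hpow : θ ^ ℵ₀ ≤ θ)
    (h2 : (2 : Cardinal.{0}) ^ ((2 : Cardinal.{0}) ^ ℵ₀) ≤ θ) (x : W) (hx : #(Set.Iio x) ≤ θ) :
    #(TT x) ≤ θ := by
  classical
  let Φ : Option (ℕ → Set.Iio x) × (Σ m : ℕ, Fin m → ((ℕ → K) → K)) →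
      Set W × (Σ m : ℕ, Fin m → Fn W) := fun q =>
    match q.1 with
    | none => (∅, ⟨q.2.1, fun j _ => q.2.2 j 0⟩)
    | some c => (Set.range (fun i => (c i : W)), ⟨q.2.1, fun j s => q.2.2 j (fun i => s (c i))⟩)
  have hsub : TT x ⊆ Set.range Φ := by
    rintro ⟨A, m, f⟩ ⟨hA, hAx, hdep⟩
    simp only at hA hAx hdep
    rcases A.eq_empty_or_nonempty with rfl | hne
    · refine ⟨(none, ⟨m, fun j _ => f j 0⟩), ?_⟩
      simp only [Φ]
      refine Prod.ext rfl ?_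
      simp only
      refine Sigma.ext rfl ?_
      simp only [heq_eq_eq]
      funext j s
      exact hdep j 0 s (by simp)
    · obtain ⟨c, hc⟩ := hA.exists_eq_range hne
      have hcx : ∀ i, c i ∈ Set.Iio x := fun i => hAx (hc ▸ Set.mem_range_self i)
      refine ⟨(some (fun i => ⟨c i, hcx i⟩), ⟨m, fun j w =>
        f j (fun y => if h : ∃ i, c i = y then w h.choose else 0)⟩), ?_⟩
      simp only [Φ]
      refine Prod.ext hc.symm ?_
      simp only
      refine Sigma.ext rfl ?_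
      simp only [heq_eq_eq]
      funext j s
      refine hdep j _ _ ?_
      intro y hy
      rw [hc] at hy
      have hy' : ∃ i, c i = y := hy
      simp only [dif_pos hy']
      rw [hy'.choose_spec]
  refine (mk_le_mk_of_subset hsub).trans (mk_range_le.trans ?_)
  rw [← mul_def, mk_option]
  have h3 : #(ℕ → Set.Iio x) ≤ θ := by
    rw [← power_def, mk_nat]
    exact (power_le_power_right hx).trans hpow
  have h4 := card_F θ hθ h2
  calc (#(ℕ → Set.Iio x) + 1) * #(Σ m : ℕ, Fin m → ((ℕ → K) → K)) ≤ (θ + 1) * θ :=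
        mul_le_mul' (add_le_add_left h3 1) h4
    _ = θ := by rw [add_one_eq hθ, mul_eq_self hθ]

theorem clo_aux {W Ω : Type} [LinearOrder W] [WellFoundedLT W] [LinearOrder Ω] [WellFoundedLT Ω]
    (θ : Cardinal.{0}) (hθ : ℵ₀ ≤ θ)
    (hB : ∀ ι : Type, #ι ≤ θ → Bdd W ι)
    (hT : ∀ x : W, #(TT x) ≤ θ) (hΩ : #Ω ≤ θ) (hΩB : ∀ ι : Type, #ι ≤ ℵ₀ → Bdd Ω ι) : Clo W := by
  classical
  intro γ b
  have hG : ∀ x : W, ∃ g : W, ∀ t : TT x, b t.1.1 t.1.2 < g := fun x =>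
    hB (TT x) (hT x) (fun t => b t.1.1 t.1.2)
  choose G hG using hG
  have hseg : ∀ i : Ω, #(Option {j : Ω // j < i}) ≤ θ := by
    intro i
    rw [mk_option]
    refine (add_le_add_left ((mk_subtype_le _).trans hΩ) 1).trans ?_
    rw [add_one_eq hθ]
  have hbe : ∃ be : Ω → W, ∀ i, γ < be i ∧ ∀ j < i, max (be j) (G (be j)) < be i := by
    let step : ∀ i : Ω, (∀ j, j < i → W) → W := fun i rec =>
      Classical.choose (hB _ (hseg i) (fun o : Option {j : Ω // j < i} =>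
        o.elim γ (fun j => max (rec j.1 j.2) (G (rec j.1 j.2)))))
    have hstep : ∀ i rec, ∀ o : Option {j : Ω // j < i},
        o.elim γ (fun j => max (rec j.1 j.2) (G (rec j.1 j.2))) < step i rec := fun i rec =>
      Classical.choose_spec (hB _ (hseg i) (fun o : Option {j : Ω // j < i} =>
        o.elim γ (fun j => max (rec j.1 j.2) (G (rec j.1 j.2)))))
    have wf : WellFounded (fun i j : Ω => i < j) := wellFounded_lt
    refine ⟨fun i => wf.fix step i, fun i => ⟨?_, fun j hj => ?_⟩⟩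
    · have h := hstep i (fun j _ => wf.fix step j) none
      exact lt_of_lt_of_eq h (wf.fix_eq step i).symm
    · have h := hstep i (fun j _ => wf.fix step j) (some ⟨j, hj⟩)
      exact lt_of_lt_of_eq h (wf.fix_eq step i).symm
  obtain ⟨be, hbe⟩ := hbe
  have hne : {y : W | ∀ i, be i < y}.Nonempty := hB Ω hΩ be
  have wfW : WellFounded (fun i j : W => i < j) := wellFounded_lt
  set β := wfW.min {y : W | ∀ i, be i < y} hne with hβ
  have hβ1 : ∀ i, be i < β := wfW.min_mem {y : W | ∀ i, be i < y} hne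
  have hβ2 : ∀ y < β, ∃ i, y ≤ be i := by
    intro y hy
    by_contra hcon
    push Not at hcon
    exact wfW.not_lt_min {y : W | ∀ i, be i < y} (x := y) hcon hy
  have hex : Nonempty Ω := by
    obtain ⟨w, -⟩ := hΩB PEmpty (by simp) (fun o => o.elim)
    exact ⟨w⟩
  have key : ∀ A : Set W, A.Countable → A ⊆ Set.Iio β → ∃ i : Ω, A ⊆ Set.Iio (be i) := by
    intro A hA hAβ
    have hi : ∀ a : A, ∃ i, (a : W) ≤ be i := fun a => hβ2 a.1 (hAβ a.2)
    choose ia hia using hi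
    obtain ⟨i, hi⟩ := hΩB A (by simpa using hA) ia
    refine ⟨i, fun a ha => ?_⟩
    have h1 := hia ⟨a, ha⟩
    have h2 := (hbe i).2 _ (hi ⟨a, ha⟩)
    exact lt_of_le_of_lt h1 (lt_of_le_of_lt (le_max_left _ _) h2)
  refine ⟨β, ?_, ?_, ?_⟩
  · obtain ⟨i⟩ := hex
    exact lt_trans (hbe i).1 (hβ1 i)
  · intro A hA hAβ
    obtain ⟨i, hi⟩ := key A hA hAβ
    exact ⟨be i, hβ1 i, hi⟩
  · intro A hA hAβ f hf
    obtain ⟨i, hi⟩ := key A hA hAβ
    have h1 : b A f < G (be i) := hG (be i) ⟨(A, f), hA, hi, hf⟩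
    obtain ⟨k, hk⟩ := hΩB PUnit (by simp) (fun _ => i)
    have h2 := (hbe k).2 i (hk PUnit.unit)
    exact lt_trans h1 (lt_trans (lt_of_le_of_lt (le_max_right _ _) h2) (hβ1 k))

/-- Facts on the well-ordered set `W = (succ θ).ord.ToType`. -/
theorem W_facts (θ : Cardinal.{0}) (hθ : ℵ₀ ≤ θ) (hpow : θ ^ ℵ₀ ≤ θ)
    (h2 : (2 : Cardinal.{0}) ^ ((2 : Cardinal.{0}) ^ ℵ₀) ≤ θ) :
    ∃ (W : Type) (_ : LinearOrder W) (_ : WellFoundedLT W),
      (∀ δ : W, #(Set.Iio δ) ≤ θ) ∧ (∀ ι : Type, #ι ≤ θ → Bdd W ι) ∧ Clo W := by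
  classical
  refine ⟨(Order.succ θ).ord.ToType, inferInstance, inferInstance, Iio_le_aux θ, bdd_aux θ hθ, ?_⟩
  have hΩ : #((Order.succ ℵ₀).ord.ToType) ≤ θ := by
    rw [mk_ord_toType]
    refine le_trans ?_ h2
    have h3 : ℵ₀ < (2 : Cardinal.{0}) ^ ℵ₀ := cantor _
    have h4 : (2 : Cardinal.{0}) ^ ℵ₀ < (2 : Cardinal.{0}) ^ ((2 : Cardinal.{0}) ^ ℵ₀) := cantor _
    exact (Order.succ_le_of_lt h3).trans h4.le
  exact clo_aux (Ω := (Order.succ ℵ₀).ord.ToType) θ hθ (bdd_aux θ hθ)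
    (fun x => card_TT θ hθ hpow h2 x (Iio_le_aux θ x)) hΩ (bdd_aux ℵ₀ le_rfl)

end Pool.Agent.Helper513.ZgT0
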