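import Pool.Agent.Helper513.ZgT0.Level
import Pool.Agent.Helper513.ZgT0.WFacts

set_option autoImplicit false

open Cardinal

namespace Pool.Agent.Helper513.ZgT0

/-- iterated power sets of `ℕ` -/
def Z2Kk : ℕ → Type
  | 0 => ℕ
  | n + 1 => Set (Z2Kk n)

/-- the cardinal `κ` -/
def Z2k : Cardinal.{0} := #(Σ n, Z2Kk n)

theorem Z2_le (n : ℕ) : #(Z2Kk n) ≤ Z2k :=
  Cardinal.mk_le_of_injective (f := fun x => (⟨n, x⟩ : Σ n, Z2Kk n)) sigma_mk_injective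

theorem Z2_aleph : ℵ₀ ≤ Z2k := by
  have h := Z2_le 0
  have h1 : #(Z2Kk 0) = ℵ₀ := Cardinal.mk_nat
  rwa [h1] at h

theorem Z2_set (n : ℕ) : #(Set (Z2Kk n)) ≤ Z2k := Z2_le (n + 1)

theorem Z2_two : (2 : Cardinal.{0}) ^ ((2 : Cardinal.{0}) ^ ℵ₀) ≤ Z2k := by
  have h := Z2_set 1
  have h1 : #(Z2Kk 1) = (2 : Cardinal.{0}) ^ ℵ₀ := by
    have : #(Set ℕ) = (2 : Cardinal.{0}) ^ ℵ₀ := by rw [Cardinal.mk_set, Cardinal.mk_nat]
    exact this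
  rwa [Cardinal.mk_set, h1] at h

theorem Z2_I (n : ℕ) : #(∀ i : Fin (n + 1), Set (Z2Kk i)) ≤ Z2k := by
  rw [Cardinal.mk_pi]
  calc Cardinal.prod (fun i : Fin (n + 1) => #(Set (Z2Kk i)))
      ≤ Cardinal.prod (fun _ : Fin (n + 1) => Z2k) := Cardinal.prod_le_prod _ _ fun i => Z2_set i
    _ = Z2k ^ (n + 1) := by
        rw [Cardinal.prod_const, ← Cardinal.power_natCast]
        simp
    _ ≤ Z2k := Cardinal.power_nat_le Z2_aleph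

theorem Z2_pow {c : Cardinal.{0}} (hc : c ≤ Z2k) :
    ((2 : Cardinal.{0}) ^ Z2k) ^ c ≤ (2 : Cardinal.{0}) ^ Z2k := by
  rw [← Cardinal.power_mul]
  apply Cardinal.power_le_power_left two_ne_zero
  calc Z2k * c ≤ Z2k * Z2k := mul_le_mul' le_rfl hc
    _ = Z2k := Cardinal.mul_eq_self Z2_aleph

theorem exists_sys : ∃ (W : Type) (_ : LinearOrder W) (_ : WellFoundedLT W) (𝔅 : Set (Pat W))
    (I : ℕ → Type), IsSys 𝔅 ∧ Hit 𝔅 I ∧ (∀ n, Bdd W (I n)) ∧ Bdd W ℕ ∧ Clo W ∧ Nonempty W := by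
  have hκθ : Z2k ≤ (2 : Cardinal.{0}) ^ Z2k := (Cardinal.cantor Z2k).le
  have hθ : ℵ₀ ≤ (2 : Cardinal.{0}) ^ Z2k := Z2_aleph.trans hκθ
  have hpow := Z2_pow Z2_aleph
  have h2 := Z2_two.trans hκθ
  obtain ⟨W, inst1, inst2, hW1, hW2, hW3⟩ := W_facts _ hθ hpow h2
  have hX : (2 : Cardinal.{0}) ^ Z2k ≤ #(∀ n, Set (Z2Kk n)) := by
    have h3 : #(Set (Σ n, Z2Kk n)) = (2 : Cardinal.{0}) ^ Z2k := Cardinal.mk_set
    rw [← h3]
    apply Cardinal.mk_le_of_injective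
      (f := fun (A : Set (Σ n, Z2Kk n)) => fun n => {k : Z2Kk n | (⟨n, k⟩ : Σ n, Z2Kk n) ∈ A})
    intro A A' h
    ext ⟨n, k⟩
    have h4 := congrFun h n
    exact Set.ext_iff.mp h4 k
  have hnode : ∀ x y : (∀ n, Set (Z2Kk n)),
      (∀ N, ∃ n, N ≤ n ∧ (fun i : Fin (n + 1) => x i) = (fun i : Fin (n + 1) => y i)) → x = y := by
    intro x y h
    funext k
    obtain ⟨n, hn, h4⟩ := h k
    exact congrFun h4 ⟨k, by omega⟩
  choose S hS1 hS2 hS3 using fun (δ : W) (ℱ : Set (Pat W)) =>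
    exists_level _ hθ hpow h2 (fun n => ∀ i : Fin (n + 1), Set (Z2Kk i)) (fun n => Z2_pow (Z2_I n))
      (∀ n, Set (Z2Kk n)) hX (fun n x i => x i) hnode δ (hW1 δ) ℱ
  have wf : WellFounded (fun a b : W => a < b) := wellFounded_lt
  set L : W → Set (Pat W) :=
    wf.fix (fun δ rec => S δ {B | ∃ δ' : W, ∃ h : δ' < δ, B ∈ rec δ' h}) with hL
  have hLe : ∀ δ, L δ = S δ {B | ∃ δ' : W, ∃ _ : δ' < δ, B ∈ L δ'} := fun δ => wf.fix_eq _ δ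
  have htop : ∀ δ, ∀ B ∈ L δ, B.top = δ := by
    intro δ B hB
    rw [hLe δ] at hB
    exact (hS1 δ _ B hB).1
  set 𝔅 : Set (Pat W) := {B | ∃ δ, B ∈ L δ} with h𝔅
  have hlow : ∀ δ, low 𝔅 δ = {B | ∃ δ' : W, ∃ _ : δ' < δ, B ∈ L δ'} := by
    intro δ
    ext B
    constructor
    · rintro ⟨⟨δ', hB⟩, hlt⟩
      rw [htop δ' B hB] at hlt
      exact ⟨δ', hlt, hB⟩
    · rintro ⟨δ', hlt, hB⟩
      refine ⟨⟨δ', hB⟩, ?_⟩
      rw [htop δ' B hB]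
      exact hlt
  have hL2 : ∀ δ, L δ = S δ (low 𝔅 δ) := fun δ => by rw [hlow δ]; exact hLe δ
  have hself : ∀ B ∈ 𝔅, B ∈ S B.top (low 𝔅 B.top) := by
    rintro B ⟨δ, hB⟩
    have h5 := htop δ B hB
    rw [h5, ← hL2 δ]
    exact hB
  refine ⟨W, inst1, inst2, 𝔅, fun n => ∀ i : Fin (n + 1), Set (Z2Kk i), ?_, ?_, ?_, ?_, hW3, ?_⟩
  · refine ⟨?_, ?_, ?_, ?_, ?_, ?_⟩
    · intro B hB
      exact (hS1 _ _ B (hself B hB)).2.1
    · intro B hB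
      exact (hS1 _ _ B (hself B hB)).2.2.1
    · intro B hB
      exact (hS1 _ _ B (hself B hB)).2.2.2.1
    · intro B hB
      exact (hS1 _ _ B (hself B hB)).2.2.2.2.1
    · intro B hB
      exact (hS1 _ _ B (hself B hB)).2.2.2.2.2
    · intro B hB B' hB' hne ht
      have h6 := hself B' hB'
      rw [← ht] at h6
      exact hS2 _ _ B (hself B hB) B' h6 hne
  · intro δ lad fam h1 h2' h3 h4 h5 h6
    obtain ⟨B, hB, hB2⟩ := hS3 δ (low 𝔅 δ) lad fam h1 h2' h3 h4 h5 h6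
    rw [← hL2 δ] at hB
    exact ⟨B, ⟨δ, hB⟩, htop δ B hB, hB2⟩
  · intro n
    exact hW2 _ ((Z2_I n).trans hκθ)
  · apply hW2
    rw [Cardinal.mk_nat]
    exact hθ
  · obtain ⟨b, -⟩ := hW2 Empty (by simp) (fun e => e.elim)
    exact ⟨b⟩

end Pool.Agent.Helper513.ZgT0
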