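import Pool.Agent.Helper513.ZgT0.Defs

set_option autoImplicit false

open MulOpposite

namespace Pool.Agent.Helper513.ZgT0

/-! ### Modules over von Neumann regular rings -/

/-- A finitely generated left ideal of a von Neumann regular ring is generated by an idempotent
that fixes it. -/
theorem exists_right_unit {S : Type} [Ring S] (hS : ∀ a : S, ∃ x : S, a * x * a = a) (k : ℕ)
    (β : Fin k → S) :
    ∃ γ : Fin k → S, ∀ j, β j * (∑ i, γ i * β i) = β j := by
  induction k with
  | zero => exact ⟨fun _ => 0, fun j => j.elim0⟩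
  | succ k ih =>
    obtain ⟨γ, hγ⟩ := ih (fun i => β i.castSucc)
    set e := ∑ i : Fin k, γ i * β i.castSucc with he
    set b := β (Fin.last k) with hb
    obtain ⟨x, hx⟩ := hS (b * (1 - e))
    refine ⟨Fin.snoc (fun i => γ i - (1 - e) * x * b * γ i) ((1 - e) * x), ?_⟩
    have hsum : (∑ i, (Fin.snoc (fun i => γ i - (1 - e) * x * b * γ i) ((1 - e) * x) :
        Fin (k + 1) → S) i * β i) = e + (1 - e) * x * (b * (1 - e)) := by
      rw [Fin.sum_univ_castSucc]
      simp only [Fin.snoc_castSucc, Fin.snoc_last]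
      have : ∑ i : Fin k, (γ i - (1 - e) * x * b * γ i) * β i.castSucc =
          e - (1 - e) * x * b * e := by
        conv_rhs => rw [he]
        rw [Finset.mul_sum, ← Finset.sum_sub_distrib]
        refine Finset.sum_congr rfl fun i _ => ?_
        rw [← he]
        simp only [sub_mul, mul_assoc]
      rw [this, ← hb]
      noncomm_ring
    rw [hsum]
    intro j
    refine Fin.lastCases ?_ (fun j => ?_) j
    · rw [← hb]
      have h1 : b * (e + (1 - e) * x * (b * (1 - e))) =
          b * e + b * (1 - e) * x * (b * (1 - e)) := by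
        noncomm_ring
      rw [h1, hx]
      noncomm_ring
    · have h1 : β j.castSucc * (e + (1 - e) * x * (b * (1 - e))) =
          β j.castSucc * e + (β j.castSucc - β j.castSucc * e) * x * (b * (1 - e)) := by
        noncomm_ring
      rw [h1, hγ j, sub_self, zero_mul, zero_mul, add_zero]

/-- Over a von Neumann regular ring every embedding is pure. -/
theorem pure_of_regular {S : Type} [Ring S] (hS : ∀ a : S, ∃ x : S, a * x * a = a)
    {A B : Type} [AddCommGroup A] [Module S A] [AddCommGroup B] [Module S B] (f : A →ₗ[S] B)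
    (hf : Function.Injective f) : IsPureEmbedding f := by
  refine ⟨hf, fun m k b c => ?_⟩
  induction m generalizing c with
  | zero =>
    rintro ⟨w, hw⟩
    refine ⟨fun i => i.elim0, fun j => ?_⟩
    have := hw j
    rw [Finset.univ_eq_empty, Finset.sum_empty] at this ⊢
    exact hf (by rw [map_zero]; exact this)
  | succ m ih =>
    obtain ⟨γ, hγ⟩ := exists_right_unit hS k (fun j => b (Fin.last m) j)
    -- the reduced system
    have key : ∀ (M : Type) [AddCommGroup M] [Module S M] (w : Fin m → M) (c : Fin k → M)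
        (l : Fin k),
        ∑ i, (b i.castSucc l - b (Fin.last m) l * ∑ j, γ j * b i.castSucc j) • w i =
          (∑ i : Fin m, b i.castSucc l • w i) -
            b (Fin.last m) l • ∑ j, γ j • ∑ i : Fin m, b i.castSucc j • w i := by
      intro M _ _ w c l
      simp only [sub_smul, Finset.sum_sub_distrib, mul_smul, Finset.sum_smul, Finset.smul_sum]
      congr 1
      exact Finset.sum_comm
    rintro ⟨w, hw⟩
    obtain ⟨w', hw'⟩ := ih (fun i l => b i.castSucc l - b (Fin.last m) l * ∑ j, γ j * b i.castSucc j)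
      (fun l => c l - b (Fin.last m) l • ∑ j, γ j • c j) ⟨fun i => w i.castSucc, fun l => by
        rw [key B (fun i => w i.castSucc) (fun j => f (c j))]
        have h1 : ∀ j, ∑ i : Fin m, b i.castSucc j • w i.castSucc =
            f (c j) - b (Fin.last m) j • w (Fin.last m) := by
          intro j
          rw [← hw j, Fin.sum_univ_castSucc, add_sub_cancel_right]
        simp only [h1]
        have h2 : b (Fin.last m) l • ∑ j, γ j • b (Fin.last m) j • w (Fin.last m) =
            b (Fin.last m) l • w (Fin.last m) := by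
          have : ∑ j, γ j • b (Fin.last m) j • w (Fin.last m) =
              (∑ j, γ j * b (Fin.last m) j) • w (Fin.last m) := by
            rw [Finset.sum_smul]
            simp only [mul_smul]
          rw [this, ← mul_smul, hγ l]
        simp only [smul_sub, Finset.sum_sub_distrib]
        rw [h2, map_sub, map_smul, map_sum]
        simp only [map_smul]
        abel⟩
    refine ⟨Fin.snoc w' (∑ j, γ j • (c j - ∑ i : Fin m, b i.castSucc j • w' i)), fun l => ?_⟩
    rw [Fin.sum_univ_castSucc]
    simp only [Fin.snoc_castSucc, Fin.snoc_last]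
    have h3 := hw' l
    rw [key A w' c] at h3
    simp only [smul_sub, Finset.sum_sub_distrib] at h3 ⊢
    have h4 : ∑ i : Fin m, b i.castSucc l • w' i = c l - b (Fin.last m) l • ∑ j, γ j • c j +
        b (Fin.last m) l • ∑ j, γ j • ∑ i : Fin m, b i.castSucc j • w' i := by
      rw [← h3]; abel
    rw [h4]
    abel


/-- Every module embeds in an injective one. -/
theorem exists_injective (S : Type) [Ring S] (T : Type) [AddCommGroup T] [Module S T] :
    ∃ (Q : Type) (_ : AddCommGroup Q) (_ : Module S Q) (_ : Module.Injective S Q)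
      (j : T →ₗ[S] Q), Function.Injective j := by
  have : CategoryTheory.EnoughInjectives (ModuleCat.{0} S) := ModuleCat.enoughInjectives.{0} S
  let J := CategoryTheory.Injective.under (ModuleCat.of S T)
  let ι := CategoryTheory.Injective.ι (ModuleCat.of S T)
  have hJ : CategoryTheory.Injective (ModuleCat.of S J) :=
    inferInstanceAs (CategoryTheory.Injective J)
  exact ⟨J, inferInstance, inferInstance, Module.injective_module_of_injective_object S J,
    ι.hom, (ModuleCat.mono_iff_injective ι).1 inferInstance⟩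

/-- In an injective module every submodule is essential in a direct summand. -/
theorem exists_summand {S : Type} [Ring S] {Q : Type} [AddCommGroup Q] [Module S Q]
    (hQ : Module.Injective S Q) (T : Submodule S Q) :
    ∃ E B : Submodule S Q, T ≤ E ∧ IsCompl E B ∧ ∀ C ≤ E, Disjoint C T → C = ⊥ := by
  obtain ⟨B, -, hB⟩ := zorn_le_nonempty₀ {B : Submodule S Q | Disjoint B T} (by
    intro c hc hchain M0 hM0
    refine ⟨sSup c, ?_, fun z hz => le_sSup hz⟩
    rw [Set.mem_ofPred_eq, Submodule.disjoint_def]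
    intro x hx hxE
    rw [Submodule.mem_sSup_of_directed ⟨M0, hM0⟩ hchain.directedOn] at hx
    obtain ⟨M', hM', hxM'⟩ := hx
    exact Submodule.disjoint_def.1 (hc hM') x hxM' hxE) ⊥ disjoint_bot_left
  have hBT : Disjoint B T := hB.prop
  obtain ⟨E, hTE, hE⟩ := zorn_le_nonempty₀ {E : Submodule S Q | T ≤ E ∧ Disjoint E B} (by
    intro c hc hchain E0 hE0
    refine ⟨sSup c, ⟨(hc hE0).1.trans (le_sSup hE0), ?_⟩, fun z hz => le_sSup hz⟩
    rw [Submodule.disjoint_def]
    intro x hx hxB
    rw [Submodule.mem_sSup_of_directed ⟨E0, hE0⟩ hchain.directedOn] at hx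
    obtain ⟨E', hE', hxE'⟩ := hx
    exact Submodule.disjoint_def.1 (hc hE').2 x hxE' hxB) T ⟨le_rfl, hBT.symm⟩
  have hEB : Disjoint E B := hE.prop.2
  -- elements outside B
  have hout : ∀ q : Q, q ∉ B → ∃ s : S, ∃ b ∈ B, s • q + b ∈ T ∧ s • q + b ≠ 0 := by
    intro q hq
    by_contra hcon
    push Not at hcon
    have hd : Disjoint (Submodule.span S {q} ⊔ B) T := by
      rw [Submodule.disjoint_def]
      intro x hx hxE
      obtain ⟨y, hy, m, hm, rfl⟩ := Submodule.mem_sup.1 hx
      obtain ⟨s, rfl⟩ := Submodule.mem_span_singleton.1 hy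
      exact hcon s m hm hxE
    have := hB.le_of_ge hd le_sup_right
    exact hq (this (le_sup_left (α := Submodule S Q) (Submodule.mem_span_singleton_self q)))
  -- extend the inclusion of E along E → Q/B
  have hinj : Function.Injective (B.mkQ ∘ₗ E.subtype) := by
    rw [← LinearMap.ker_eq_bot, LinearMap.ker_eq_bot']
    intro x hx
    have : (x : Q) ∈ B := by simpa using hx
    exact Subtype.ext (Submodule.disjoint_def.1 hEB _ x.2 this)
  obtain ⟨g, hg⟩ := hQ.out (B.mkQ ∘ₗ E.subtype) hinj E.subtype
  have hgE : ∀ x ∈ E, g (B.mkQ x) = x := fun x hx => by simpa using hg ⟨x, hx⟩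
  have hgB : ∀ x ∈ B, g (B.mkQ x) = 0 := fun x hx => by
    have : B.mkQ x = 0 := by simpa using hx
    rw [this, map_zero]
  have hrange : ∀ q, g (B.mkQ q) ∈ E := by
    have hmem : LinearMap.range (g ∘ₗ B.mkQ) ∈ {E : Submodule S Q | T ≤ E ∧ Disjoint E B} := by
      refine ⟨fun t ht => ⟨t, hgE t (hTE ht)⟩, ?_⟩
      rw [Submodule.disjoint_def]
      rintro _ ⟨q, rfl⟩ hz
      by_contra hne
      have hqB : q ∉ B := fun h => hne (hgB q h)
      obtain ⟨s, b, hb, h1, h2⟩ := hout q hqB
      have h3 := hgE _ (hTE h1)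
      rw [map_add, map_smul, map_add, map_smul, hgB b hb, add_zero] at h3
      have h4 : s • q + b ∈ B := by
        rw [← h3]
        exact B.smul_mem s hz
      exact h2 (Submodule.disjoint_def.1 hBT _ h4 h1)
    have hle : E ≤ LinearMap.range (g ∘ₗ B.mkQ) := fun x hx => ⟨x, hgE x hx⟩
    intro q
    exact hE.le_of_ge hmem hle ⟨q, rfl⟩
  have hker : ∀ q, g (B.mkQ q) = 0 → q ∈ B := by
    intro q hq0
    by_contra hqB
    obtain ⟨s, b, hb, h1, h2⟩ := hout q hqB
    have h3 := hgE _ (hTE h1)
    rw [map_add, map_smul, map_add, map_smul, hgB b hb, add_zero, hq0, smul_zero] at h3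
    exact h2 h3.symm
  refine ⟨E, B, hTE, ⟨hEB, ?_⟩, ?_⟩
  · rw [codisjoint_iff, eq_top_iff]
    intro q _
    rw [Submodule.mem_sup]
    refine ⟨_, hrange q, q - g (B.mkQ q), hker _ ?_, add_sub_cancel _ _⟩
    rw [map_sub, map_sub, hgE _ (hrange q), sub_self]
  · intro C hCE hCT
    have hd : Disjoint (C ⊔ B) T := by
      rw [Submodule.disjoint_def]
      intro x hx hxT
      obtain ⟨c, hc, b, hb, rfl⟩ := Submodule.mem_sup.1 hx
      have hbE : b ∈ E := by
        have := E.sub_mem (hTE hxT) (hCE hc)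
        rwa [add_sub_cancel_left] at this
      have hb0 : b = 0 := Submodule.disjoint_def.1 hEB b hbE hb
      rw [hb0, add_zero] at hxT ⊢
      exact Submodule.disjoint_def.1 hCT c hc hxT
    have h1 := hB.le_of_ge hd le_sup_right
    rw [eq_bot_iff]
    intro c hc
    exact Submodule.disjoint_def.1 hEB c (hCE hc) (h1 (le_sup_left (α := Submodule S Q) hc))

/-- An indecomposable injective module is uniform. -/
theorem uniform_of_injective {S : Type} [Ring S] {N : Type} [AddCommGroup N] [Module S N]
    (hN : Module.Injective S N) (hi : IsIndecomposable S N) (x y : N) (hx : x ≠ 0) (hy : y ≠ 0) :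
    ∃ a b : S, a • x = b • y ∧ a • x ≠ 0 := by
  obtain ⟨E, B, hTE, hEB, hess⟩ := exists_summand hN (Submodule.span S {x})
  have hxE : x ∈ E := hTE (Submodule.mem_span_singleton_self x)
  rcases hi.2 E B hEB with h | h
  · rw [h] at hxE
    exact absurd ((Submodule.mem_bot S).1 hxE) hx
  · have hE : E = ⊤ := by
      have := hEB.codisjoint
      rw [h, codisjoint_iff, sup_bot_eq] at this
      exact this
    by_contra hcon
    push Not at hcon
    have h1 := hess (Submodule.span S {y}) (by rw [hE]; exact le_top) (by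
      rw [Submodule.disjoint_def]
      intro z hz hz'
      obtain ⟨b, rfl⟩ := Submodule.mem_span_singleton.1 hz
      obtain ⟨a, ha⟩ := Submodule.mem_span_singleton.1 hz'
      rw [← ha]
      exact hcon a b ha)
    exact hy (Submodule.span_singleton_eq_bot.1 h1)

/-- Indecomposable injective modules are determined by the annihilator of a nonzero element. -/
theorem iso_of_ann {S : Type} [Ring S] {N N' : Type} [AddCommGroup N] [Module S N]
    [AddCommGroup N'] [Module S N'] (hN : Module.Injective S N) (hN' : Module.Injective S N')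
    (hi : IsIndecomposable S N) (hi' : IsIndecomposable S N') (x : N) (x' : N') (hx : x ≠ 0)
    (h : ∀ s : S, s • x = 0 ↔ s • x' = 0) : Nonempty (N ≃ₗ[S] N') := by
  let f0 : S →ₗ[S] N := LinearMap.toSpanSingleton S N x
  let g0 : S →ₗ[S] N' := LinearMap.toSpanSingleton S N' x'
  have hf0 : ∀ s, f0 s = s • x := fun s => rfl
  have hg0 : ∀ s, g0 s = s • x' := fun s => rfl
  have hle : LinearMap.ker f0 ≤ LinearMap.ker g0 := fun s hs => (h s).1 hs
  let f : (S ⧸ LinearMap.ker f0) →ₗ[S] N := (LinearMap.ker f0).liftQ f0 le_rfl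
  let g : (S ⧸ LinearMap.ker f0) →ₗ[S] N' := (LinearMap.ker f0).liftQ g0 hle
  have hf : Function.Injective f := by
    rw [← LinearMap.ker_eq_bot]
    exact Submodule.ker_liftQ_eq_bot _ _ _ le_rfl
  obtain ⟨u, hu⟩ := hN'.out f hf g
  have hux : ∀ s : S, u (s • x) = s • x' := by
    intro s
    have := hu (Submodule.Quotient.mk s)
    exact this
  have huinj : Function.Injective u := by
    rw [← LinearMap.ker_eq_bot, LinearMap.ker_eq_bot']
    intro y hy
    by_contra hy0
    obtain ⟨a, b, hab, hne⟩ := uniform_of_injective hN hi x y hx hy0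
    have h1 := hux a
    rw [hab, map_smul, hy, smul_zero] at h1
    exact hne ((h a).2 h1.symm)
  obtain ⟨r, hr⟩ := hN.out u huinj LinearMap.id
  have hcompl : IsCompl (LinearMap.range u) (LinearMap.ker r) := by
    constructor
    · rw [Submodule.disjoint_def]
      rintro _ ⟨y, rfl⟩ hy
      have h1 : r (u y) = 0 := hy
      rw [hr y] at h1
      have : y = 0 := h1
      rw [this, map_zero]
    · rw [codisjoint_iff, eq_top_iff]
      intro z _
      rw [Submodule.mem_sup]
      refine ⟨u (r z), ⟨_, rfl⟩, z - u (r z), ?_, add_sub_cancel _ _⟩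
      rw [LinearMap.mem_ker, map_sub, hr (r z)]
      exact sub_self _
  rcases hi'.2 _ _ hcompl with h1 | h1
  · exfalso
    have : u x ∈ LinearMap.range u := ⟨x, rfl⟩
    rw [h1, Submodule.mem_bot] at this
    exact hx (huinj (by rw [this, map_zero]))
  · refine ⟨LinearEquiv.ofBijective u ⟨huinj, fun z => ?_⟩⟩
    have h2 := hcompl.codisjoint
    rw [h1, codisjoint_iff, sup_bot_eq] at h2
    have : z ∈ LinearMap.range u := by rw [h2]; trivial
    exact this

/-- A uniform cyclic module `S/I` is contained in an indecomposable injective module. -/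
theorem exists_hull {S : Type} [Ring S] (I : Submodule S S) (hI : (1 : S) ∉ I)
    (hun : ∀ a b : S, a ∉ I → b ∉ I → ∃ s t : S, s * a - t * b ∈ I ∧ s * a ∉ I) :
    ∃ (N : IndecPureInj S), Module.Injective S N.carrier ∧ ∃ x : N.carrier,
      ∀ s : S, s • x = 0 ↔ s ∈ I := by
  obtain ⟨Q, _, _, hQ, j, hj⟩ := exists_injective S (S ⧸ I)
  obtain ⟨E, B, hTE, hEB, hess⟩ := exists_summand hQ (LinearMap.range j)
  let ρ : Q →ₗ[S] E := Submodule.projectionOnto E B hEB
  have hρ : ∀ x : E, ρ x = x := fun x => Submodule.projectionOnto_apply_left hEB x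
  have hE : Module.Injective S E := ⟨fun X Y _ _ _ _ f hf h => by
    obtain ⟨h', hh'⟩ := hQ.out f hf (E.subtype ∘ₗ h)
    refine ⟨ρ ∘ₗ h', fun x => ?_⟩
    rw [LinearMap.comp_apply, hh']
    exact hρ (h x)⟩
  set t0 : S ⧸ I := Submodule.Quotient.mk 1 with ht0
  have hmk : ∀ s : S, s • t0 = Submodule.Quotient.mk s := by
    intro s
    rw [ht0, ← Submodule.Quotient.mk_smul, smul_eq_mul, mul_one]
  have hs0 : ∀ s : S, j (s • t0) = 0 ↔ s ∈ I := by
    intro s
    rw [hmk]
    constructor
    · intro h
      exact (Submodule.Quotient.mk_eq_zero I).1 (hj (by rw [h, map_zero]))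
    · intro h
      rw [(Submodule.Quotient.mk_eq_zero I).2 h, map_zero]
  let x0 : E := ⟨j t0, hTE ⟨t0, rfl⟩⟩
  have hx0 : ∀ s : S, s • x0 = 0 ↔ s ∈ I := by
    intro s
    rw [← hs0 s, map_smul]
    constructor
    · intro h
      exact congrArg Subtype.val h
    · intro h
      exact Subtype.ext h
  -- every nonzero element of E has a nonzero multiple in the image
  have hmul : ∀ y : E, y ≠ 0 → ∃ s a : S, s • y = a • x0 ∧ a ∉ I := by
    intro y hy
    by_contra hcon
    push Not at hcon
    have h1 := hess (Submodule.span S {(y : Q)})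
      ((Submodule.span_singleton_le_iff_mem _ _).2 y.2) (by
        rw [Submodule.disjoint_def]
        intro z hz hz'
        obtain ⟨s, rfl⟩ := Submodule.mem_span_singleton.1 hz
        obtain ⟨t, ht⟩ := hz'
        obtain ⟨a, rfl⟩ := Submodule.Quotient.mk_surjective I t
        rw [← hmk] at ht
        rw [← ht, hs0]
        exact hcon s a (Subtype.ext (by rw [Submodule.coe_smul, ← ht, map_smul]; rfl)))
    exact hy (Subtype.ext (Submodule.span_singleton_eq_bot.1 h1))
  refine ⟨⟨E, ?_, ?_⟩, hE, x0, hx0⟩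
  · intro A B _ _ _ _ f hf g
    exact hE.out f hf.1 g
  · refine ⟨⟨x0, 0, fun h => hI ((hx0 1).1 (by rw [h, smul_zero]))⟩, fun A B' hAB => ?_⟩
    by_contra hcon
    rw [not_or] at hcon
    obtain ⟨x, hx, hxne⟩ := Submodule.exists_mem_ne_zero_of_ne_bot hcon.1
    obtain ⟨y, hy, hyne⟩ := Submodule.exists_mem_ne_zero_of_ne_bot hcon.2
    obtain ⟨s, a, hsa, ha⟩ := hmul x hxne
    obtain ⟨t, b, htb, hb⟩ := hmul y hyne
    obtain ⟨p, q, hpq, hp⟩ := hun a b ha hb
    have h1 : (p * a) • x0 = (q * b) • x0 := by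
      rw [← sub_eq_zero, ← sub_smul, hx0]
      exact hpq
    have h2 : (p * a) • x0 ∈ A := by
      rw [mul_smul, ← hsa]
      exact A.smul_mem _ (A.smul_mem _ hx)
    have h3 : (p * a) • x0 ∈ B' := by
      rw [h1, mul_smul, ← htb]
      exact B'.smul_mem _ (B'.smul_mem _ hy)
    exact hp ((hx0 _).1 (Submodule.disjoint_def.1 hAB.disjoint _ h2 h3))

/-- Over a von Neumann regular ring pure-injective modules are injective. -/
theorem injective_of_pinj {S : Type} [Ring S] (hS : ∀ a : S, ∃ x : S, a * x * a = a)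
    {N : Type} [AddCommGroup N] [Module S N] (hN : IsPureInjective S N) :
    Module.Injective S N :=
  ⟨fun X Y _ _ _ _ f hf g => hN X Y f (pure_of_regular hS f hf) g⟩


/-! ### Quantifier elimination -/

/-- Over a von Neumann regular ring the quantified variables of a pp condition can be removed. -/
theorem qe_aux {S : Type} [Ring S] (hS : ∀ a : S, ∃ x : S, a * x * a = a) (n k m : ℕ) :
    ∀ (a : Fin n → Fin k → S) (b : Fin m → Fin k → S),
    ∃ c : Fin n → Fin k → S, ∀ (M : Type) [AddCommGroup M] [Module S M] (x : Fin n → M),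
      (∃ y : Fin m → M, ∀ j, ∑ i, a i j • x i + ∑ i, b i j • y i = 0) ↔
        ∀ j, ∑ i, c i j • x i = 0 := by
  induction m with
  | zero =>
    intro a b
    refine ⟨a, fun M _ _ x => ⟨?_, ?_⟩⟩
    · rintro ⟨y, hy⟩ j
      have := hy j
      rwa [Finset.univ_eq_empty (α := Fin 0), Finset.sum_empty, add_zero] at this
    · intro h
      refine ⟨fun i => i.elim0, fun j => ?_⟩
      rw [Finset.univ_eq_empty (α := Fin 0), Finset.sum_empty, add_zero]
      exact h j
  | succ m ih =>
    intro a b
    obtain ⟨γ, hγ⟩ := exists_right_unit hS k (fun j => b (Fin.last m) j)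
    obtain ⟨c, hc⟩ := ih (fun i l => a i l - b (Fin.last m) l * ∑ j, γ j * a i j)
      (fun i l => b i.castSucc l - b (Fin.last m) l * ∑ j, γ j * b i.castSucc j)
    refine ⟨c, fun M _ _ x => ?_⟩
    rw [← hc M x]
    have key : ∀ (p : ℕ) (u : Fin p → Fin k → S) (w : Fin p → M) (l : Fin k),
        ∑ i, (u i l - b (Fin.last m) l * ∑ j, γ j * u i j) • w i =
          (∑ i, u i l • w i) -
            b (Fin.last m) l • ∑ j, γ j • ∑ i, u i j • w i := by
      intro p u w l
      simp only [sub_smul, Finset.sum_sub_distrib, mul_smul, Finset.sum_smul, Finset.smul_sum]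
      congr 1
      exact Finset.sum_comm
    have hβ : ∀ (z : M) (l : Fin k), b (Fin.last m) l • ∑ j, γ j • b (Fin.last m) j • z =
        b (Fin.last m) l • z := by
      intro z l
      have : ∑ j, γ j • b (Fin.last m) j • z = (∑ j, γ j * b (Fin.last m) j) • z := by
        rw [Finset.sum_smul]
        simp only [mul_smul]
      rw [this, ← mul_smul, hγ l]
    constructor
    · rintro ⟨y, hy⟩
      refine ⟨fun i => y i.castSucc, fun l => ?_⟩
      have h1 : ∀ j, ∑ i, a i j • x i + ∑ i : Fin m, b i.castSucc j • y i.castSucc =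
          - (b (Fin.last m) j • y (Fin.last m)) := by
        intro j
        have := hy j
        rw [Fin.sum_univ_castSucc, ← add_assoc] at this
        exact eq_neg_of_add_eq_zero_left this
      have h2 : ∑ i, (a i l - b (Fin.last m) l * ∑ j, γ j * a i j) • x i +
          ∑ i : Fin m, (b i.castSucc l - b (Fin.last m) l * ∑ j, γ j * b i.castSucc j) •
            y i.castSucc =
          (∑ i, a i l • x i + ∑ i : Fin m, b i.castSucc l • y i.castSucc) -
            b (Fin.last m) l • ∑ j, γ j •
              (∑ i, a i j • x i + ∑ i : Fin m, b i.castSucc j • y i.castSucc) := by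
        rw [key n a x l, key m (fun i => b i.castSucc) (fun i => y i.castSucc) l]
        simp only [smul_add, Finset.sum_add_distrib]
        abel
      rw [h2]
      simp only [h1]
      simp only [smul_neg, Finset.sum_neg_distrib]
      rw [hβ]
      abel
    · rintro ⟨y, hy⟩
      refine ⟨Fin.snoc y (- ∑ j, γ j •
        (∑ i, a i j • x i + ∑ i : Fin m, b i.castSucc j • y i)), fun l => ?_⟩
      rw [Fin.sum_univ_castSucc]
      simp only [Fin.snoc_castSucc, Fin.snoc_last]
      have h3 := hy l
      rw [key n a x l, key m (fun i => b i.castSucc) y l] at h3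
      simp only [smul_add, Finset.sum_add_distrib, smul_neg] at h3 ⊢
      rw [← h3]
      abel

/-- Quantifier elimination for pp conditions over a von Neumann regular ring. -/
theorem qe {S : Type} [Ring S] (hS : ∀ a : S, ∃ x : S, a * x * a = a) {n : ℕ}
    (φ : PPFormula S n) : ∃ c : Fin n → Fin φ.k → S, ∀ (M : Type) [AddCommGroup M] [Module S M],
      φ.sol M = {x | ∀ j, ∑ i, c i j • x i = 0} := by
  obtain ⟨c, hc⟩ := qe_aux hS n φ.k φ.m φ.a φ.b
  refine ⟨c, fun M _ _ => ?_⟩
  ext x
  exact hc M x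

/-- Over a von Neumann regular ring a solution in some module of a system of linear equations and
one inequation gives one in the ring itself. -/
theorem exists_vec {S : Type} [Ring S] (hS : ∀ a : S, ∃ x : S, a * x * a = a) (k : ℕ)
    (M : Type) [AddCommGroup M] [Module S M] (n : ℕ) :
    ∀ (c : Fin n → Fin k → S) (d : Fin n → S) (x : Fin n → M),
      (∀ j, ∑ i, c i j • x i = 0) → ∑ i, d i • x i ≠ 0 →
      ∃ s : Fin n → S, (∀ j, ∑ i, c i j * s i = 0) ∧ ∑ i, d i * s i ≠ 0 := by
  induction n with
  | zero =>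
    intro c d x _ hd
    rw [Finset.univ_eq_empty (α := Fin 0), Finset.sum_empty] at hd
    exact absurd rfl hd
  | succ n ih =>
    intro c d x hx hd
    obtain ⟨γ, hγ⟩ := exists_right_unit hS k (fun j => c (Fin.last n) j)
    have hx' : ∀ j, ∑ i : Fin n, c i.castSucc j • x i.castSucc =
        - (c (Fin.last n) j • x (Fin.last n)) := by
      intro j
      have := hx j
      rw [Fin.sum_univ_castSucc] at this
      exact eq_neg_of_add_eq_zero_left this
    by_cases h0 : d (Fin.last n) * (1 - ∑ i, γ i * c (Fin.last n) i) = 0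
    · -- use the induction hypothesis
      have key : ∀ (u : Fin n → S) (v : S) ,
          ∑ i : Fin n, (u i - v * ∑ j, γ j * c i.castSucc j) • x i.castSucc =
            (∑ i : Fin n, u i • x i.castSucc) + v • (∑ j, γ j * c (Fin.last n) j) •
              x (Fin.last n) := by
        intro u v
        have h1 : (∑ j, γ j * c (Fin.last n) j) • x (Fin.last n) =
            - ∑ j, γ j • ∑ i : Fin n, c i.castSucc j • x i.castSucc := by
          simp only [hx', smul_neg, Finset.sum_neg_distrib, neg_neg, Finset.sum_smul, mul_smul]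
        rw [h1]
        simp only [sub_smul, Finset.sum_sub_distrib, mul_smul, Finset.sum_smul, Finset.smul_sum,
          smul_neg]
        rw [sub_eq_add_neg]
        congr 2
        exact Finset.sum_comm
      obtain ⟨s, hs1, hs2⟩ := ih
        (fun i l => c i.castSucc l - c (Fin.last n) l * ∑ j, γ j * c i.castSucc j)
        (fun i => d i.castSucc - d (Fin.last n) * ∑ j, γ j * c i.castSucc j)
        (fun i => x i.castSucc) (fun l => by
          rw [key (fun i => c i.castSucc l) (c (Fin.last n) l), ← mul_smul, hγ l, hx' l]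
          exact neg_add_cancel _) (by
          rw [key (fun i => d i.castSucc) (d (Fin.last n)), ← mul_smul]
          have h2 : d (Fin.last n) * (∑ i, γ i * c (Fin.last n) i) = d (Fin.last n) := by
            rw [mul_sub, mul_one, sub_eq_zero] at h0
            exact h0.symm
          rw [h2, ← Fin.sum_univ_castSucc (fun i => d i • x i)]
          exact hd)
      have key2 : ∀ (u : Fin n → S) (v : S),
          ∑ i : Fin n, (u i - v * ∑ j, γ j * c i.castSucc j) * s i =
            (∑ i : Fin n, u i * s i) - v * ∑ j, γ j * ∑ i : Fin n, c i.castSucc j * s i := by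
        intro u v
        simp only [sub_mul, Finset.sum_sub_distrib, mul_assoc, Finset.sum_mul, Finset.mul_sum]
        congr 1
        exact Finset.sum_comm
      refine ⟨Fin.snoc s (- ∑ j, γ j * ∑ i : Fin n, c i.castSucc j * s i), fun l => ?_, ?_⟩
      · rw [Fin.sum_univ_castSucc]
        simp only [Fin.snoc_castSucc, Fin.snoc_last]
        have := hs1 l
        rw [key2 (fun i => c i.castSucc l)] at this
        rw [mul_neg, ← sub_eq_add_neg]
        exact this
      · rw [Fin.sum_univ_castSucc]
        simp only [Fin.snoc_castSucc, Fin.snoc_last]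
        rw [key2 (fun i => d i.castSucc)] at hs2
        rw [mul_neg, ← sub_eq_add_neg]
        exact hs2
    · refine ⟨Fin.snoc (fun _ => 0) (1 - ∑ i, γ i * c (Fin.last n) i), fun l => ?_, ?_⟩
      · rw [Fin.sum_univ_castSucc]
        simp only [Fin.snoc_castSucc, Fin.snoc_last, mul_zero, Finset.sum_const_zero, zero_add]
        rw [mul_sub, mul_one, hγ l, sub_self]
      · rw [Fin.sum_univ_castSucc]
        simp only [Fin.snoc_castSucc, Fin.snoc_last, mul_zero, Finset.sum_const_zero, zero_add]
        exact h0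

/-- The class of a faithful module lies in every nonempty basic open set. -/
theorem mem_basic_of_faithful {S : Type} [Ring S] (hS : ∀ a : S, ∃ x : S, a * x * a = a)
    (N0 : IndecPureInj S) (hf : ∀ a : S, a ≠ 0 → ∃ w : N0.carrier, a • w ≠ 0) {n : ℕ}
    (φ ψ : PPFormula S n) (y : LeftZg S) (hy : y ∈ basic φ ψ) : cls N0 ∈ basic φ ψ := by
  obtain ⟨N, -, hN⟩ := hy
  rw [Set.not_subset] at hN
  obtain ⟨x, hx1, hx2⟩ := hN
  obtain ⟨c, hc⟩ := qe hS φ
  obtain ⟨d, hd⟩ := qe hS ψ
  rw [hc] at hx1
  rw [hd] at hx2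
  have hx2' : ¬ ∀ j, ∑ i, d i j • x i = 0 := hx2
  push Not at hx2'
  obtain ⟨j, hj⟩ := hx2'
  obtain ⟨s, hs1, hs2⟩ := exists_vec hS φ.k N.carrier n c (fun i => d i j) x hx1 hj
  obtain ⟨w, hw⟩ := hf _ hs2
  refine ⟨N0, rfl, ?_⟩
  rw [Set.not_subset]
  refine ⟨fun i => s i • w, ?_, ?_⟩
  · rw [hc]
    intro l
    have := congrArg (fun t => t • w) (hs1 l)
    simp only [Finset.sum_smul, mul_smul, zero_smul] at this
    exact this
  · rw [hd]
    intro h
    have := h j
    simp only [Finset.sum_smul, mul_smul] at hw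
    exact hw this

/-- The class of a faithful module lies in every nonempty open set. -/
theorem mem_open_of_faithful {S : Type} [Ring S] (hS : ∀ a : S, ∃ x : S, a * x * a = a)
    (N0 : IndecPureInj S) (hf : ∀ a : S, a ≠ 0 → ∃ w : N0.carrier, a • w ≠ 0)
    (U : Set (LeftZg S)) (hU : IsOpen U) (y : LeftZg S) (hy : y ∈ U) : cls N0 ∈ U := by
  have hU' : TopologicalSpace.GenerateOpen
    {U | ∃ (n : ℕ) (φ ψ : PPFormula S n), U = basic φ ψ} U := hU
  clear hU
  induction hU' with
  | basic s hs =>
    obtain ⟨n, φ, ψ, rfl⟩ := hs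
    exact mem_basic_of_faithful hS N0 hf φ ψ y hy
  | univ => trivial
  | inter s t _ _ ihs iht => exact ⟨ihs hy.1, iht hy.2⟩
  | sUnion K _ ih =>
    obtain ⟨t, ht, hyt⟩ := hy
    exact ⟨t, ht, ih t ht hyt⟩

/-- The pp condition `x = x`. -/
def ppTop (S : Type) [Ring S] : PPFormula S 1 := ⟨0, 0, fun _ j => j.elim0, fun i _ => i.elim0⟩

/-- The pp condition `r x = 0`. -/
def ppAnn {S : Type} [Ring S] (r : S) : PPFormula S 1 := ⟨0, 1, fun _ _ => r, fun i _ => i.elim0⟩

theorem basic_ann {S : Type} [Ring S] (r : S) (N : IndecPureInj S) :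
    ¬ (ppTop S).sol N.carrier ⊆ (ppAnn r).sol N.carrier ↔ ∃ x : N.carrier, r • x ≠ 0 := by
  constructor
  · intro h
    by_contra hcon
    push Not at hcon
    apply h
    intro x _
    refine ⟨fun i => i.elim0, fun j => ?_⟩
    have h1 : ∑ i : Fin 1, (ppAnn r).a i j • x i = r • x 0 := by
      rw [Fin.sum_univ_one]
      rfl
    rw [h1, hcon (x 0), zero_add]
    exact Finset.sum_eq_zero fun i _ => i.elim0
  · rintro ⟨x, hx⟩ h
    have h1 : (fun _ => x : Fin 1 → N.carrier) ∈ (ppTop S).sol N.carrier :=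
      ⟨fun i => i.elim0, fun j => j.elim0⟩
    obtain ⟨y, hy⟩ := h h1
    have h2 := hy (0 : Fin 1)
    have h3 : ∑ i : Fin 1, (ppAnn r).a i (0 : Fin 1) • (fun _ => x : Fin 1 → N.carrier) i =
        r • x := by
      rw [Fin.sum_univ_one]
      rfl
    have h4 : ∑ i, (ppAnn r).b i (0 : Fin 1) • y i = 0 :=
      Finset.sum_eq_zero fun i _ => i.elim0
    rw [h3, h4, add_zero] at h2
    exact hx h2

/-- Membership in `(x = x / r x = 0)`. -/
theorem cls_mem_basic_ann {S : Type} [Ring S] (r : S) (N : IndecPureInj S) :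
    cls N ∈ basic (ppTop S) (ppAnn r) ↔ ∃ x : N.carrier, r • x ≠ 0 := by
  constructor
  · rintro ⟨N', h1, h2⟩
    rw [basic_ann] at h2
    obtain ⟨x, hx⟩ := h2
    obtain ⟨e⟩ : Nonempty (N.carrier ≃ₗ[S] N'.carrier) := Quotient.exact h1
    refine ⟨e.symm x, fun h => hx ?_⟩
    have := congrArg e h
    rwa [map_smul, LinearEquiv.apply_symm_apply, map_zero] at this
  · intro h
    exact ⟨N, rfl, (basic_ann r N).2 h⟩

/-- Over a von Neumann regular ring no nonzero element kills all simple modules. -/
theorem basic_ann_nonempty {S : Type} [Ring S] (hS : ∀ a : S, ∃ x : S, a * x * a = a) (r : S)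
    (hr : r ≠ 0) : ∃ N : IndecPureInj S, ∃ x : N.carrier, r • x ≠ 0 := by
  obtain ⟨y, hy⟩ := hS r
  have he : (y * r) * (y * r) = y * r := by
    rw [mul_assoc y r, ← mul_assoc r, hy]
  have hlt : Submodule.span S {1 - y * r} ≠ (⊤ : Submodule S S) := by
    intro h
    have h1 : (1 : S) ∈ Submodule.span S {1 - y * r} := by rw [h]; trivial
    obtain ⟨a, ha⟩ := Submodule.mem_span_singleton.1 h1
    have h2 : (a • (1 - y * r)) * (y * r) = 0 := by
      rw [smul_eq_mul, mul_assoc, sub_mul, one_mul, he, sub_self, mul_zero]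
    rw [ha, one_mul] at h2
    apply hr
    rw [← hy, mul_assoc, h2, mul_zero]
  obtain ⟨I, hI, hle⟩ := (eq_top_or_exists_le_coatom (Submodule.span S {1 - y * r})).resolve_left
    hlt
  have h1I : (1 : S) ∉ I := by
    intro h
    apply hI.1
    rw [eq_top_iff]
    intro s _
    have := I.smul_mem s h
    rwa [smul_eq_mul, mul_one] at this
  have hinv : ∀ a : S, a ∉ I → ∃ s : S, s * a - 1 ∈ I := by
    intro a ha
    have h2 : I ⊔ Submodule.span S {a} = ⊤ := by
      apply hI.2
      refine lt_of_le_of_ne le_sup_left fun h => ha ?_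
      rw [h]
      exact (le_sup_right (α := Submodule S S)) (Submodule.mem_span_singleton_self a)
    have h3 : (1 : S) ∈ I ⊔ Submodule.span S {a} := by rw [h2]; trivial
    obtain ⟨u, hu, v, hv, huv⟩ := Submodule.mem_sup.1 h3
    obtain ⟨s, rfl⟩ := Submodule.mem_span_singleton.1 hv
    refine ⟨s, ?_⟩
    have : s * a - 1 = - u := by
      rw [← huv, smul_eq_mul]
      abel
    rw [this]
    exact I.neg_mem hu
  obtain ⟨N, -, x, hx⟩ := exists_hull I h1I (by
    intro a b ha hb
    obtain ⟨s, hs⟩ := hinv a ha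
    obtain ⟨t, ht⟩ := hinv b hb
    refine ⟨s, t, ?_, ?_⟩
    · have : s * a - t * b = (s * a - 1) - (t * b - 1) := by abel
      rw [this]
      exact I.sub_mem hs ht
    · intro h
      apply h1I
      have : (1 : S) = s * a - (s * a - 1) := by abel
      rw [this]
      exact I.sub_mem h hs)
  refine ⟨N, x, fun h => ?_⟩
  rw [hx] at h
  apply h1I
  have h5 : y * r ∈ I := by
    have := I.smul_mem y h
    rwa [smul_eq_mul] at this
  have h6 : 1 - y * r ∈ I := hle (Submodule.mem_span_singleton_self _)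
  have : (1 : S) = (1 - y * r) + y * r := by abel
  rw [this]
  exact I.add_mem h6 h5



/-- The module part of the theorem. -/
theorem main_of (R : Type) [Ring R] (hreg : ∀ a : R, ∃ x : R, a * x * a = a)
    (hL : ∃ I : Submodule R R, (1 : R) ∉ I ∧
      (∀ a b : R, a ∉ I → b ∉ I → ∃ s t : R, s * a - t * b ∈ I ∧ s * a ∉ I) ∧
      (∀ r : R, r ≠ 0 → ∃ s : R, r * s ∉ I))
    (hR : ∀ (U : Type) [AddCommGroup U] [Module Rᵐᵒᵖ U],
      (∀ x y : U, x ≠ 0 → y ≠ 0 → ∃ a b : Rᵐᵒᵖ, a • x = b • y ∧ a • x ≠ 0) →
      (∀ a : Rᵐᵒᵖ, a ≠ 0 → ∃ x : U, a • x ≠ 0) → False) :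
    IsEmpty (SeparationQuotient (RightZg R) ≃ₜ SeparationQuotient (LeftZg R)) := by
  refine ⟨fun h => ?_⟩
  -- the left side
  obtain ⟨I, hI1, hI2, hI3⟩ := hL
  obtain ⟨N0, -, x0, hx0⟩ := exists_hull I hI1 hI2
  have hf : ∀ a : R, a ≠ 0 → ∃ w : N0.carrier, a • w ≠ 0 := by
    intro a ha
    obtain ⟨s, hs⟩ := hI3 a ha
    refine ⟨s • x0, fun h0 => hs ?_⟩
    rw [← mul_smul] at h0
    exact (hx0 _).1 h0
  have hgen := mem_open_of_faithful hreg N0 hf
  -- transfer
  obtain ⟨q, hq⟩ := SeparationQuotient.surjective_mk (h.symm (SeparationQuotient.mk (cls N0)))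
  have hgenR : ∀ U : Set (RightZg R), IsOpen U → U.Nonempty → q ∈ U := by
    intro U hU hne
    obtain ⟨u, hu⟩ := hne
    have hopen : IsOpen (SeparationQuotient.mk '' U) := SeparationQuotient.isOpenMap_mk U hU
    have hopen2 : IsOpen (h '' (SeparationQuotient.mk '' U)) := h.isOpenMap _ hopen
    have hopen3 : IsOpen (SeparationQuotient.mk ⁻¹' (h '' (SeparationQuotient.mk '' U)) :
        Set (LeftZg R)) := hopen2.preimage SeparationQuotient.continuous_mk
    obtain ⟨v, hv⟩ := SeparationQuotient.surjective_mk (h (SeparationQuotient.mk u))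
    have hmem := hgen _ hopen3 v (by
      rw [Set.mem_preimage, hv]
      exact ⟨_, ⟨u, hu, rfl⟩, rfl⟩)
    rw [Set.mem_preimage] at hmem
    obtain ⟨t, ht, ht2⟩ := hmem
    have h3 : SeparationQuotient.mk q ∈ SeparationQuotient.mk '' U := by
      rw [hq, ← ht2, Homeomorph.symm_apply_apply]
      exact ht
    have h4 : q ∈ SeparationQuotient.mk ⁻¹' (SeparationQuotient.mk '' U) := h3
    rwa [SeparationQuotient.preimage_image_mk_open hU] at h4
  -- the right side
  have hregR : ∀ a : Rᵐᵒᵖ, ∃ x : Rᵐᵒᵖ, a * x * a = a := by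
    intro a
    obtain ⟨x, hx⟩ := hreg a.unop
    refine ⟨MulOpposite.op x, MulOpposite.unop_injective ?_⟩
    rw [MulOpposite.unop_mul, MulOpposite.unop_mul, MulOpposite.unop_op, ← mul_assoc]
    exact hx
  obtain ⟨N, rfl⟩ := Quotient.exists_rep q
  have hfaith : ∀ a : Rᵐᵒᵖ, a ≠ 0 → ∃ x : N.carrier, a • x ≠ 0 := by
    intro a ha
    obtain ⟨N', hN'⟩ := basic_ann_nonempty hregR a ha
    have hop : IsOpen (basic (ppTop Rᵐᵒᵖ) (ppAnn a)) :=
      TopologicalSpace.isOpen_generateFrom_of_mem ⟨1, _, _, rfl⟩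
    have := hgenR _ hop ⟨cls N', (cls_mem_basic_ann a N').2 hN'⟩
    exact (cls_mem_basic_ann a N).1 this
  exact hR N.carrier
    (uniform_of_injective (injective_of_pinj hregR N.pinj) N.indec) hfaith

end Pool.Agent.Helper513.ZgT0
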