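import Pool.Agent.Helper513.ZgT0.RightA
import Pool.Agent.Helper513.ZgT0.RightB
import Pool.Agent.Helper513.ZgT0.RightC
import Pool.Agent.Helper513.ZgT0.RingReg
import Pool.Agent.Helper513.ZgT0.SysEx
import Pool.Agent.Helper513.ZgT0.Top

set_option autoImplicit false

namespace Pool.Agent.Helper513.ZgT0

section Assembly

variable {W : Type} [LinearOrder W] [WellFoundedLT W] [Nonempty W] {𝔅 : Set (Pat W)}

theorem no_right (hS : IsSys 𝔅) {I : ℕ → Type} (hHit : Hit 𝔅 I) (hI : ∀ n, Bdd W (I n))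
    (hN : Bdd W ℕ) (hClo : Clo W) (U : Type) [AddCommGroup U] [Module (RR hS)ᵐᵒᵖ U]
    (hun : ∀ x y : U, x ≠ 0 → y ≠ 0 → ∃ a b : (RR hS)ᵐᵒᵖ, a • x = b • y ∧ a • x ≠ 0)
    (hf : ∀ a : (RR hS)ᵐᵒᵖ, a ≠ 0 → ∃ x : U, a • x ≠ 0) : False := by
  have hreg := RR_regular hS
  obtain ⟨I₀, h1, -, -⟩ := RR_left hS
  have h10 : (1 : (RR hS)ᵐᵒᵖ) ≠ 0 := by
    intro h
    apply h1
    have h2 : (1 : RR hS) = 0 := congrArg MulOpposite.unop h
    rw [h2]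
    exact I₀.zero_mem
  obtain ⟨u, hu⟩ := hf 1 h10
  have hu0 : u ≠ 0 := by
    rintro rfl
    exact hu (smul_zero _)
  obtain ⟨A, f, hA, hfV, hnk, hfar⟩ := exists_far hS hN hClo (kill_sys hS hreg hun hf u hu0)
    (kill_rel hS hreg hun hf u hu0)
  obtain ⟨u', hu', hpush⟩ := kill_push hS u hA hfV hnk
  refine far_false hS hHit hI hN (kill_sys hS hreg hun hf u' hu') fun γ => ?_
  obtain ⟨A', g, hA', hd, hγ, hg, hg0, hk⟩ := hfar γ
  exact ⟨A', g, hA', hγ, hg, hg0, hpush A' g hA' hd hg hk⟩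

end Assembly

end Pool.Agent.Helper513.ZgT0
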