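import Mathlib

set_option autoImplicit false

namespace Pool.Agent.Helper513.ZgT0

abbrev K : Type := ZMod 2

/-- Functions on the points `W → K`. -/
abbrev Fn (W : Type) : Type := (W → K) → K

section Basic

variable {W : Type}

open Classical in
/-- The point equal to `z` on `A` and to `s` off `A`. -/
noncomputable def sp (A : Set W) (z s : W → K) : W → K := fun i => if i ∈ A then z i else s i

/-- `v` depends only on the coordinates in `A`. -/
def DepOn (A : Set W) (v : Fn W) : Prop := ∀ s t : W → K, (∀ i ∈ A, s i = t i) → v s = v t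

/-- A pattern: blocks `C n`, functions `D n` on the blocks, a point `z`, a top and a ladder. -/
structure Pat (W : Type) where
  C : ℕ → Set W
  D : ℕ → Fn W
  z : W → K
  top : W
  lad : ℕ → W

/-- The union of the blocks `C n`, `n ≥ m`. -/
def Pat.tail (B : Pat W) (m : ℕ) : Set W := {i | ∃ n, m ≤ n ∧ i ∈ B.C n}

open Classical in
/-- The infinite product of the functions `D n`, `n ≥ m`. -/
noncomputable def Pat.t (B : Pat W) (m : ℕ) (s : W → K) : K :=
  if ∀ n, m ≤ n → B.D n s = 1 then 1 else 0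

/-- `A` is finitely covered by patterns and every pattern has a tail in `A` or off `A`. -/
def IsA (𝔅 : Set (Pat W)) (A : Set W) : Prop :=
  (∃ (F : Set W) (P : Multiset (Pat W)), F.Finite ∧ (∀ B ∈ P, B ∈ 𝔅) ∧
    ∀ i ∈ A, i ∈ F ∨ ∃ B ∈ P, i ∈ B.tail 0) ∧
  ∀ B ∈ 𝔅, (∃ m, B.tail m ⊆ A) ∨ ∃ m, Disjoint (B.tail m) A

/-- The admissible functions on `A`. -/
def IsV (𝔅 : Set (Pat W)) (A : Set W) (v : Fn W) : Prop :=
  DepOn A v ∧ ∀ B ∈ 𝔅, (∃ m, B.tail m ⊆ A) →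
    ∃ m, B.tail m ⊆ A ∧ ∀ s, v s = v (sp (B.tail m) B.z s) * B.t m s

/-- The admissible points on `A`. -/
def IsZ (𝔅 : Set (Pat W)) (A : Set W) (z : W → K) : Prop :=
  ∀ B ∈ 𝔅, (∃ m, B.tail m ⊆ A) → ∃ m, ∀ i ∈ B.tail m, z i = B.z i

/-- Good blocks. -/
structure GoodBlk (𝔅 : Set (Pat W)) (C : Set W) (D : Fn W) (z : W → K) : Prop where
  ne : C.Nonempty
  count : C.Countable
  isA : IsA 𝔅 C
  isV : IsV 𝔅 C D
  isZ : IsZ 𝔅 C z
  one : D z = 1
  zero : (∀ s, D s = 1) ∨ ∃ y, IsZ 𝔅 C y ∧ D y = 0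

end Basic

section Ordered

variable {W : Type} [LinearOrder W]

/-- The patterns with top below `δ`. -/
def low (𝔅 : Set (Pat W)) (δ : W) : Set (Pat W) := {B | B ∈ 𝔅 ∧ B.top < δ}

/-- The conditions on the family of patterns. -/
structure IsSys (𝔅 : Set (Pat W)) : Prop where
  lad_mono : ∀ B ∈ 𝔅, StrictMono B.lad
  lad_lt : ∀ B ∈ 𝔅, ∀ n, B.lad n < B.top
  lad_cof : ∀ B ∈ 𝔅, ∀ x < B.top, ∃ n, x < B.lad n
  C_sub : ∀ B ∈ 𝔅, ∀ n, B.C n ⊆ Set.Ico (B.lad n) (B.lad (n + 1))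
  good : ∀ B ∈ 𝔅, ∀ n, GoodBlk (low 𝔅 B.top) (B.C n) (B.D n) B.z
  ad : ∀ B ∈ 𝔅, ∀ B' ∈ 𝔅, B ≠ B' → B.top = B'.top →
    ∃ x < B.top, ∀ i ∈ B.tail 0, i ∈ B'.tail 0 → i < x

/-- Every sequence of families of pairwise disjoint good blocks is hit by a pattern. -/
def Hit (𝔅 : Set (Pat W)) (I : ℕ → Type) : Prop :=
  ∀ (δ : W) (lad : ℕ → W) (fam : ∀ n, I n → Set W × Fn W),
    StrictMono lad → (∀ n, lad n < δ) → (∀ x < δ, ∃ n, x < lad n) →
    (∀ n i, (fam n i).1 ⊆ Set.Ico (lad n) (lad (n + 1))) →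
    (∀ n i, ∃ z, GoodBlk (low 𝔅 δ) (fam n i).1 (fam n i).2 z) →
    (∀ n i j, i ≠ j → Disjoint (fam n i).1 (fam n j).1) →
    ∃ B ∈ 𝔅, B.top = δ ∧ ∀ n, ∃ i, B.C n = (fam n i).1 ∧ B.D n = (fam n i).2

/-- Every function from `ι` to `W` is bounded. -/
def Bdd (W : Type) [LinearOrder W] (ι : Type) : Prop := ∀ f : ι → W, ∃ b, ∀ i, f i < b

/-- There are arbitrarily large `β` all of whose countable subsets are bounded and which are closed
under a given function of finite tuples of functions with countable support. -/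
def Clo (W : Type) [LinearOrder W] : Prop :=
  ∀ (γ : W) (b : Set W → (Σ m : ℕ, Fin m → Fn W) → W), ∃ β > γ,
    (∀ A : Set W, A.Countable → A ⊆ Set.Iio β → ∃ x < β, A ⊆ Set.Iio x) ∧
    ∀ A : Set W, A.Countable → A ⊆ Set.Iio β → ∀ f : (Σ m : ℕ, Fin m → Fn W),
      (∀ j, DepOn A (f.2 j)) → b A f < β

end Ordered

/-! ### Basic lemmas -/

section BasicLemmas

variable {W : Type}

theorem sp_of_mem {A : Set W} {z s : W → K} {i : W} (h : i ∈ A) : sp A z s i = z i := if_pos h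

theorem sp_of_notMem {A : Set W} {z s : W → K} {i : W} (h : i ∉ A) : sp A z s i = s i := if_neg h

theorem sp_sp (A A' : Set W) (z z' s : W → K) :
    sp A z (sp A' z' s) = sp (A ∪ A') (sp A z z') s := by
  funext i
  have hu : ∀ {i : W}, i ∈ A ∨ i ∈ A' → i ∈ A ∪ A' := fun h => h
  by_cases h : i ∈ A
  · rw [sp_of_mem h, sp_of_mem (hu (Or.inl h)), sp_of_mem h]
  · rw [sp_of_notMem h]
    by_cases h' : i ∈ A'
    · rw [sp_of_mem h', sp_of_mem (hu (Or.inr h')), sp_of_notMem h]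
    · rw [sp_of_notMem h', sp_of_notMem (show i ∉ A ∪ A' from fun hh => Or.elim hh h h')]

theorem DepOn.mono {A A' : Set W} {v : Fn W} (h : A ⊆ A') (hv : DepOn A v) : DepOn A' v :=
  fun s t hst => hv s t fun i hi => hst i (h hi)

theorem K_cases (a : K) : a = 0 ∨ a = 1 := by
  revert a
  decide

theorem K_ne_zero {a : K} (h : a ≠ 0) : a = 1 := (K_cases a).resolve_left h

theorem K_add_self (a : K) : a + a = 0 := by
  revert a
  decide

theorem tail_anti (B : Pat W) {m m' : ℕ} (h : m ≤ m') : B.tail m' ⊆ B.tail m :=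
  fun _ ⟨n, hn, hi⟩ => ⟨n, h.trans hn, hi⟩

theorem C_sub_tail (B : Pat W) {m n : ℕ} (h : m ≤ n) : B.C n ⊆ B.tail m := fun _ hi => ⟨n, h, hi⟩

theorem t_eq_one_iff (B : Pat W) (m : ℕ) (s : W → K) :
    B.t m s = 1 ↔ ∀ n, m ≤ n → B.D n s = 1 := by
  unfold Pat.t
  split_ifs with h
  · exact ⟨fun _ => h, fun _ => rfl⟩
  · exact ⟨fun hh => absurd hh (by decide), fun hh => absurd hh h⟩

theorem t_eq_zero_iff (B : Pat W) (m : ℕ) (s : W → K) :
    B.t m s = 0 ↔ ∃ n, m ≤ n ∧ B.D n s = 0 := by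
  unfold Pat.t
  split_ifs with h
  · constructor
    · intro hh
      exact absurd hh (by decide)
    · rintro ⟨n, hn, h0⟩
      rw [h n hn] at h0
      exact absurd h0 (by decide)
  · refine ⟨fun _ => ?_, fun _ => rfl⟩
    push Not at h
    obtain ⟨n, hn, h1⟩ := h
    exact ⟨n, hn, (K_cases _).resolve_right h1⟩

end BasicLemmas

end Pool.Agent.Helper513.ZgT0
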