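import Mathlib

set_option autoImplicit false

namespace Pool.Agent.Helper513.ZgT0

/-- A pp condition in the free variables `x_1 … x_n` over `S`, for left `S`-modules:
`∃ y_1 … y_m, ⋀_{j < k} ∑ i, a i j x_i + ∑ i, b i j y_i = 0`. -/
structure PPFormula (S : Type) (n : ℕ) where
  m : ℕ
  k : ℕ
  a : Fin n → Fin k → S
  b : Fin m → Fin k → S

/-- The solution set of a pp condition in a left `S`-module. -/
def PPFormula.sol {S : Type} [Ring S] {n : ℕ} (φ : PPFormula S n) (M : Type) [AddCommGroup M]
    [Module S M] : Set (Fin n → M) :=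
  {x | ∃ y : Fin φ.m → M, ∀ j, ∑ i, φ.a i j • x i + ∑ i, φ.b i j • y i = 0}

/-- A pure embedding of left `S`-modules: an injective linear map such that every finite system of
linear equations with constants from `A` that has a solution in `B` has a solution in `A`. -/
def IsPureEmbedding {S : Type} [Ring S] {A B : Type} [AddCommGroup A] [Module S A]
    [AddCommGroup B] [Module S B] (f : A →ₗ[S] B) : Prop :=
  Function.Injective f ∧
    ∀ (m k : ℕ) (b : Fin m → Fin k → S) (c : Fin k → A),
      (∃ w : Fin m → B, ∀ j, ∑ i, b i j • w i = f (c j)) →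
        ∃ w : Fin m → A, ∀ j, ∑ i, b i j • w i = c j

/-- A left `S`-module is pure-injective if every homomorphism into it extends along every pure
embedding. -/
def IsPureInjective (S : Type) [Ring S] (M : Type) [AddCommGroup M] [Module S M] : Prop :=
  ∀ (A B : Type) [AddCommGroup A] [Module S A] [AddCommGroup B] [Module S B]
    (f : A →ₗ[S] B), IsPureEmbedding f → ∀ g : A →ₗ[S] M,
      ∃ h : B →ₗ[S] M, ∀ x, h (f x) = g x

/-- A left `S`-module is indecomposable if it is nonzero and is not the direct sum of two nonzero
submodules. -/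
def IsIndecomposable (S : Type) [Ring S] (M : Type) [AddCommGroup M] [Module S M] : Prop :=
  Nontrivial M ∧ ∀ A B : Submodule S M, IsCompl A B → A = ⊥ ∨ B = ⊥

/-- An indecomposable pure-injective left `S`-module. -/
structure IndecPureInj (S : Type) [Ring S] where
  carrier : Type
  [grp : AddCommGroup carrier]
  [mod : Module S carrier]
  pinj : IsPureInjective S carrier
  indec : IsIndecomposable S carrier

attribute [instance] IndecPureInj.grp IndecPureInj.mod

/-- Isomorphism of indecomposable pure-injective modules. -/
def isoSetoid (S : Type) [Ring S] : Setoid (IndecPureInj S) where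
  r N N' := Nonempty (N.carrier ≃ₗ[S] N'.carrier)
  iseqv :=
    ⟨fun _ => ⟨LinearEquiv.refl _ _⟩, fun ⟨e⟩ => ⟨e.symm⟩, fun ⟨e⟩ ⟨e'⟩ => ⟨e.trans e'⟩⟩

/-- The left Ziegler spectrum of `S`: the set of isomorphism classes of indecomposable
pure-injective left `S`-modules. -/
def LeftZg (S : Type) [Ring S] : Type 1 := Quotient (isoSetoid S)

/-- The isomorphism class of an indecomposable pure-injective module. -/
def cls {S : Type} [Ring S] (N : IndecPureInj S) : LeftZg S := Quotient.mk (isoSetoid S) N

/-- The set `(φ/ψ)` of the classes of the modules `N` such that `φ(N)` is not contained in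
`ψ(N)`. -/
def basic {S : Type} [Ring S] {n : ℕ} (φ ψ : PPFormula S n) : Set (LeftZg S) :=
  {x | ∃ N : IndecPureInj S, x = cls N ∧ ¬ φ.sol N.carrier ⊆ ψ.sol N.carrier}

/-- The Ziegler topology: it has the sets `(φ/ψ)`, where `φ` and `ψ` are pp conditions in the same
free variables, as a (sub)basis of open sets. -/
instance zieglerTopology (S : Type) [Ring S] : TopologicalSpace (LeftZg S) :=
  TopologicalSpace.generateFrom {U | ∃ (n : ℕ) (φ ψ : PPFormula S n), U = basic φ ψ}

/-- The right Ziegler spectrum of `R`: right `R`-modules are left modules over the opposite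
ring. -/
abbrev RightZg (R : Type) [Ring R] : Type 1 := LeftZg Rᵐᵒᵖ

end Pool.Agent.Helper513.ZgT0
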