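import Pool.Agent.Helper513.ZgT0.Ring

set_option autoImplicit false

namespace Pool.Agent.Helper513.ZgT0

/-! ### Right modules -/

section RightDefs

variable {W : Type} [LinearOrder W] {𝔅 : Set (Pat W)}

/-- The element `u` of a right module is killed by all operators `T A v z`, `z` admissible. -/
def Kill (hS : IsSys 𝔅) {U : Type} [AddCommGroup U] [Module (RR hS)ᵐᵒᵖ U] (u : U) (A : Set W)
    (v : Fn W) : Prop :=
  ∀ z, IsZ 𝔅 A z → ∀ r : RR hS, (r : Module.End K (Fn W)) = T A v z → MulOpposite.op r • u = 0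

/-- Formal properties of the relation `Kill hS u` for `u ≠ 0`. -/
structure KillSys (𝔅 : Set (Pat W)) (Q : Set W → Fn W → Prop) : Prop where
  zero : ∀ A, IsA 𝔅 A → Q A 0
  add : ∀ A v v', IsA 𝔅 A → IsV 𝔅 A v → IsV 𝔅 A v' → Q A v → Q A v' → Q A (v + v')
  mul : ∀ A A' v v', IsA 𝔅 A → IsA 𝔅 A' → Disjoint A A' → IsV 𝔅 A v → IsV 𝔅 A' v' →
    Q A v → Q (A ∪ A') (v * v')
  non : ∀ A, IsA 𝔅 A → ∃ v, IsV 𝔅 A v ∧ ¬ Q A v

open Classical in
/-- The function `s ↦ [s p = i]`. -/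
noncomputable def dl (p : W) (i : K) : Fn W := fun s => if s p = i then 1 else 0

/-- The relation provided by uniformity at the position `p`. -/
def Rel (𝔅 : Set (Pat W)) (Q : Set W → Fn W → Prop) : Prop :=
  ∀ p : W, Q {p} (dl p 0) ∨ Q {p} (dl p 1) ∨
    ∃ A ρ, IsA 𝔅 A ∧ p ∈ A ∧ IsV 𝔅 A ρ ∧ Q A ρ ∧ ¬ Q A (dl p 0 * ρ)

end RightDefs

end Pool.Agent.Helper513.ZgT0
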