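import Pool.Agent.Helper513.ZgT0.Base

set_option autoImplicit false

open Cardinal

namespace Pool.Agent.Helper513.ZgT0

/-- Abstract choice lemma. -/
theorem exists_choice {𝒟 X P : Type} (θ μ : Cardinal.{0}) (hθ : ℵ₀ ≤ θ) (h𝒟 : #𝒟 ≤ θ)
    (hX : θ ≤ #X) (hμ : μ < θ) (p : 𝒟 → X → P) (r : P → P → Prop)
    (hsymm : ∀ a b, r a b → r b a)
    (hbad : ∀ (a b : 𝒟) (y : X), #{x : X // ¬ r (p a x) (p b y)} ≤ μ) :
    ∃ x : 𝒟 → X, ∀ a b, a ≠ b → r (p a (x a)) (p b (x b)) := by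
  classical
  have h1 : #𝒟 ≤ #(θ.ord.ToType) := by rwa [mk_ord_toType]
  obtain ⟨e⟩ := (Cardinal.le_def 𝒟 _).1 h1
  have hwf : WellFounded (fun b a : 𝒟 => e b < e a) := InvImage.wf e wellFounded_lt
  have H : ∀ (a : 𝒟) (prev : ∀ b, e b < e a → X),
      ∃ x : X, ∀ b (h : e b < e a), r (p a x) (p b (prev b h)) := by
    intro a prev
    by_contra hcon
    push Not at hcon
    have hcard : #{b : 𝒟 // e b < e a} < θ := by
      have h2 : #{b : 𝒟 // e b < e a} ≤ #(Set.Iio (e a)) := by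
        refine Cardinal.mk_le_of_injective (f := fun b => ⟨e b.1, b.2⟩) ?_
        intro b c hbc
        have := congrArg Subtype.val hbc
        exact Subtype.ext (e.injective this)
      exact h2.trans_lt (mk_Iio_ord_toType (e a))
    have huniv : (Set.univ : Set X) ⊆
        ⋃ b : {b : 𝒟 // e b < e a}, {x : X | ¬ r (p a x) (p b.1 (prev b.1 b.2))} := by
      intro x _
      obtain ⟨b, hb, hr⟩ := hcon x
      exact Set.mem_iUnion.2 ⟨⟨b, hb⟩, hr⟩
    have h3 : #X ≤ #{b : 𝒟 // e b < e a} * μ := by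
      rw [← mk_univ]
      refine (mk_le_mk_of_subset huniv).trans ?_
      refine (mk_iUnion_le _).trans ?_
      gcongr
      exact ciSup_le' fun b => hbad a b.1 (prev b.1 b.2)
    have h4 : #{b : 𝒟 // e b < e a} * μ < θ := mul_lt_of_lt hθ hcard hμ
    exact absurd (hX.trans h3) (not_le.2 h4)
  choose F hF using H
  let x : 𝒟 → X := hwf.fix F
  have hx : ∀ a, x a = F a (fun b _ => x b) := fun a => hwf.fix_eq F a
  have key : ∀ a b, e b < e a → r (p a (x a)) (p b (x b)) := by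
    intro a b h
    rw [hx a]
    exact hF a _ b h
  refine ⟨x, fun a b hab => ?_⟩
  rcases lt_trichotomy (e a) (e b) with h | h | h
  · exact hsymm _ _ (key b a h)
  · exact absurd (e.injective h) hab
  · exact key a b h

/-- block of a code -/
def blk {W : Type} [LinearOrder W] {δ : W} (c : (ℕ → Set.Iio δ) × ((ℕ → K) → K)) :
    Set W × Fn W :=
  (Set.range (fun i => (c.1 i : W)), fun s => c.2 (fun i => s (c.1 i)))

open Classical in
theorem blk_code {W : Type} [LinearOrder W] {δ : W} (C : Set W) (D : Fn W) (hne : C.Nonempty)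
    (hc : C.Countable) (hsub : C ⊆ Set.Iio δ) (hD : DepOn C D) :
    ∃ c : (ℕ → Set.Iio δ) × ((ℕ → K) → K), blk c = (C, D) := by
  obtain ⟨f, rfl⟩ := hc.exists_eq_range hne
  refine ⟨(fun i => ⟨f i, hsub ⟨i, rfl⟩⟩,
    fun w => D (fun x => if h : ∃ i, f i = x then w h.choose else 0)), ?_⟩
  unfold blk
  refine Prod.ext rfl ?_
  funext s
  apply hD
  rintro _ ⟨i, rfl⟩
  have h : ∃ j, f j = f i := ⟨i, rfl⟩
  simp only [dif_pos h]
  exact congrArg s h.choose_spec

theorem GoodBlk.congr {W : Type} {𝔅 : Set (Pat W)} {C : Set W} {D : Fn W} {z0 z : W → K}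
    (h : GoodBlk 𝔅 C D z0) (hz : ∀ i ∈ C, z i = z0 i) : GoodBlk 𝔅 C D z where
  ne := h.ne
  count := h.count
  isA := h.isA
  isV := h.isV
  isZ := by
    intro B hB hm
    obtain ⟨m0, hm0⟩ := hm
    obtain ⟨m1, hm1⟩ := h.isZ B hB ⟨m0, hm0⟩
    refine ⟨max m0 m1, fun i hi => ?_⟩
    obtain ⟨n, hn, hin⟩ := hi
    rw [hz i (hm0 ⟨n, le_trans (le_max_left _ _) hn, hin⟩)]
    exact hm1 i ⟨n, le_trans (le_max_right _ _) hn, hin⟩
  one := by
    rw [← h.one]
    exact h.isV.1 _ _ hz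
  zero := h.zero

/-- validity of a coded sequence of families -/
def Vld {W : Type} [LinearOrder W] {δ : W} {I : ℕ → Type} (ℱ : Set (Pat W))
    (a : (ℕ → Set.Iio δ) × (∀ n, I n → (ℕ → Set.Iio δ) × ((ℕ → K) → K))) : Prop :=
  StrictMono (fun n => (a.1 n : W)) ∧ (∀ x < δ, ∃ n, x < (a.1 n : W)) ∧
    (∀ n i, (blk (a.2 n i)).1 ⊆ Set.Ico (a.1 n : W) (a.1 (n + 1) : W)) ∧
    (∀ n i, ∃ z, GoodBlk ℱ (blk (a.2 n i)).1 (blk (a.2 n i)).2 z) ∧
    (∀ n i j, i ≠ j → Disjoint (blk (a.2 n i)).1 (blk (a.2 n j)).1)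

open Classical in
/-- the pattern of a coded sequence and a branch -/
noncomputable def mkPat {W : Type} [LinearOrder W] {δ : W} {I : ℕ → Type} {ℱ : Set (Pat W)}
    {X : Type} (node : ∀ n, X → I n)
    (a : {a : (ℕ → Set.Iio δ) × (∀ n, I n → (ℕ → Set.Iio δ) × ((ℕ → K) → K)) // Vld ℱ a})
    (x : X) : Pat W where
  C := fun n => (blk (a.1.2 n (node n x))).1
  D := fun n => (blk (a.1.2 n (node n x))).2
  z := fun i => if h : ∃ n, i ∈ (blk (a.1.2 n (node n x))).1 then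
    (a.2.2.2.2.1 h.choose (node h.choose x)).choose i else 0
  top := δ
  lad := fun n => a.1.1 n

theorem lev_unique {W : Type} [LinearOrder W] {lad : ℕ → W} (h : StrictMono lad) {n m : ℕ} {i : W}
    (h1 : i ∈ Set.Ico (lad n) (lad (n + 1))) (h2 : i ∈ Set.Ico (lad m) (lad (m + 1))) : n = m := by
  have h3 : lad n < lad (m + 1) := h1.1.trans_lt h2.2
  have h4 : lad m < lad (n + 1) := h2.1.trans_lt h1.2
  rw [h.lt_iff_lt] at h3 h4
  omega

/-- The patterns with top `δ`, over a given set `ℱ` of lower patterns. -/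
theorem exists_level {W : Type} [LinearOrder W] (θ : Cardinal.{0}) (hθ : ℵ₀ ≤ θ)
    (hpow : θ ^ ℵ₀ ≤ θ) (h2 : (2 : Cardinal.{0}) ^ ((2 : Cardinal.{0}) ^ ℵ₀) ≤ θ)
    (I : ℕ → Type) (hI : ∀ n, θ ^ #(I n) ≤ θ)
    (X : Type) (hX : θ ≤ #X) (node : ∀ n, X → I n)
    (hnode : ∀ x y : X, (∀ N, ∃ n, N ≤ n ∧ node n x = node n y) → x = y)
    (δ : W) (hδ : #(Set.Iio δ) ≤ θ) (ℱ : Set (Pat W)) :
    ∃ S : Set (Pat W),
      (∀ B ∈ S, B.top = δ ∧ StrictMono B.lad ∧ (∀ n, B.lad n < δ) ∧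
        (∀ x < δ, ∃ n, x < B.lad n) ∧ (∀ n, B.C n ⊆ Set.Ico (B.lad n) (B.lad (n + 1))) ∧
        ∀ n, GoodBlk ℱ (B.C n) (B.D n) B.z) ∧
      (∀ B ∈ S, ∀ B' ∈ S, B ≠ B' → ∃ x < δ, ∀ i ∈ B.tail 0, i ∈ B'.tail 0 → i < x) ∧
      (∀ (lad : ℕ → W) (fam : ∀ n, I n → Set W × Fn W),
        StrictMono lad → (∀ n, lad n < δ) → (∀ x < δ, ∃ n, x < lad n) →
        (∀ n i, (fam n i).1 ⊆ Set.Ico (lad n) (lad (n + 1))) →
        (∀ n i, ∃ z, GoodBlk ℱ (fam n i).1 (fam n i).2 z) →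
        (∀ n i j, i ≠ j → Disjoint (fam n i).1 (fam n j).1) →
        ∃ B ∈ S, ∀ n, ∃ i, B.C n = (fam n i).1 ∧ B.D n = (fam n i).2) := by
  classical
  let Cd : Type := (ℕ → Set.Iio δ) × ((ℕ → K) → K)
  have hCd : #Cd ≤ θ := by
    have e1 : #(ℕ → Set.Iio δ) ≤ θ := by
      have : #(ℕ → Set.Iio δ) = #(Set.Iio δ) ^ ℵ₀ := by simp
      rw [this]
      exact (power_le_power_right hδ).trans hpow
    have e2 : #((ℕ → K) → K) ≤ θ := by
      have : #((ℕ → K) → K) = (2 : Cardinal.{0}) ^ ((2 : Cardinal.{0}) ^ ℵ₀) := by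
        simp
      rw [this]
      exact h2
    have : #Cd = #(ℕ → Set.Iio δ) * #((ℕ → K) → K) := by
      simp only [Cd, mk_prod, lift_id]
    rw [this]
    exact (mul_le_mul' e1 e2).trans (mul_eq_self hθ).le
  let 𝒟 : Type := {a : (ℕ → Set.Iio δ) × (∀ n, I n → Cd) // Vld ℱ a}
  have h𝒟 : #𝒟 ≤ θ := by
    refine (mk_subtype_le _).trans ?_
    have e1 : #(ℕ → Set.Iio δ) ≤ θ := by
      have : #(ℕ → Set.Iio δ) = #(Set.Iio δ) ^ ℵ₀ := by simp
      rw [this]
      exact (power_le_power_right hδ).trans hpow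
    have e2 : #(∀ n, I n → Cd) ≤ θ := by
      rw [mk_pi]
      have : Cardinal.prod (fun n => #(I n → Cd)) ≤ Cardinal.prod (fun _ : ℕ => θ) := by
        apply prod_le_prod
        intro n
        have : #(I n → Cd) = #Cd ^ #(I n) := by
          rw [← power_def]
        rw [this]
        exact (power_le_power_right hCd).trans (hI n)
      refine this.trans ?_
      simpa using hpow
    rw [mk_prod, lift_id, lift_id]
    exact (mul_le_mul' e1 e2).trans (mul_eq_self hθ).le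
  let p : 𝒟 → X → Pat W := fun a x => mkPat node a x
  let r : Pat W → Pat W → Prop := fun B B' => ∃ x < δ, ∀ i ∈ B.tail 0, i ∈ B'.tail 0 → i < x
  have hμ : (2 : Cardinal.{0}) ^ ℵ₀ < θ := (cantor _).trans_le h2
  have hblkc : ∀ c : Cd, (blk c).1.Countable := fun c => Set.countable_range _
  have hbad : ∀ (a b : 𝒟) (y : X), #{x : X // ¬ r (p a x) (p b y)} ≤ (2 : Cardinal.{0}) ^ ℵ₀ := by
    intro a b y
    have hmono := a.2.1
    have hsub := a.2.2.2.1
    have hdisj := a.2.2.2.2.2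
    have hY : ((p b y).tail 0).Countable := by
      have : (p b y).tail 0 ⊆ ⋃ n, (p b y).C n := by
        rintro i ⟨n, _, hn⟩
        exact Set.mem_iUnion.2 ⟨n, hn⟩
      refine Set.Countable.mono this (Set.countable_iUnion fun n => ?_)
      exact hblkc _
    let E : Set (Σ n, I n) := {e | ((blk (a.1.2 e.1 e.2)).1 ∩ (p b y).tail 0).Nonempty}
    have hE : E.Countable := by
      have : Countable ((p b y).tail 0) := hY.to_subtype
      let g : E → (p b y).tail 0 := fun e => ⟨e.2.choose, e.2.choose_spec.2⟩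
      have hg : Function.Injective g := by
        intro e e' hee
        have h1 := e.2.choose_spec.1
        have h2 := e'.2.choose_spec.1
        have h3 : e.2.choose = e'.2.choose := congrArg Subtype.val hee
        rw [h3] at h1
        obtain ⟨⟨n, i⟩, he⟩ := e
        obtain ⟨⟨m, j⟩, he'⟩ := e'
        have h4 : n = m := lev_unique hmono (hsub _ _ h1) (hsub _ _ h2)
        subst h4
        have h5 : i = j := by
          by_contra hij
          exact Set.disjoint_left.1 (hdisj n i j hij) h1 h2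
        subst h5
        rfl
      exact hg.countable
    let Φ : {x : X // ¬ r (p a x) (p b y)} → Set E :=
      fun x => {e | e.1.2 = node e.1.1 x.1}
    have hΦ : Function.Injective Φ := by
      intro x x' hxx
      apply Subtype.ext
      apply hnode
      intro N
      have hb := x.2
      have h1 : ∃ i, i ∈ (p a x.1).tail 0 ∧ i ∈ (p b y).tail 0 ∧ ¬ i < (a.1.1 N : W) := by
        by_contra hcon
        push Not at hcon
        exact hb ⟨a.1.1 N, (a.1.1 N).2, fun i h1 h2 => hcon i h1 h2⟩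
      obtain ⟨i, ⟨n, _, hin⟩, hiY, hiN⟩ := h1
      have hin' : i ∈ (blk (a.1.2 n (node n x.1))).1 := hin
      have h2 := hsub _ _ hin'
      have hNn : N ≤ n := by
        have h3 : (a.1.1 N : W) < (a.1.1 (n + 1) : W) := (not_lt.1 hiN).trans_lt h2.2
        have h4 := hmono.lt_iff_lt.1 h3
        omega
      refine ⟨n, hNn, ?_⟩
      have he : (⟨n, node n x.1⟩ : Σ n, I n) ∈ E := ⟨i, hin', hiY⟩
      have h5 : (⟨⟨n, node n x.1⟩, he⟩ : E) ∈ Φ x := rfl
      rw [hxx] at h5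
      exact h5
    refine (mk_le_of_injective hΦ).trans ?_
    rw [mk_set]
    exact power_le_power_left two_ne_zero (by
      have : Countable E := hE.to_subtype
      exact mk_le_aleph0)
  obtain ⟨xx, hxx⟩ := exists_choice θ ((2 : Cardinal.{0}) ^ ℵ₀) hθ h𝒟 hX hμ p r
    (fun B B' h => by
      obtain ⟨x, hx, h⟩ := h
      exact ⟨x, hx, fun i h1 h2 => h i h2 h1⟩) hbad
  refine ⟨Set.range fun a => p a (xx a), ?_, ?_, ?_⟩
  · rintro _ ⟨a, rfl⟩
    refine ⟨rfl, a.2.1, fun n => (a.1.1 n).2, a.2.2.1, fun n => a.2.2.2.1 n _, fun n => ?_⟩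
    refine GoodBlk.congr (a.2.2.2.2.1 n (node n (xx a))).choose_spec ?_
    intro i hi
    have h : ∃ m, i ∈ (blk (a.1.2 m (node m (xx a)))).1 := ⟨n, hi⟩
    have hn : h.choose = n :=
      lev_unique a.2.1 (a.2.2.2.1 _ _ h.choose_spec) (a.2.2.2.1 _ _ hi)
    change (if h : ∃ m, i ∈ (blk (a.1.2 m (node m (xx a)))).1 then
      (a.2.2.2.2.1 h.choose (node h.choose (xx a))).choose i else 0) = _
    rw [dif_pos h]
    rw [hn]
  · rintro _ ⟨a, rfl⟩ _ ⟨b, rfl⟩ hne
    exact hxx a b (fun h => hne (by rw [h]))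
  · intro lad fam h1 h2 h3 h4 h5 h6
    have hcode : ∀ n i, ∃ c : Cd, blk c = fam n i := by
      intro n i
      obtain ⟨z, hz⟩ := h5 n i
      obtain ⟨c, hc⟩ := blk_code (δ := δ) (fam n i).1 (fam n i).2 hz.ne hz.count
        (fun j hj => ((h4 n i hj).2.trans (h2 (n + 1)))) hz.isV.1
      exact ⟨c, hc⟩
    choose code hcode using hcode
    have hv : Vld ℱ (δ := δ) (I := I) ((fun n => ⟨lad n, h2 n⟩, code) :
        (ℕ → Set.Iio δ) × (∀ n, I n → Cd)) := by
      refine ⟨h1, h3, ?_, ?_, ?_⟩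
      · intro n i
        simp only
        rw [hcode]
        exact h4 n i
      · intro n i
        simp only
        rw [hcode]
        exact h5 n i
      · intro n i j hij
        simp only
        rw [hcode, hcode]
        exact h6 n i j hij
    refine ⟨p ⟨_, hv⟩ (xx ⟨_, hv⟩), ⟨_, rfl⟩, fun n => ⟨node n (xx ⟨_, hv⟩), ?_, ?_⟩⟩
    · exact congrArg Prod.fst (hcode n _)
    · exact congrArg Prod.snd (hcode n _)

end Pool.Agent.Helper513.ZgT0
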