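import Pool.Agent.Helper513.ZgT0.KillDefs

set_option autoImplicit false

namespace Pool.Agent.Helper513.ZgT0

section RightTargets

variable {W : Type} [LinearOrder W] [WellFoundedLT W] {𝔅 : Set (Pat W)}

omit [LinearOrder W] [WellFoundedLT W] in
theorem T_zero_z5 (A : Set W) (z : W → K) : T A (0 : Fn W) z = 0 := by
  refine LinearMap.ext fun φ => funext fun s => ?_
  rw [T_apply, Pi.zero_apply, zero_mul]; rfl

omit [LinearOrder W] [WellFoundedLT W] in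
theorem T_neg_z5 (A : Set W) (v : Fn W) (z : W → K) : T A (-v) z = -T A v z := by
  refine LinearMap.ext fun φ => funext fun s => ?_
  rw [T_apply, Pi.neg_apply, neg_mul]; rfl

omit [LinearOrder W] [WellFoundedLT W] in
theorem dep_sp_self_z5 {A : Set W} {h : Fn W} (hh : DepOn A h) (z s : W → K) :
    h (sp A z s) = h z := hh _ _ fun _ hi => sp_of_mem hi

omit [LinearOrder W] [WellFoundedLT W] in
theorem dep_sp_disj_z5 {A A' : Set W} (hd : Disjoint A A') {h : Fn W} (hh : DepOn A' h)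
    (z s : W → K) : h (sp A z s) = h s :=
  hh _ _ fun _ hi => sp_of_notMem (fun hi' => Set.disjoint_left.1 hd hi' hi)

omit [LinearOrder W] [WellFoundedLT W] in
theorem sp_self_z5 (A : Set W) (z : W → K) : sp A z z = z := by
  funext i
  by_cases hi : i ∈ A
  · rw [sp_of_mem hi]
  · rw [sp_of_notMem hi]

omit [WellFoundedLT W] in
theorem op_mul_smul_z5 {hS : IsSys 𝔅} {U : Type} [AddCommGroup U] [Module (RR hS)ᵐᵒᵖ U]
    (r s : RR hS) (u : U) :
    MulOpposite.op (r * s) • u = MulOpposite.op s • MulOpposite.op r • u := by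
  rw [MulOpposite.op_mul, mul_smul]

/-- K1 -/
theorem kill_of_one_z5 (hS : IsSys 𝔅) {U : Type} [AddCommGroup U] [Module (RR hS)ᵐᵒᵖ U] (u : U)
    {A : Set W} {v : Fn W} {z0 : W → K} (hA : IsA 𝔅 A) (hz0 : IsZ 𝔅 A z0)
    (r0 : RR hS) (hr0 : (r0 : Module.End K (Fn W)) = T A v z0)
    (h0 : MulOpposite.op r0 • u = 0) : Kill hS u A v := by
  intro z hz r hr
  obtain ⟨h, hh, hh1⟩ := exists_isV_one hS hA hz0
  have h1 : T A v z0 * T A h z = T A v z := by
    rw [T_mul, Set.union_self]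
    have e1 : (fun s => v s * h (sp A z0 s)) = v := by
      funext s
      rw [dep_sp_self_z5 hh.1, hh1, mul_one]
    rw [e1]
    exact T_congr v fun i hi => sp_of_mem hi
  have h2 : r = r0 * ⟨T A h z, T_mem_RR hS hA hh hz⟩ := by
    apply Subtype.ext
    rw [Subring.coe_mul, hr, hr0]
    exact h1.symm
  rw [h2, op_mul_smul_z5, h0, smul_zero]

/-- the operators supported above `A` -/
def GG_z5 (𝔅 : Set (Pat W)) (A : Set W) : Set (Module.End K (Fn W)) :=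
  {r | ∃ A' v z, A ⊆ A' ∧ IsA 𝔅 A' ∧ IsV 𝔅 A' v ∧ IsZ 𝔅 A' z ∧ r = T A' v z}

omit [WellFoundedLT W] in
theorem GG_left_z5 (hS : IsSys 𝔅) {A : Set W} {x y : Module.End K (Fn W)}
    (hx : x ∈ AddSubgroup.closure (Gen 𝔅)) (hy : y ∈ AddSubgroup.closure (GG_z5 𝔅 A)) :
    x * y ∈ AddSubgroup.closure (GG_z5 𝔅 A) := by
  refine mul_mem_of ?_ hx hy
  rintro _ ⟨A1, v1, z1, hA1, hv1, hz1, rfl⟩ _ ⟨A', v, z, hAA, hA', hv, hz, rfl⟩
  refine AddSubgroup.subset_closure ⟨A1 ∪ A', _, _, hAA.trans Set.subset_union_right,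
    isA_union hS hA1 hA', isV_comp hS hA1 hA' hv1 hv, isZ_glue hS hA' hz1 hz, T_mul _ _ _ _ _ _⟩

omit [WellFoundedLT W] in
theorem GG_right_z5 (hS : IsSys 𝔅) {A : Set W} {x y : Module.End K (Fn W)}
    (hx : x ∈ AddSubgroup.closure (Gen 𝔅)) (hy : y ∈ AddSubgroup.closure (GG_z5 𝔅 A)) :
    y * x ∈ AddSubgroup.closure (GG_z5 𝔅 A) := by
  refine mul_mem_of ?_ hy hx
  rintro _ ⟨A', v, z, hAA, hA', hv, hz, rfl⟩ _ ⟨A1, v1, z1, hA1, hv1, hz1, rfl⟩
  refine AddSubgroup.subset_closure ⟨A' ∪ A1, _, _, hAA.trans Set.subset_union_left,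
    isA_union hS hA' hA1, isV_comp hS hA' hA1 hv hv1, isZ_glue hS hA1 hz hz1, T_mul _ _ _ _ _ _⟩

/-- all elements of the ideal kill `u` if `u` is killed by all of `V_A` -/
theorem GG_kill_z5 (hS : IsSys 𝔅) {U : Type} [AddCommGroup U] [Module (RR hS)ᵐᵒᵖ U] (u : U)
    {A : Set W} (hA : IsA 𝔅 A) (hk : ∀ v, IsV 𝔅 A v → Kill hS u A v)
    {x : Module.End K (Fn W)} (hx : x ∈ AddSubgroup.closure (GG_z5 𝔅 A)) :
    ∃ r : RR hS, (r : Module.End K (Fn W)) = x ∧ MulOpposite.op r • u = 0 := by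
  induction hx using AddSubgroup.closure_induction with
  | mem x hx =>
    obtain ⟨A', v, z, hAA, hA', hv, hz, rfl⟩ := hx
    have hun : A ∪ (A' \ A) = A' := Set.union_sdiff_cancel hAA
    have hdiff := isA_diff hS hA' hA
    have hd : Disjoint A (A' \ A) := Set.disjoint_sdiff_right
    have hzA : IsZ 𝔅 A z := isZ_mono hAA hz
    have hv' : v ∈ AddSubgroup.closure
        {w : Fn W | ∃ f g, IsV 𝔅 A f ∧ IsV 𝔅 (A' \ A) g ∧ w = f * g} := by
      refine isV_prod hS hA hdiff hd ?_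
      rw [hun]; exact hv
    clear hv
    induction hv' using AddSubgroup.closure_induction with
    | mem w hw =>
      obtain ⟨f, g, hf, hg, rfl⟩ := hw
      obtain ⟨h, hh, hh1⟩ := exists_isV_one hS hA hzA
      have hhg : IsV 𝔅 A' (h * g) := by
        have := isV_mul hS hA hdiff hd hh hg
        rw [hun] at this
        exact this
      refine ⟨⟨T A f z, T_mem_RR hS hA hf hzA⟩ * ⟨T A' (h * g) z, T_mem_RR hS hA' hhg hz⟩,
        ?_, ?_⟩
      · rw [Subring.coe_mul]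
        show T A f z * T A' (h * g) z = _
        rw [T_mul, Set.union_eq_self_of_subset_left hAA, sp_self_z5]
        congr 1
        funext s
        rw [Pi.mul_apply, Pi.mul_apply, dep_sp_self_z5 hh.1, hh1, one_mul,
          dep_sp_disj_z5 hd hg.1]
      · rw [op_mul_smul_z5, hk f hf z hzA _ rfl, smul_zero]
    | zero =>
      refine ⟨0, ?_, ?_⟩
      · rw [T_zero_z5]; rfl
      · rw [MulOpposite.op_zero, zero_smul]
    | add w w' _ _ hw hw' =>
      obtain ⟨r, hr, hr0⟩ := hw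
      obtain ⟨r', hr', hr0'⟩ := hw'
      refine ⟨r + r', ?_, ?_⟩
      · rw [T_add, Subring.coe_add, hr, hr']
      · rw [MulOpposite.op_add, add_smul, hr0, hr0', add_zero]
    | neg w _ hw =>
      obtain ⟨r, hr, hr0⟩ := hw
      refine ⟨-r, ?_, ?_⟩
      · rw [T_neg_z5, Subring.coe_neg, hr]
      · rw [MulOpposite.op_neg, neg_smul, hr0, neg_zero]
  | zero =>
    refine ⟨0, rfl, ?_⟩
    rw [MulOpposite.op_zero, zero_smul]
  | add w w' _ _ hw hw' =>
    obtain ⟨r, hr, hr0⟩ := hw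
    obtain ⟨r', hr', hr0'⟩ := hw'
    refine ⟨r + r', ?_, ?_⟩
    · rw [Subring.coe_add, hr, hr']
    · rw [MulOpposite.op_add, add_smul, hr0, hr0', add_zero]
  | neg w _ hw =>
    obtain ⟨r, hr, hr0⟩ := hw
    refine ⟨-r, ?_, ?_⟩
    · rw [Subring.coe_neg, hr]
    · rw [MulOpposite.op_neg, neg_smul, hr0, neg_zero]

theorem kill_sys (hS : IsSys 𝔅) (hreg : ∀ a : RR hS, ∃ x : RR hS, a * x * a = a) {U : Type}
    [AddCommGroup U] [Module (RR hS)ᵐᵒᵖ U]
    (hun : ∀ x y : U, x ≠ 0 → y ≠ 0 → ∃ a b : (RR hS)ᵐᵒᵖ, a • x = b • y ∧ a • x ≠ 0)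
    (hf : ∀ a : (RR hS)ᵐᵒᵖ, a ≠ 0 → ∃ x : U, a • x ≠ 0) (u : U) (hu : u ≠ 0) :
    KillSys 𝔅 (Kill hS u) := by
  refine ⟨?_, ?_, ?_, ?_⟩
  · intro A hA z hz r hr
    have h1 : r = 0 := by
      apply Subtype.ext
      rw [hr, T_zero_z5]; rfl
    rw [h1, MulOpposite.op_zero, zero_smul]
  · intro A v v' hA hv hv' hQ hQ' z hz r hr
    have h1 : r = ⟨T A v z, T_mem_RR hS hA hv hz⟩ + ⟨T A v' z, T_mem_RR hS hA hv' hz⟩ := by
      apply Subtype.ext
      rw [hr, T_add]; rfl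
    rw [h1, MulOpposite.op_add, add_smul, hQ z hz _ rfl, hQ' z hz _ rfl, add_zero]
  · intro A A' v v' hA hA' hd hv hv' hQ z hz r hr
    have hzA : IsZ 𝔅 A z := isZ_mono Set.subset_union_left hz
    have hzA' : IsZ 𝔅 A' z := isZ_mono Set.subset_union_right hz
    have h1 : r = ⟨T A v z, T_mem_RR hS hA hv hzA⟩ * ⟨T A' v' z, T_mem_RR hS hA' hv' hzA'⟩ := by
      apply Subtype.ext
      rw [hr, Subring.coe_mul]
      show _ = T A v z * T A' v' z
      rw [T_mul, sp_self_z5]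
      congr 1
      funext s
      rw [Pi.mul_apply, dep_sp_disj_z5 hd hv'.1]
    rw [h1, op_mul_smul_z5, hQ z hzA _ rfl, smul_zero]
  · intro A hA
    by_contra hcon
    push Not at hcon
    obtain ⟨z, hz⟩ := exists_isZ hS hA
    obtain ⟨h, hh, hh1⟩ := exists_isV_one hS hA hz
    set j0 : RR hS := ⟨T A h z, T_mem_RR hS hA hh hz⟩ with hj0
    have hj0G : (j0 : Module.End K (Fn W)) ∈ AddSubgroup.closure (GG_z5 𝔅 A) :=
      AddSubgroup.subset_closure ⟨A, h, z, subset_rfl, hA, hh, hz, rfl⟩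
    have hj0ne : MulOpposite.op j0 ≠ 0 := by
      intro h0
      have h1 : j0 = 0 := MulOpposite.op_injective (h0.trans MulOpposite.op_zero.symm)
      have h2 : T A h z = 0 := congrArg Subtype.val h1
      have h3 := congrFun (LinearMap.congr_fun h2 (1 : Fn W)) z
      rw [T_apply, hh1] at h3
      simp at h3
    obtain ⟨w, hw⟩ := hf _ hj0ne
    obtain ⟨a, b, hab, ha0⟩ := hun u _ hu hw
    obtain ⟨r, rfl⟩ := MulOpposite.op_surjective a
    obtain ⟨s, rfl⟩ := MulOpposite.op_surjective b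
    rw [← op_mul_smul_z5] at hab
    obtain ⟨t, ht⟩ := hreg (j0 * s)
    have hmem : ((r * (t * (j0 * s)) : RR hS) : Module.End K (Fn W)) ∈
        AddSubgroup.closure (GG_z5 𝔅 A) := by
      rw [Subring.coe_mul, Subring.coe_mul, Subring.coe_mul]
      exact GG_left_z5 hS r.2 (GG_left_z5 hS t.2 (GG_right_z5 hS s.2 hj0G))
    obtain ⟨r', hr', hr0'⟩ := GG_kill_z5 hS u hA hcon hmem
    have hr'' : r' = r * (t * (j0 * s)) := Subtype.ext hr'
    rw [hr'', op_mul_smul_z5, hab, ← op_mul_smul_z5, ← mul_assoc, ht, ← hab] at hr0'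
    exact ha0 hr0'

/-- the operators supported inside `A` -/
def CA_z5 (𝔅 : Set (Pat W)) (A : Set W) : Set (Module.End K (Fn W)) :=
  {r | ∃ A' v z, A' ⊆ A ∧ IsA 𝔅 A' ∧ IsV 𝔅 A' v ∧ IsZ 𝔅 A' z ∧ r = T A' v z}

omit [LinearOrder W] [WellFoundedLT W] in
theorem CA_mono_z5 {A A' : Set W} (h : A ⊆ A') {x : Module.End K (Fn W)}
    (hx : x ∈ AddSubgroup.closure (CA_z5 𝔅 A)) : x ∈ AddSubgroup.closure (CA_z5 𝔅 A') := by
  refine AddSubgroup.closure_mono ?_ hx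
  rintro _ ⟨A1, v, z, h1, h2⟩
  exact ⟨A1, v, z, h1.trans h, h2⟩

omit [WellFoundedLT W] in
theorem CA_exists_z5 (hS : IsSys 𝔅) {x : Module.End K (Fn W)}
    (hx : x ∈ AddSubgroup.closure (Gen 𝔅)) :
    ∃ A, IsA 𝔅 A ∧ x ∈ AddSubgroup.closure (CA_z5 𝔅 A) := by
  induction hx using AddSubgroup.closure_induction with
  | mem x hx =>
    obtain ⟨A, v, z, hA, hv, hz, rfl⟩ := hx
    exact ⟨A, hA, AddSubgroup.subset_closure ⟨A, v, z, subset_rfl, hA, hv, hz, rfl⟩⟩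
  | zero => exact ⟨∅, isA_finite hS Set.finite_empty, AddSubgroup.zero_mem _⟩
  | add x y _ _ hx hy =>
    obtain ⟨A, hA, hxA⟩ := hx
    obtain ⟨A', hA', hyA⟩ := hy
    exact ⟨A ∪ A', isA_union hS hA hA', AddSubgroup.add_mem _
      (CA_mono_z5 Set.subset_union_left hxA) (CA_mono_z5 Set.subset_union_right hyA)⟩
  | neg x _ hx =>
    obtain ⟨A, hA, hxA⟩ := hx
    exact ⟨A, hA, AddSubgroup.neg_mem _ hxA⟩

omit [WellFoundedLT W] in
theorem CA_apply_z5 (hS : IsSys 𝔅) {A : Set W} (hA : IsA 𝔅 A) {v : Fn W} (hv : IsV 𝔅 A v)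
    (z : W → K) {q : Module.End K (Fn W)} (hq : q ∈ AddSubgroup.closure (CA_z5 𝔅 A)) :
    IsV 𝔅 A (q v) ∧ q * T A v z = T A (q v) z := by
  induction hq using AddSubgroup.closure_induction with
  | mem x hx =>
    obtain ⟨A', v', z', hAA, hA', hv', hz', rfl⟩ := hx
    have e1 : T A' v' z' v = fun s => v' s * v (sp A' z' s) := rfl
    constructor
    · have := isV_comp (z := z') hS hA' hA hv' hv
      rw [Set.union_eq_self_of_subset_left hAA] at this
      rw [e1]; exact this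
    · rw [T_mul, Set.union_eq_self_of_subset_left hAA, e1]
      exact T_congr _ fun i hi => sp_of_mem hi
  | zero =>
    rw [LinearMap.zero_apply]
    exact ⟨isV_zero, by rw [T_zero_z5, zero_mul]⟩
  | add x y _ _ hx hy =>
    rw [LinearMap.add_apply]
    refine ⟨isV_add hS hx.1 hy.1, ?_⟩
    rw [add_mul, hx.2, hy.2, T_add]
  | neg x _ hx =>
    rw [LinearMap.neg_apply]
    constructor
    · have := isV_smul (-1 : K) hx.1
      rwa [neg_smul, one_smul] at this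
    · rw [T_neg_z5, ← hx.2]
      exact neg_mul x _

omit [WellFoundedLT W] in
theorem add_self_z5 {hS : IsSys 𝔅} {U : Type} [AddCommGroup U] [Module (RR hS)ᵐᵒᵖ U]
    (u : U) : u + u = 0 := by
  have h1 : (1 + 1 : RR hS) = 0 := by
    apply Subtype.ext
    refine LinearMap.ext fun φ => funext fun s => ?_
    exact K_add_self (φ s)
  have h2 : (1 + 1 : (RR hS)ᵐᵒᵖ) = 0 := by
    rw [← MulOpposite.op_one, ← MulOpposite.op_add, h1, MulOpposite.op_zero]
  have h3 : u + u = (1 + 1 : (RR hS)ᵐᵒᵖ) • u := by rw [add_smul, one_smul]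
  rw [h3, h2, zero_smul]

omit [LinearOrder W] [WellFoundedLT W] in
theorem dl_dep_z5 (p : W) (i : K) : DepOn ({p} : Set W) (dl p i) := by
  intro s t hst
  unfold dl
  rw [hst p rfl]

theorem kill_rel (hS : IsSys 𝔅) (hreg : ∀ a : RR hS, ∃ x : RR hS, a * x * a = a) {U : Type}
    [AddCommGroup U] [Module (RR hS)ᵐᵒᵖ U]
    (hun : ∀ x y : U, x ≠ 0 → y ≠ 0 → ∃ a b : (RR hS)ᵐᵒᵖ, a • x = b • y ∧ a • x ≠ 0)
    (hf : ∀ a : (RR hS)ᵐᵒᵖ, a ≠ 0 → ∃ x : U, a • x ≠ 0) (u : U) (hu : u ≠ 0) :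
    Rel 𝔅 (Kill hS u) := by
  intro p
  by_cases hk0 : Kill hS u {p} (dl p 0)
  · exact Or.inl hk0
  by_cases hk1 : Kill hS u {p} (dl p 1)
  · exact Or.inr (Or.inl hk1)
  refine Or.inr (Or.inr ?_)
  have hpA : IsA 𝔅 ({p} : Set W) := isA_finite hS (Set.finite_singleton p)
  have hpV : ∀ i : K, IsV 𝔅 ({p} : Set W) (dl p i) := fun i =>
    isV_fin hS (Set.finite_singleton p) (dl_dep_z5 p i)
  have hpZ : IsZ 𝔅 ({p} : Set W) 0 := isZ_fin hS (Set.finite_singleton p) 0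
  set e : K → RR hS := fun i => ⟨T {p} (dl p i) 0, T_mem_RR hS hpA (hpV i) hpZ⟩ with he
  have hu0 : MulOpposite.op (e 0) • u ≠ 0 := fun h =>
    hk0 (kill_of_one_z5 hS u hpA hpZ (e 0) rfl h)
  have hu1 : MulOpposite.op (e 1) • u ≠ 0 := fun h =>
    hk1 (kill_of_one_z5 hS u hpA hpZ (e 1) rfl h)
  obtain ⟨a, b, hab, hy0⟩ := hun _ _ hu0 hu1
  obtain ⟨r, rfl⟩ := MulOpposite.op_surjective a
  obtain ⟨r', rfl⟩ := MulOpposite.op_surjective b
  set y := MulOpposite.op r • MulOpposite.op (e 0) • u with hy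
  obtain ⟨A1, hA1, hr1⟩ := CA_exists_z5 hS r.2
  obtain ⟨A2, hA2, hr2⟩ := CA_exists_z5 hS r'.2
  set A := (A1 ∪ A2) ∪ {p} with hAdef
  have hA : IsA 𝔅 A := isA_union hS (isA_union hS hA1 hA2) hpA
  have hpmem : p ∈ A := Or.inr rfl
  have hrA : (r : Module.End K (Fn W)) ∈ AddSubgroup.closure (CA_z5 𝔅 A) :=
    CA_mono_z5 (Set.subset_union_left.trans Set.subset_union_left) hr1
  have hrA' : (r' : Module.End K (Fn W)) ∈ AddSubgroup.closure (CA_z5 𝔅 A) :=
    CA_mono_z5 (Set.subset_union_right.trans Set.subset_union_left) hr2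
  have heA : ∀ i, (e i : Module.End K (Fn W)) ∈ AddSubgroup.closure (CA_z5 𝔅 A) := fun i =>
    AddSubgroup.subset_closure ⟨{p}, dl p i, 0, Set.subset_union_right, hpA, hpV i, hpZ, rfl⟩
  obtain ⟨v, hv, hnk⟩ := (kill_sys hS hreg hun hf y hy0).non A hA
  unfold Kill at hnk
  push Not at hnk
  obtain ⟨z, hz, r2, hr2T, hr2ne⟩ := hnk
  -- the two functions
  have h1 := CA_apply_z5 hS hA hv z hrA
  have h1' := CA_apply_z5 hS hA hv z hrA'
  have h2 := CA_apply_z5 hS hA h1.1 z (heA 0)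
  have h2' := CA_apply_z5 hS hA h1'.1 z (heA 1)
  set a0 : Fn W := (e 0 : Module.End K (Fn W)) ((r : Module.End K (Fn W)) v) with ha0
  set a1 : Fn W := (e 1 : Module.End K (Fn W)) ((r' : Module.End K (Fn W)) v) with ha1
  have e0eq : (⟨T A a0 z, T_mem_RR hS hA h2.1 hz⟩ : RR hS) = e 0 * r * r2 := by
    apply Subtype.ext
    show T A a0 z = _
    rw [Subring.coe_mul, Subring.coe_mul, hr2T, mul_assoc, h1.2]
    exact h2.2.symm
  have e1eq : (⟨T A a1 z, T_mem_RR hS hA h2'.1 hz⟩ : RR hS) = e 1 * r' * r2 := by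
    apply Subtype.ext
    show T A a1 z = _
    rw [Subring.coe_mul, Subring.coe_mul, hr2T, mul_assoc, h1'.2]
    exact h2'.2.symm
  have k0 : MulOpposite.op (⟨T A a0 z, T_mem_RR hS hA h2.1 hz⟩ : RR hS) • u =
      MulOpposite.op r2 • y := by
    rw [e0eq, op_mul_smul_z5, op_mul_smul_z5]
  have k1 : MulOpposite.op (⟨T A a1 z, T_mem_RR hS hA h2'.1 hz⟩ : RR hS) • u =
      MulOpposite.op r2 • y := by
    rw [e1eq, op_mul_smul_z5, op_mul_smul_z5, ← hab]
  have hρ : dl p 0 * (a0 + a1) = a0 := by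
    funext s
    have ea0 : a0 s = dl p 0 s * (r : Module.End K (Fn W)) v (sp {p} 0 s) := rfl
    have ea1 : a1 s = dl p 1 s * (r' : Module.End K (Fn W)) v (sp {p} 0 s) := rfl
    rw [Pi.mul_apply, Pi.add_apply, ea0, ea1]
    rcases K_cases (s p) with hs | hs
    · have d0 : dl p 0 s = 1 := if_pos hs
      have d1 : dl p 1 s = 0 := if_neg (by rw [hs]; decide)
      rw [d0, d1]; ring
    · have d0 : dl p 0 s = 0 := if_neg (by rw [hs]; decide)
      rw [d0]; ring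
  refine ⟨A, a0 + a1, hA, hpmem, isV_add hS h2.1 h2'.1, ?_, ?_⟩
  · refine kill_of_one_z5 hS u hA hz (⟨T A a0 z, T_mem_RR hS hA h2.1 hz⟩ +
      ⟨T A a1 z, T_mem_RR hS hA h2'.1 hz⟩) ?_ ?_
    · rw [T_add]; rfl
    · rw [MulOpposite.op_add, add_smul, k0, k1, add_self_z5 (hS := hS)]
  · rw [hρ]
    intro hk
    exact hr2ne (k0.symm.trans (hk z hz _ rfl))

theorem kill_push (hS : IsSys 𝔅) {U : Type} [AddCommGroup U] [Module (RR hS)ᵐᵒᵖ U] (u : U)
    {A : Set W} {f : Fn W} (hA : IsA 𝔅 A) (hf : IsV 𝔅 A f) (hk : ¬ Kill hS u A f) :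
    ∃ u' : U, u' ≠ 0 ∧ ∀ A' v', IsA 𝔅 A' → Disjoint A A' → IsV 𝔅 A' v' →
      Kill hS u (A ∪ A') (f * v') → Kill hS u' A' v' := by
  unfold Kill at hk
  push Not at hk
  obtain ⟨z1, hz1, r, hr, hne⟩ := hk
  refine ⟨_, hne, ?_⟩
  intro A' v' hA' hd hv' hQ z hz r' hr'
  rw [← op_mul_smul_z5]
  refine hQ (sp A' z z1) (isZ_glue hS hA' hz1 hz) _ ?_
  rw [Subring.coe_mul, hr, hr', T_mul]
  congr 1
  funext s
  rw [Pi.mul_apply, dep_sp_disj_z5 hd hv'.1]

end RightTargets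

end Pool.Agent.Helper513.ZgT0
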