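import Pool.Agent.Helper513.ZgT0.Sep

set_option autoImplicit false

namespace Pool.Agent.Helper513.ZgT0

/-! ### The ring -/

section RingDef

variable {W : Type}

/-- The operator `φ ↦ (s ↦ v s * φ (s with its A-part replaced by z))`. -/
noncomputable def T (A : Set W) (v : Fn W) (z : W → K) : Module.End K (Fn W) where
  toFun φ := fun s => v s * φ (sp A z s)
  map_add' φ ψ := by
    funext s
    simp only [Pi.add_apply, mul_add]
  map_smul' c φ := by
    funext s
    simp only [Pi.smul_apply, smul_eq_mul, RingHom.id_apply]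
    ring

theorem T_apply (A : Set W) (v : Fn W) (z : W → K) (φ : Fn W) (s : W → K) :
    T A v z φ s = v s * φ (sp A z s) := rfl

theorem T_mul (A A' : Set W) (v v' : Fn W) (z z' : W → K) :
    T A v z * T A' v' z' = T (A ∪ A') (fun s => v s * v' (sp A z s)) (sp A' z' z) := by
  refine LinearMap.ext fun φ => funext fun s => ?_
  rw [Module.End.mul_apply, T_apply, T_apply, T_apply, sp_sp, Set.union_comm, mul_assoc]

theorem T_add (A : Set W) (v v' : Fn W) (z : W → K) : T A (v + v') z = T A v z + T A v' z := by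
  refine LinearMap.ext fun φ => funext fun s => ?_
  rw [LinearMap.add_apply, Pi.add_apply, T_apply, T_apply, T_apply, Pi.add_apply, add_mul]

theorem T_empty (z : W → K) : T ∅ 1 z = 1 := by
  refine LinearMap.ext fun φ => funext fun s => ?_
  have h : sp ∅ z s = s := funext fun i => sp_of_notMem (Set.notMem_empty i)
  rw [T_apply, Pi.one_apply, one_mul, Module.End.one_apply, h]

/-- `T A v z` only depends on the values of `z` on `A`. -/
theorem T_congr {A : Set W} (v : Fn W) {z z' : W → K} (h : ∀ i ∈ A, z i = z' i) :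
    T A v z = T A v z' := by
  refine LinearMap.ext fun φ => funext fun s => ?_
  have : sp A z s = sp A z' s := by
    funext i
    by_cases hi : i ∈ A
    · rw [sp_of_mem hi, sp_of_mem hi, h i hi]
    · rw [sp_of_notMem hi, sp_of_notMem hi]
  rw [T_apply, T_apply, this]

/-- Bilinear induction for products. -/
theorem mul_mem_of {s t : Set (Module.End K (Fn W))} {G : AddSubgroup (Module.End K (Fn W))}
    (h : ∀ a ∈ s, ∀ b ∈ t, a * b ∈ G) {a b : Module.End K (Fn W)}
    (ha : a ∈ AddSubgroup.closure s) (hb : b ∈ AddSubgroup.closure t) : a * b ∈ G := by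
  induction ha using AddSubgroup.closure_induction with
  | mem a ha =>
    induction hb using AddSubgroup.closure_induction with
    | mem b hb => exact h a ha b hb
    | zero => rw [mul_zero]; exact G.zero_mem
    | add x y _ _ hx hy => rw [mul_add]; exact G.add_mem hx hy
    | neg x _ hx =>
      have e : a * -x = -(a * x) := mul_neg a x
      rw [e]
      exact G.neg_mem hx
  | zero => rw [zero_mul]; exact G.zero_mem
  | add x y _ _ hx hy => rw [add_mul]; exact G.add_mem hx hy
  | neg x _ hx =>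
    have e : -x * b = -(x * b) := neg_mul x b
    rw [e]
    exact G.neg_mem hx

/-- The generators of the ring. -/
def Gen (𝔅 : Set (Pat W)) : Set (Module.End K (Fn W)) :=
  {r | ∃ A v z, IsA 𝔅 A ∧ IsV 𝔅 A v ∧ IsZ 𝔅 A z ∧ r = T A v z}

/-- The sums of the operators supported exactly on `A`. -/
def LA (𝔅 : Set (Pat W)) (A : Set W) : AddSubgroup (Module.End K (Fn W)) :=
  AddSubgroup.closure {r | ∃ v z, IsV 𝔅 A v ∧ IsZ 𝔅 A z ∧ r = T A v z}

end RingDef

section RingDef2

variable {W : Type} [LinearOrder W] {𝔅 : Set (Pat W)}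

theorem isV_comp (hS : IsSys 𝔅) {A A' : Set W} {v v' : Fn W} {z : W → K} (hA : IsA 𝔅 A)
    (hA' : IsA 𝔅 A') (hv : IsV 𝔅 A v) (hv' : IsV 𝔅 A' v') :
    IsV 𝔅 (A ∪ A') (fun s => v s * v' (sp A z s)) := by
  have h1 := isV_mul hS hA (isA_diff hS hA' hA) Set.disjoint_sdiff_right hv (isV_spec hS hv' z)
  rw [Set.union_sdiff_self] at h1
  exact h1

theorem Gen_mul (hS : IsSys 𝔅) {a b : Module.End K (Fn W)} (ha : a ∈ Gen 𝔅) (hb : b ∈ Gen 𝔅) :
    a * b ∈ Gen 𝔅 := by
  obtain ⟨A, v, z, hA, hv, hz, rfl⟩ := ha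
  obtain ⟨A', v', z', hA', hv', hz', rfl⟩ := hb
  exact ⟨A ∪ A', _, _, isA_union hS hA hA', isV_comp hS hA hA' hv hv', isZ_glue hS hA' hz hz',
    T_mul A A' v v' z z'⟩

theorem one_mem_Gen (hS : IsSys 𝔅) : (1 : Module.End K (Fn W)) ∈ Gen 𝔅 :=
  ⟨∅, 1, 0, isA_finite hS Set.finite_empty, isV_fin hS Set.finite_empty (fun _ _ _ => rfl),
    isZ_fin hS Set.finite_empty 0, (T_empty 0).symm⟩

/-- The ring. -/
def RR (hS : IsSys 𝔅) : Subring (Module.End K (Fn W)) where
  carrier := AddSubgroup.closure (Gen 𝔅)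
  mul_mem' := fun ha hb =>
    mul_mem_of (fun _ ha _ hb => AddSubgroup.subset_closure (Gen_mul hS ha hb)) ha hb
  one_mem' := AddSubgroup.subset_closure (one_mem_Gen hS)
  add_mem' := fun ha hb => (AddSubgroup.closure (Gen 𝔅)).add_mem ha hb
  zero_mem' := (AddSubgroup.closure (Gen 𝔅)).zero_mem
  neg_mem' := fun ha => (AddSubgroup.closure (Gen 𝔅)).neg_mem ha

theorem mem_RR {hS : IsSys 𝔅} {r : Module.End K (Fn W)} :
    r ∈ RR hS ↔ r ∈ AddSubgroup.closure (Gen 𝔅) := Iff.rfl

theorem T_mem_RR (hS : IsSys 𝔅) {A : Set W} {v : Fn W} {z : W → K} (hA : IsA 𝔅 A)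
    (hv : IsV 𝔅 A v) (hz : IsZ 𝔅 A z) : T A v z ∈ RR hS :=
  AddSubgroup.subset_closure ⟨A, v, z, hA, hv, hz, rfl⟩

end RingDef2

end Pool.Agent.Helper513.ZgT0
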