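import Pool.Agent.Helper513.ZgT0.VZ

set_option autoImplicit false

namespace Pool.Agent.Helper513.ZgT0

/-! ### Separation and decomposition -/

section Sep

variable {W : Type} [LinearOrder W] [WellFoundedLT W] {𝔅 : Set (Pat W)}

omit [LinearOrder W] [WellFoundedLT W] in
theorem z3c_diff_union {A T : Set W} (h : T ⊆ A) : (A \ T) ∪ T = A := by
  rw [Set.diff_union_self, Set.union_eq_left.2 h]

theorem exists_isV_one (hS : IsSys 𝔅) {A : Set W} (hA : IsA 𝔅 A) {z : W → K} (hz : IsZ 𝔅 A z) :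
    ∃ h, IsV 𝔅 A h ∧ h z = 1 := by
  classical
  revert z
  refine isA_induction hS (fun A => ∀ {z : W → K}, IsZ 𝔅 A z → ∃ h, IsV 𝔅 A h ∧ h z = 1) ?_ ?_ A hA
  · intro A hfin z _
    refine ⟨fun s => if ∀ i ∈ A, s i = z i then 1 else 0, isV_fin hS hfin ?_, ?_⟩
    · intro s t hst
      have h1 : (∀ i ∈ A, s i = z i) ↔ (∀ i ∈ A, t i = z i) :=
        forall₂_congr fun i hi => by rw [hst i hi]
      simp only [h1]
    · simp
  · intro A B m hA hB hm ih z hz
    obtain ⟨m1, hm1⟩ := hz B hB ⟨m, hm⟩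
    have hsub : B.tail (max m m1) ⊆ A := (tail_anti B (le_max_left _ _)).trans hm
    obtain ⟨h', hh', hz'⟩ := ih (max m m1) (le_max_left _ _) (isZ_mono Set.diff_subset hz)
    refine ⟨h' * B.t (max m m1), ?_, ?_⟩
    · have h1 := isV_mul hS (isA_diff hS hA (isA_tail hS hB (max m m1))) (isA_tail hS hB (max m m1))
        Set.disjoint_sdiff_left hh' (isV_t hS hB (max m m1))
      rwa [z3c_diff_union hsub] at h1
    · show h' z * B.t (max m m1) z = 1
      rw [hz', t_of_eq hS hB (fun i hi => hm1 i (tail_anti B (le_max_right _ _) hi)), one_mul]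

theorem exists_isZ (hS : IsSys 𝔅) {A : Set W} (hA : IsA 𝔅 A) : ∃ z, IsZ 𝔅 A z := by
  refine isA_induction hS (fun A => ∃ z, IsZ 𝔅 A z) ?_ ?_ A hA
  · intro A hfin
    exact ⟨0, isZ_fin hS hfin 0⟩
  · intro A B m _ hB hm ih
    obtain ⟨z', hz'⟩ := ih m le_rfl
    refine ⟨sp (B.tail m) B.z z', ?_⟩
    have h1 := isZ_glue hS (isA_tail hS hB m) hz' (isZ_tail hS hB m)
    rwa [z3c_diff_union hm] at h1

/-- Sums of admissible functions on subsets of `A`. -/
def MS (𝔅 : Set (Pat W)) (A : Set W) : AddSubgroup (Fn W) :=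
  AddSubgroup.closure {v | ∃ A', A' ⊆ A ∧ IsA 𝔅 A' ∧ IsV 𝔅 A' v}

theorem MS_dep {A : Set W} {φ : Fn W} (hφ : φ ∈ MS 𝔅 A) : DepOn A φ := by
  unfold MS at hφ
  induction hφ using AddSubgroup.closure_induction with
  | mem v hv =>
    obtain ⟨A', hA', -, hv'⟩ := hv
    exact hv'.1.mono hA'
  | zero => exact fun _ _ _ => rfl
  | add x y _ _ hx hy =>
    intro s t hst
    show x s + y s = x t + y t
    rw [hx s t hst, hy s t hst]
  | neg x _ hx =>
    intro s t hst
    show -(x s) = -(x t)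
    rw [hx s t hst]

theorem z3c_mem {A A' : Set W} {v : Fn W} (h : A' ⊆ A) (hA' : IsA 𝔅 A') (hv : IsV 𝔅 A' v) :
    v ∈ MS 𝔅 A := AddSubgroup.subset_closure ⟨A', h, hA', hv⟩

theorem z3c_decomp (hS : IsSys 𝔅) {A : Set W} {B : Pat W} (hB : B ∈ 𝔅)
    {φ : Fn W} (hφ : φ ∈ MS 𝔅 A) : ∃ m1, ∀ m', m1 ≤ m' → ∃ α β : Fn W,
      α ∈ MS 𝔅 (A \ B.tail m') ∧ β ∈ MS 𝔅 (A \ B.tail m') ∧
      ∀ s, φ s = α s * B.t m' s + β s := by
  unfold MS at hφ
  induction hφ using AddSubgroup.closure_induction with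
  | mem v hv =>
    obtain ⟨A', hA', hAA, hv'⟩ := hv
    rcases hAA.dich hB with ⟨m2, hm2⟩ | ⟨m2, hm2⟩
    · obtain ⟨m3, -, hm3⟩ := hv'.2 B hB ⟨m2, hm2 m2 le_rfl⟩
      refine ⟨m3, fun m' hm' => ?_⟩
      refine ⟨fun s => v (sp (B.tail m') B.z s), 0, ?_, zero_mem _, ?_⟩
      · exact z3c_mem (Set.diff_subset_diff_left hA') (isA_diff hS hAA (isA_tail hS hB m'))
          (isV_spec hS hv' B.z)
      · intro s
        have := V_shift hS hB hm' hm3 s
        rw [Pi.zero_apply, add_zero]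
        exact this
    · refine ⟨m2, fun m' hm' => ⟨0, v, zero_mem _, ?_, ?_⟩⟩
      · refine z3c_mem ?_ hAA hv'
        intro i hi
        exact ⟨hA' hi, fun h => Set.disjoint_left.1 (hm2 m' hm') h hi⟩
      · intro s
        rw [Pi.zero_apply, zero_mul, zero_add]
  | zero =>
    refine ⟨0, fun m' _ => ⟨0, 0, zero_mem _, zero_mem _, fun s => ?_⟩⟩
    simp
  | add x y _ _ hx hy =>
    obtain ⟨m1, h1⟩ := hx
    obtain ⟨m2, h2⟩ := hy
    refine ⟨max m1 m2, fun m' hm' => ?_⟩
    obtain ⟨α1, β1, a1, b1, e1⟩ := h1 m' ((le_max_left _ _).trans hm')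
    obtain ⟨α2, β2, a2, b2, e2⟩ := h2 m' ((le_max_right _ _).trans hm')
    refine ⟨α1 + α2, β1 + β2, add_mem a1 a2, add_mem b1 b2, fun s => ?_⟩
    rw [Pi.add_apply, Pi.add_apply, Pi.add_apply, e1 s, e2 s]
    ring
  | neg x _ hx =>
    obtain ⟨m1, h1⟩ := hx
    refine ⟨m1, fun m' hm' => ?_⟩
    obtain ⟨α1, β1, a1, b1, e1⟩ := h1 m' hm'
    refine ⟨-α1, -β1, neg_mem a1, neg_mem b1, fun s => ?_⟩
    rw [Pi.neg_apply, Pi.neg_apply, Pi.neg_apply, e1 s]
    ring

theorem MS_sep (hS : IsSys 𝔅) {A : Set W} (hA : IsA 𝔅 A) {φ : Fn W} (hφ : φ ∈ MS 𝔅 A)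
    (h0 : φ ≠ 0) : ∃ z, IsZ 𝔅 A z ∧ φ z = 1 := by
  revert φ
  refine isA_induction hS (fun A => ∀ {φ : Fn W}, φ ∈ MS 𝔅 A → φ ≠ 0 →
    ∃ z, IsZ 𝔅 A z ∧ φ z = 1) ?_ ?_ A hA
  · intro A hfin φ _ h0
    obtain ⟨s, hs⟩ := Function.ne_iff.1 h0
    exact ⟨s, isZ_fin hS hfin s, K_ne_zero hs⟩
  · intro A B m _ hB hm ih φ hφ h0
    obtain ⟨m1, hm1⟩ := z3c_decomp hS hB hφ
    obtain ⟨α, β, hα, hβ, he⟩ := hm1 (max m m1) (le_max_right _ _)
    have hsub : B.tail (max m m1) ⊆ A := (tail_anti B (le_max_left _ _)).trans hm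
    set M := max m m1 with hM
    have hglue : ∀ z', IsZ 𝔅 (A \ B.tail M) z' → IsZ 𝔅 A (sp (B.tail M) B.z z') := by
      intro z' hz'
      have h1 := isZ_glue hS (isA_tail hS hB M) hz' (isZ_tail hS hB M)
      rwa [z3c_diff_union hsub] at h1
    by_cases hab : α + β = 0
    · have hβα : ∀ s, β s = α s := by
        intro s
        have h1 : α s + β s = 0 := congrFun hab s
        have h2 := K_add_self (α s)
        have h3 : α s + β s = α s + α s := by rw [h1, h2]
        exact add_left_cancel h3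
      obtain ⟨s0, hs0⟩ := Function.ne_iff.1 h0
      have hα0 : α ≠ 0 := by
        intro h
        apply hs0
        rw [he s0, hβα s0, h]
        simp
      have ht0 : B.t M s0 = 0 := by
        rcases K_cases (B.t M s0) with h | h
        · exact h
        · exfalso
          apply hs0
          rw [he s0, hβα s0, h, mul_one, K_add_self]
          rfl
      obtain ⟨n, hn, hDn⟩ := (t_eq_zero_iff B M s0).1 ht0
      have hgood := good_C hS hB n
      obtain ⟨y, hyZ, hy0⟩ : ∃ y, IsZ 𝔅 (B.C n) y ∧ B.D n y = 0 := by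
        rcases hgood.zero with h | h
        · exfalso
          have := h s0
          rw [hDn] at this
          exact zero_ne_one this
        · exact h
      obtain ⟨z', hz', hαz⟩ := ih M (le_max_left _ _) hα hα0
      have hCT : B.C n ⊆ B.tail M := C_sub_tail B hn
      refine ⟨sp (B.C n) y (sp (B.tail M) B.z z'), ?_, ?_⟩
      · have h1 := isZ_glue hS hgood.isA (hglue z' hz') hyZ
        rwa [Set.union_eq_left.2 (hCT.trans hsub)] at h1
      · have h1 : B.D n (sp (B.C n) y (sp (B.tail M) B.z z')) = 0 := by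
          rw [← hy0]
          exact hgood.isV.1 _ _ fun i hi => sp_of_mem hi
        have h2 : B.t M (sp (B.C n) y (sp (B.tail M) B.z z')) = 0 :=
          (t_eq_zero_iff B M _).2 ⟨n, hn, h1⟩
        have h3 : α (sp (B.C n) y (sp (B.tail M) B.z z')) = α z' := by
          refine MS_dep hα _ _ fun i hi => ?_
          rw [sp_of_notMem (fun h => hi.2 (hCT h)), sp_of_notMem hi.2]
        rw [he, hβα, h2, h3, hαz]
        simp
    · obtain ⟨z', hz', habz⟩ := ih M (le_max_left _ _) (add_mem hα hβ) hab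
      refine ⟨sp (B.tail M) B.z z', hglue z' hz', ?_⟩
      have h1 : B.t M (sp (B.tail M) B.z z') = 1 := t_of_eq hS hB fun i hi => sp_of_mem hi
      have h2 : α (sp (B.tail M) B.z z') = α z' :=
        MS_dep hα _ _ fun i hi => sp_of_notMem hi.2
      have h3 : β (sp (B.tail M) B.z z') = β z' :=
        MS_dep hβ _ _ fun i hi => sp_of_notMem hi.2
      rw [he, h1, h2, h3, mul_one]
      exact habz

theorem isV_sep (hS : IsSys 𝔅) {A : Set W} (hA : IsA 𝔅 A) {v : Fn W} (hv : IsV 𝔅 A v)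
    (h0 : v ≠ 0) : ∃ z, IsZ 𝔅 A z ∧ v z = 1 :=
  MS_sep hS hA (z3c_mem Set.Subset.rfl hA hv) h0

/-- the subgroup generated by the products -/
def z3cG (𝔅 : Set (Pat W)) (A A' : Set W) : AddSubgroup (Fn W) :=
  AddSubgroup.closure {w : Fn W | ∃ f g, IsV 𝔅 A f ∧ IsV 𝔅 A' g ∧ w = f * g}

theorem z3cG_mul {A A' A1 A1' : Set W} (t : Fn W)
    (h : ∀ f g, IsV 𝔅 A f → IsV 𝔅 A' g → f * g * t ∈ z3cG 𝔅 A1 A1') {x : Fn W}
    (hx : x ∈ z3cG 𝔅 A A') : x * t ∈ z3cG 𝔅 A1 A1' := by
  unfold z3cG at hx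
  induction hx using AddSubgroup.closure_induction with
  | mem w hw =>
    obtain ⟨f, g, hf, hg, rfl⟩ := hw
    exact h f g hf hg
  | zero =>
    rw [zero_mul]
    exact zero_mem _
  | add a b _ _ ha hb =>
    rw [add_mul]
    exact add_mem ha hb
  | neg a _ ha =>
    rw [neg_mul]
    exact neg_mem ha

theorem z3c_prod_fin (hS : IsSys 𝔅) {A A' : Set W} (hfA : A.Finite) (hfA' : A'.Finite)
    {v : Fn W} (hv : DepOn (A ∪ A') v) : v ∈ z3cG 𝔅 A A' := by
  classical
  haveI : Fintype A := hfA.fintype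
  let ext : (A → K) → W → K := fun y i => if h : i ∈ A then y ⟨i, h⟩ else 0
  have hext : ∀ y (i : A), ext y i = y i := by
    intro y i
    have : (if h : (i : W) ∈ A then y ⟨i, h⟩ else 0) = y i := by
      rw [dif_pos i.2]
    exact this
  let f : (A → K) → Fn W := fun y s => if ∀ i : A, s i = y i then 1 else 0
  let g : (A → K) → Fn W := fun y s => v (sp A (ext y) s)
  have hf : ∀ y, IsV 𝔅 A (f y) := by
    intro y
    refine isV_fin hS hfA ?_
    intro s t hst
    have h1 : (∀ i : A, s i = y i) ↔ (∀ i : A, t i = y i) :=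
      forall_congr' fun i => by rw [hst i i.2]
    show (if ∀ i : A, s i = y i then (1 : K) else 0) = if ∀ i : A, t i = y i then 1 else 0
    simp only [h1]
  have hg : ∀ y, IsV 𝔅 A' (g y) := by
    intro y
    refine isV_fin hS hfA' ?_
    intro s t hst
    refine hv _ _ fun i hi => ?_
    by_cases hiA : i ∈ A
    · rw [sp_of_mem hiA, sp_of_mem hiA]
    · rw [sp_of_notMem hiA, sp_of_notMem hiA]
      exact hst i (hi.resolve_left hiA)
  have hsum : v = ∑ y, f y * g y := by
    funext s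
    rw [Finset.sum_apply, Finset.sum_eq_single (fun i : A => s i)]
    · show v s = (if ∀ i : A, s i = s i then (1 : K) else 0) * v (sp A (ext fun i : A => s i) s)
      rw [if_pos (fun _ => rfl), one_mul]
      congr 1
      funext i
      by_cases hiA : i ∈ A
      · rw [sp_of_mem hiA]
        exact (hext (fun i : A => s i) ⟨i, hiA⟩).symm
      · rw [sp_of_notMem hiA]
    · intro y _ hy
      show (if ∀ i : A, s i = y i then (1 : K) else 0) * _ = 0
      rw [if_neg, zero_mul]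
      intro h
      exact hy (funext fun i => (h i).symm)
    · intro h
      exact absurd (Finset.mem_univ _) h
  rw [hsum]
  exact sum_mem fun y _ => AddSubgroup.subset_closure ⟨f y, g y, hf y, hg y, rfl⟩

/-- An admissible function on a disjoint union is a sum of products. -/
theorem isV_prod (hS : IsSys 𝔅) {A A' : Set W} (hA : IsA 𝔅 A) (hA' : IsA 𝔅 A')
    (hd : Disjoint A A') {v : Fn W} (hv : IsV 𝔅 (A ∪ A') v) :
    v ∈ AddSubgroup.closure {w : Fn W | ∃ f g, IsV 𝔅 A f ∧ IsV 𝔅 A' g ∧ w = f * g} := by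
  have main : ∀ A0 : Set W, IsA 𝔅 A0 → ∀ A A' : Set W, IsA 𝔅 A → IsA 𝔅 A' → Disjoint A A' →
      A ∪ A' = A0 → ∀ v, IsV 𝔅 (A ∪ A') v → v ∈ z3cG 𝔅 A A' := by
    refine isA_induction hS (fun A0 => ∀ A A' : Set W, IsA 𝔅 A → IsA 𝔅 A' → Disjoint A A' →
      A ∪ A' = A0 → ∀ v, IsV 𝔅 (A ∪ A') v → v ∈ z3cG 𝔅 A A') ?_ ?_
    · intro A0 hfin A A' _ _ _ hu v hv
      have h1 : A.Finite := hfin.subset (by rw [← hu]; exact Set.subset_union_left)
      have h2 : A'.Finite := hfin.subset (by rw [← hu]; exact Set.subset_union_right)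
      exact z3c_prod_fin hS h1 h2 hv.1
    · intro A0 B m _ hB hm ih A A' hA hA' hd hu v hv
      obtain ⟨m1, -, hm1⟩ := hv.2 B hB ⟨m, by rw [hu]; exact hm⟩
      rcases hA.dich hB with ⟨m2, hm2⟩ | ⟨m2, hm2⟩
      · set M := max m (max m1 m2) with hM
        have hMm : m ≤ M := le_max_left _ _
        have hMm1 : m1 ≤ M := (le_max_left _ _).trans (le_max_right _ _)
        have hMm2 : m2 ≤ M := (le_max_right _ _).trans (le_max_right _ _)
        have hTA : B.tail M ⊆ A := hm2 M hMm2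
        have hform := V_shift hS hB hMm1 hm1
        have hw := isV_spec (A := B.tail M) hS hv B.z
        have hTA' : ∀ i ∈ A', i ∉ B.tail M := fun i hi h =>
          Set.disjoint_left.1 hd (hTA h) hi
        have hset : (A ∪ A') \ B.tail M = (A \ B.tail M) ∪ A' := by
          ext i
          constructor
          · rintro ⟨h1 | h1, h2⟩
            · exact Or.inl ⟨h1, h2⟩
            · exact Or.inr h1
          · rintro (h1 | h1)
            · exact ⟨Or.inl h1.1, h1.2⟩
            · exact ⟨Or.inr h1, hTA' i h1⟩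
        rw [hset] at hw
        have h3 := ih M hMm (A \ B.tail M) A' (isA_diff hS hA (isA_tail hS hB M)) hA'
          (hd.mono_left Set.diff_subset) (by rw [← hset, hu]) _ hw
        have h4 : v = (fun s => v (sp (B.tail M) B.z s)) * B.t M := funext hform
        rw [h4]
        refine z3cG_mul (B.t M) ?_ h3
        intro f g hf hg
        refine AddSubgroup.subset_closure ⟨f * B.t M, g, ?_, hg, by ring⟩
        have h5 := isV_mul hS (isA_diff hS hA (isA_tail hS hB M)) (isA_tail hS hB M)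
          Set.disjoint_sdiff_left hf (isV_t hS hB M)
        rwa [z3c_diff_union hTA] at h5
      · set M := max m (max m1 m2) with hM
        have hMm : m ≤ M := le_max_left _ _
        have hMm1 : m1 ≤ M := (le_max_left _ _).trans (le_max_right _ _)
        have hMm2 : m2 ≤ M := (le_max_right _ _).trans (le_max_right _ _)
        have hTA' : B.tail M ⊆ A' := by
          intro i hi
          have h1 : i ∈ A ∪ A' := by
            rw [hu]
            exact hm (tail_anti B hMm hi)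
          exact h1.resolve_left fun h => Set.disjoint_left.1 (hm2 M hMm2) hi h
        have hform := V_shift hS hB hMm1 hm1
        have hw := isV_spec (A := B.tail M) hS hv B.z
        have hset : (A ∪ A') \ B.tail M = A ∪ (A' \ B.tail M) := by
          ext i
          constructor
          · rintro ⟨h1 | h1, h2⟩
            · exact Or.inl h1
            · exact Or.inr ⟨h1, h2⟩
          · rintro (h1 | h1)
            · exact ⟨Or.inl h1, fun h => Set.disjoint_left.1 (hm2 M hMm2) h h1⟩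
            · exact ⟨Or.inr h1.1, h1.2⟩
        rw [hset] at hw
        have h3 := ih M hMm A (A' \ B.tail M) hA (isA_diff hS hA' (isA_tail hS hB M))
          (hd.mono_right Set.diff_subset) (by rw [← hset, hu]) _ hw
        have h4 : v = (fun s => v (sp (B.tail M) B.z s)) * B.t M := funext hform
        rw [h4]
        refine z3cG_mul (B.t M) ?_ h3
        intro f g hf hg
        refine AddSubgroup.subset_closure ⟨f, g * B.t M, hf, ?_, by ring⟩
        have h5 := isV_mul hS (isA_diff hS hA' (isA_tail hS hB M)) (isA_tail hS hB M)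
          Set.disjoint_sdiff_left hg (isV_t hS hB M)
        rwa [z3c_diff_union hTA'] at h5
  exact main _ (isA_union hS hA hA') A A' hA hA' hd rfl v hv

/-- Separation of finitely many points. -/
theorem sep_finite (hS : IsSys 𝔅) {A : Set W} (hA : IsA 𝔅 A) (Y : Finset (W → K))
    (hY : ∀ y ∈ Y, IsZ 𝔅 A y) (y : W → K) (hy : y ∈ Y)
    (hne : ∀ y' ∈ Y, y' ≠ y → ∃ i ∈ A, y i ≠ y' i) :
    ∃ h, IsV 𝔅 A h ∧ h y = 1 ∧ ∀ y' ∈ Y, y' ≠ y → h y' = 0 := by
  classical
  obtain ⟨F, hFA, hFs⟩ : ∃ F : Finset W, (F : Set W) ⊆ A ∧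
      ∀ y' ∈ Y, y' ≠ y → ∃ i ∈ F, y i ≠ y' i := by
    clear hY hy
    induction Y using Finset.induction_on with
    | empty => exact ⟨∅, by simp, by simp⟩
    | insert a Y' haY ihY =>
      obtain ⟨F, hF1, hF2⟩ := ihY (fun y' hy' => hne y' (Finset.mem_insert_of_mem hy'))
      by_cases hay : a = y
      · refine ⟨F, hF1, ?_⟩
        intro y' hy' hne'
        rcases Finset.mem_insert.1 hy' with h | h
        · exact absurd (h.trans hay) hne'
        · exact hF2 y' h hne'
      · obtain ⟨i, hiA, hi⟩ := hne a (Finset.mem_insert_self a Y') hay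
        refine ⟨insert i F, ?_, ?_⟩
        · intro j hj
          rcases Finset.mem_insert.1 (Finset.mem_coe.1 hj) with h | h
          · exact h ▸ hiA
          · exact hF1 (Finset.mem_coe.2 h)
        · intro y' hy' hne'
          rcases Finset.mem_insert.1 hy' with h | h
          · exact ⟨i, Finset.mem_insert_self i F, h ▸ hi⟩
          · obtain ⟨j, hj, hj'⟩ := hF2 y' h hne'
            exact ⟨j, Finset.mem_insert_of_mem hj, hj'⟩
  have hFfin : (F : Set W).Finite := F.finite_toSet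
  obtain ⟨h0, hh0, hy0⟩ := exists_isV_one hS (isA_diff hS hA (isA_finite hS hFfin))
    (isZ_mono Set.diff_subset (hY y hy))
  obtain ⟨w, hw⟩ : ∃ w : Fn W, ∀ s, ((∀ i ∈ (F : Set W), s i = y i) → w s = 1) ∧
      (¬ (∀ i ∈ (F : Set W), s i = y i) → w s = 0) :=
    ⟨fun s => if ∀ i ∈ (F : Set W), s i = y i then (1 : K) else 0,
      fun s => ⟨fun h => if_pos h, fun h => if_neg h⟩⟩
  have hwV : IsV 𝔅 (F : Set W) w := by
    refine isV_fin hS hFfin ?_
    intro s t hst
    have h1 : (∀ i ∈ (F : Set W), s i = y i) ↔ (∀ i ∈ (F : Set W), t i = y i) :=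
      forall₂_congr fun i hi => by rw [hst i hi]
    by_cases h2 : ∀ i ∈ (F : Set W), s i = y i
    · rw [(hw s).1 h2, (hw t).1 (h1.1 h2)]
    · rw [(hw s).2 h2, (hw t).2 (fun h3 => h2 (h1.2 h3))]
  refine ⟨h0 * w, ?_, ?_, ?_⟩
  · have h1 := isV_mul hS (isA_diff hS hA (isA_finite hS hFfin)) (isA_finite hS hFfin)
      Set.disjoint_sdiff_left hh0 hwV
    rwa [z3c_diff_union hFA] at h1
  · rw [Pi.mul_apply, (hw y).1 (fun _ _ => rfl), hy0, one_mul]
  · intro y' hy' hne'
    obtain ⟨i, hi, hi'⟩ := hFs y' hy' hne'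
    rw [Pi.mul_apply, (hw y').2 (fun h => hi' (h i (Finset.mem_coe.2 hi)).symm), mul_zero]

end Sep

end Pool.Agent.Helper513.ZgT0
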