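import Pool.Agent.Helper513.ZgT0.Base

set_option autoImplicit false

namespace Pool.Agent.Helper513.ZgT0

section Sets

variable {W : Type} [LinearOrder W] {𝔅 : Set (Pat W)}

theorem lad_le_of_mem_tail (hS : IsSys 𝔅) {B : Pat W} (hB : B ∈ 𝔅) {m : ℕ} {i : W}
    (hi : i ∈ B.tail m) : B.lad m ≤ i := by
  obtain ⟨n, hn, hi⟩ := hi
  exact ((hS.lad_mono B hB).monotone hn).trans (hS.C_sub B hB n hi).1

theorem lt_top_of_mem_tail (hS : IsSys 𝔅) {B : Pat W} (hB : B ∈ 𝔅) {m : ℕ} {i : W}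
    (hi : i ∈ B.tail m) : i < B.top := by
  obtain ⟨n, hn, hi⟩ := hi
  exact (hS.C_sub B hB n hi).2.trans (hS.lad_lt B hB (n + 1))

theorem C_disjoint (hS : IsSys 𝔅) {B : Pat W} (hB : B ∈ 𝔅) {n n' : ℕ} (h : n ≠ n') :
    Disjoint (B.C n) (B.C n') := by
  rw [Set.disjoint_left]
  intro i h1 h2
  have a := hS.C_sub B hB n h1
  have b := hS.C_sub B hB n' h2
  rcases lt_or_gt_of_ne h with h | h
  · have hle : B.lad (n + 1) ≤ B.lad n' := (hS.lad_mono B hB).monotone h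
    exact lt_irrefl _ (a.2.trans_le (hle.trans b.1))
  · have hle : B.lad (n' + 1) ≤ B.lad n := (hS.lad_mono B hB).monotone h
    exact lt_irrefl _ (b.2.trans_le (hle.trans a.1))

theorem C_disjoint_tail (hS : IsSys 𝔅) {B : Pat W} (hB : B ∈ 𝔅) {n m : ℕ} (h : n < m) :
    Disjoint (B.C n) (B.tail m) := by
  rw [Set.disjoint_left]
  intro i h1 h2
  have a := hS.C_sub B hB n h1
  have b := lad_le_of_mem_tail hS hB h2
  have hle : B.lad (n + 1) ≤ B.lad m := (hS.lad_mono B hB).monotone h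
  exact lt_irrefl _ (a.2.trans_le (hle.trans b))

theorem tail_nonempty (hS : IsSys 𝔅) {B : Pat W} (hB : B ∈ 𝔅) (m : ℕ) : (B.tail m).Nonempty := by
  obtain ⟨i, hi⟩ := (hS.good B hB m).ne
  exact ⟨i, m, le_rfl, hi⟩

theorem tail_succ (B : Pat W) (m : ℕ) : B.tail m = B.C m ∪ B.tail (m + 1) := by
  ext i
  constructor
  · rintro ⟨n, hn, hi⟩
    rcases hn.eq_or_lt with h | h
    · left
      rw [h]
      exact hi
    · right
      exact ⟨n, h, hi⟩
  · rintro (hi | hi)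
    · exact ⟨m, le_rfl, hi⟩
    · exact tail_anti B (Nat.le_succ m) hi

theorem disj_high (hS : IsSys 𝔅) {B : Pat W} (hB : B ∈ 𝔅) {A : Set W} {x : W}
    (hA : A ⊆ Set.Iio x) (hx : x < B.top) : ∃ m, Disjoint (B.tail m) A := by
  obtain ⟨m, hm⟩ := hS.lad_cof B hB x hx
  refine ⟨m, Set.disjoint_left.2 fun i h1 h2 => ?_⟩
  have a := lad_le_of_mem_tail hS hB h1
  have b : i < x := hA h2
  exact lt_irrefl _ (b.trans (hm.trans_le a))

theorem not_sub_of_disjoint (hS : IsSys 𝔅) {B : Pat W} (hB : B ∈ 𝔅) {A : Set W} {m m' : ℕ}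
    (h : Disjoint (B.tail m) A) : ¬ B.tail m' ⊆ A := by
  intro hsub
  obtain ⟨i, hi⟩ := tail_nonempty hS hB (max m m')
  exact Set.disjoint_left.1 h (tail_anti B (le_max_left _ _) hi)
    (hsub (tail_anti B (le_max_right _ _) hi))

/-- For `A ∈ IsA`: a tail of `B` is contained in `A`, or a tail of `B` is disjoint from `A` and no
tail is contained in `A`. -/
theorem IsA.dich {A : Set W} (hA : IsA 𝔅 A) {B : Pat W} (hB : B ∈ 𝔅) :
    (∃ m, ∀ m', m ≤ m' → B.tail m' ⊆ A) ∨ (∃ m, ∀ m', m ≤ m' → Disjoint (B.tail m') A) := by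
  rcases hA.2 B hB with ⟨m, h⟩ | ⟨m, h⟩
  · exact Or.inl ⟨m, fun m' hm => (tail_anti B hm).trans h⟩
  · exact Or.inr ⟨m, fun m' hm => h.mono_left (tail_anti B hm)⟩

theorem isA_of_low (hS : IsSys 𝔅) {A : Set W} {x δ : W} (hA : IsA (low 𝔅 δ) A)
    (hAx : A ⊆ Set.Iio x) (hx : x < δ) : IsA 𝔅 A := by
  obtain ⟨⟨F, P, hF, hP, hc⟩, hd⟩ := hA
  refine ⟨⟨F, P, hF, fun B hB => (hP B hB).1, hc⟩, fun B hB => ?_⟩
  by_cases h : B.top < δ
  · exact hd B ⟨hB, h⟩
  · exact Or.inr (disj_high hS hB hAx (hx.trans_le (not_lt.1 h)))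

theorem isV_of_low (hS : IsSys 𝔅) {A : Set W} {x δ : W} {v : Fn W} (hv : IsV (low 𝔅 δ) A v)
    (hAx : A ⊆ Set.Iio x) (hx : x < δ) : IsV 𝔅 A v := by
  refine ⟨hv.1, fun B hB hm => ?_⟩
  by_cases h : B.top < δ
  · exact hv.2 B ⟨hB, h⟩ hm
  · exfalso
    obtain ⟨m, hm⟩ := hm
    obtain ⟨m', hm'⟩ := disj_high hS hB hAx (hx.trans_le (not_lt.1 h))
    exact not_sub_of_disjoint hS hB hm' hm

theorem isZ_of_low (hS : IsSys 𝔅) {A : Set W} {x δ : W} {z : W → K} (hz : IsZ (low 𝔅 δ) A z)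
    (hAx : A ⊆ Set.Iio x) (hx : x < δ) : IsZ 𝔅 A z := by
  intro B hB hm
  by_cases h : B.top < δ
  · exact hz B ⟨hB, h⟩ hm
  · exfalso
    obtain ⟨m, hm⟩ := hm
    obtain ⟨m', hm'⟩ := disj_high hS hB hAx (hx.trans_le (not_lt.1 h))
    exact not_sub_of_disjoint hS hB hm' hm

theorem isV_low {A : Set W} {δ : W} {v : Fn W} (hv : IsV 𝔅 A v) : IsV (low 𝔅 δ) A v :=
  ⟨hv.1, fun B hB hm => hv.2 B hB.1 hm⟩

theorem isZ_low {A : Set W} {δ : W} {z : W → K} (hz : IsZ 𝔅 A z) : IsZ (low 𝔅 δ) A z :=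
  fun B hB hm => hz B hB.1 hm

/-- The blocks of a pattern are good blocks with respect to the whole family. -/
theorem good_C (hS : IsSys 𝔅) {B : Pat W} (hB : B ∈ 𝔅) (n : ℕ) :
    GoodBlk 𝔅 (B.C n) (B.D n) B.z := by
  have hg := hS.good B hB n
  have hsub : B.C n ⊆ Set.Iio (B.lad (n + 1)) := fun i hi => (hS.C_sub B hB n hi).2
  have hlt := hS.lad_lt B hB (n + 1)
  exact ⟨hg.ne, hg.count, isA_of_low hS hg.isA hsub hlt, isV_of_low hS hg.isV hsub hlt,
    isZ_of_low hS hg.isZ hsub hlt, hg.one,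
    hg.zero.imp id fun ⟨y, h1, h2⟩ => ⟨y, isZ_of_low hS h1 hsub hlt, h2⟩⟩

theorem common_tail (B' : Pat W) (S : ℕ → Set W) (m N : ℕ)
    (h : ∀ n, m ≤ n → n < N → ∃ k, Disjoint (B'.tail k) (S n)) :
    ∃ k, ∀ n, m ≤ n → n < N → Disjoint (B'.tail k) (S n) := by
  choose! f hf using h
  refine ⟨(Finset.range N).sup f, fun n hn hN => ?_⟩
  exact (hf n hn hN).mono_left (tail_anti B' (Finset.le_sup (f := f) (Finset.mem_range.2 hN)))

theorem block_dich (hS : IsSys 𝔅) {B B' : Pat W} (hB : B ∈ 𝔅) (hB' : B' ∈ 𝔅)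
    (htop : B'.top < B.top) (m : ℕ) :
    (∃ n k', m ≤ n ∧ B'.tail k' ⊆ B.C n) ∨ (∃ k, Disjoint (B'.tail k) (B.tail m)) := by
  obtain ⟨N, hN⟩ := hS.lad_cof B hB B'.top htop
  by_cases hex : ∃ n, m ≤ n ∧ ∃ k', B'.tail k' ⊆ B.C n
  · obtain ⟨n, hn, k', hk'⟩ := hex
    exact Or.inl ⟨n, k', hn, hk'⟩
  · right
    have h : ∀ n, m ≤ n → n < N → ∃ k, Disjoint (B'.tail k) (B.C n) := by
      intro n hn _
      rcases (good_C hS hB n).isA.2 B' hB' with h1 | h1
      · exact absurd ⟨n, hn, h1⟩ hex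
      · exact h1
    obtain ⟨k, hk⟩ := common_tail B' B.C m N h
    refine ⟨k, Set.disjoint_left.2 ?_⟩
    rintro i h1 ⟨n, hn, h2⟩
    have a := lt_top_of_mem_tail hS hB' h1
    have b := (hS.C_sub B hB n h2).1
    have hnN : n < N := by
      by_contra hc
      have := (hS.lad_mono B hB).monotone (not_lt.1 hc)
      exact lt_irrefl _ (a.trans (hN.trans_le (this.trans b)))
    exact Set.disjoint_left.1 (hk n hn hnN) h1 h2

theorem tail_in_block (hS : IsSys 𝔅) {B B' : Pat W} (hB : B ∈ 𝔅) (hB' : B' ∈ 𝔅) (hne : B' ≠ B)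
    {m k : ℕ} (h : B'.tail k ⊆ B.tail m) : ∃ n k', m ≤ n ∧ B'.tail k' ⊆ B.C n := by
  rcases lt_trichotomy B'.top B.top with ht | ht | ht
  · rcases block_dich hS hB hB' ht m with h1 | ⟨k2, h2⟩
    · exact h1
    · exact absurd h (not_sub_of_disjoint hS hB' h2)
  · exfalso
    obtain ⟨x, hx, hcom⟩ := hS.ad B hB B' hB' hne.symm ht.symm
    obtain ⟨j, hj⟩ := hS.lad_cof B' hB' x (ht ▸ hx)
    obtain ⟨i, hi⟩ := tail_nonempty hS hB' (max j k)
    have h1 := lad_le_of_mem_tail hS hB' (tail_anti B' (le_max_left j k) hi)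
    have h2 := h (tail_anti B' (le_max_right j k) hi)
    have h3 := hcom i (tail_anti B (Nat.zero_le _) h2) (tail_anti B' (Nat.zero_le _) hi)
    exact lt_irrefl _ (h3.trans (hj.trans_le h1))
  · exfalso
    obtain ⟨j, hj⟩ := hS.lad_cof B' hB' B.top ht
    obtain ⟨i, hi⟩ := tail_nonempty hS hB' (max j k)
    have h1 := lad_le_of_mem_tail hS hB' (tail_anti B' (le_max_left j k) hi)
    have h2 := lt_top_of_mem_tail hS hB (h (tail_anti B' (le_max_right j k) hi))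
    exact lt_irrefl _ (h2.trans (hj.trans_le h1))

theorem isA_tail (hS : IsSys 𝔅) {B : Pat W} (hB : B ∈ 𝔅) (m : ℕ) : IsA 𝔅 (B.tail m) := by
  refine ⟨⟨∅, {B}, Set.finite_empty, ?_, ?_⟩, ?_⟩
  · intro B' hB'
    rw [Multiset.mem_singleton] at hB'
    rw [hB']; exact hB
  · intro i hi
    exact Or.inr ⟨B, Multiset.mem_singleton_self B, tail_anti B (Nat.zero_le m) hi⟩
  · intro B' hB'
    by_cases hne : B' = B
    · exact Or.inl ⟨m, by rw [hne]⟩
    · rcases lt_trichotomy B'.top B.top with ht | ht | ht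
      · rcases block_dich hS hB hB' ht m with ⟨n, k', hn, h1⟩ | h2
        · exact Or.inl ⟨k', h1.trans (C_sub_tail B hn)⟩
        · exact Or.inr h2
      · right
        obtain ⟨x, hx, hcom⟩ := hS.ad B hB B' hB' (Ne.symm hne) ht.symm
        obtain ⟨j, hj⟩ := hS.lad_cof B' hB' x (ht ▸ hx)
        refine ⟨j, Set.disjoint_left.2 fun i h1 h2 => ?_⟩
        have h3 := hcom i (tail_anti B (Nat.zero_le _) h2) (tail_anti B' (Nat.zero_le _) h1)
        exact lt_irrefl _ (h3.trans (hj.trans_le (lad_le_of_mem_tail hS hB' h1)))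
      · exact Or.inr (disj_high hS hB' (fun i hi => lt_top_of_mem_tail hS hB hi) ht)

theorem finite_disj (hS : IsSys 𝔅) {B : Pat W} (hB : B ∈ 𝔅) {A : Set W} (hA : A.Finite) :
    ∃ m, Disjoint (B.tail m) A := by
  have h : ∀ a : W, ∃ m, a ∉ B.tail m := by
    intro a
    by_cases ha : a < B.top
    · obtain ⟨n, hn⟩ := hS.lad_cof B hB a ha
      exact ⟨n, fun h => lt_irrefl _ (hn.trans_le (lad_le_of_mem_tail hS hB h))⟩
    · exact ⟨0, fun h => ha (lt_top_of_mem_tail hS hB h)⟩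
  choose f hf using h
  obtain ⟨k, hk⟩ := (hA.image f).bddAbove
  refine ⟨k, Set.disjoint_left.2 fun i h1 h2 => ?_⟩
  exact hf i (tail_anti B (hk (Set.mem_image_of_mem f h2)) h1)

theorem isA_finite (hS : IsSys 𝔅) {A : Set W} (hA : A.Finite) : IsA 𝔅 A := by
  refine ⟨⟨A, 0, hA, ?_, fun i hi => Or.inl hi⟩, fun B hB => Or.inr (finite_disj hS hB hA)⟩
  intro B hB
  exact absurd hB (Multiset.notMem_zero B)

theorem isA_union (hS : IsSys 𝔅) {A A' : Set W} (hA : IsA 𝔅 A) (hA' : IsA 𝔅 A') :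
    IsA 𝔅 (A ∪ A') := by
  obtain ⟨⟨F, P, hF, hP, hc⟩, hd⟩ := hA
  obtain ⟨⟨F', P', hF', hP', hc'⟩, hd'⟩ := hA'
  refine ⟨⟨F ∪ F', P + P', hF.union hF', ?_, ?_⟩, ?_⟩
  · intro B hB
    rcases Multiset.mem_add.1 hB with h | h
    · exact hP B h
    · exact hP' B h
  · rintro i (hi | hi)
    · rcases hc i hi with h | ⟨B, h1, h2⟩
      · exact Or.inl (Or.inl h)
      · exact Or.inr ⟨B, Multiset.mem_add.2 (Or.inl h1), h2⟩
    · rcases hc' i hi with h | ⟨B, h1, h2⟩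
      · exact Or.inl (Or.inr h)
      · exact Or.inr ⟨B, Multiset.mem_add.2 (Or.inr h1), h2⟩
  · intro B hB
    rcases hd B hB with ⟨m, h⟩ | ⟨m, h⟩
    · exact Or.inl ⟨m, h.trans Set.subset_union_left⟩
    · rcases hd' B hB with ⟨m', h'⟩ | ⟨m', h'⟩
      · exact Or.inl ⟨m', h'.trans Set.subset_union_right⟩
      · exact Or.inr ⟨max m m', Set.disjoint_union_right.2
          ⟨h.mono_left (tail_anti B (le_max_left _ _)),
            h'.mono_left (tail_anti B (le_max_right _ _))⟩⟩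

theorem isA_diff (hS : IsSys 𝔅) {A A' : Set W} (hA : IsA 𝔅 A) (hA' : IsA 𝔅 A') :
    IsA 𝔅 (A \ A') := by
  obtain ⟨⟨F, P, hF, hP, hc⟩, hd⟩ := hA
  refine ⟨⟨F, P, hF, hP, fun i hi => hc i hi.1⟩, ?_⟩
  intro B hB
  rcases hd B hB with ⟨m, h⟩ | ⟨m, h⟩
  · rcases hA'.2 B hB with ⟨m', h'⟩ | ⟨m', h'⟩
    · exact Or.inr ⟨m', Set.disjoint_left.2 fun i h1 h2 => h2.2 (h' h1)⟩
    · exact Or.inl ⟨max m m', fun i hi => ⟨h (tail_anti B (le_max_left _ _) hi),
        fun hi' => Set.disjoint_left.1 h' (tail_anti B (le_max_right _ _) hi) hi'⟩⟩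
  · exact Or.inr ⟨m, Set.disjoint_left.2 fun i h1 h2 => Set.disjoint_left.1 h h1 h2.1⟩

theorem isA_inter_Iio (hS : IsSys 𝔅) {A : Set W} (hA : IsA 𝔅 A) (β : W) :
    IsA 𝔅 (A ∩ Set.Iio β) := by
  obtain ⟨⟨F, P, hF, hP, hc⟩, hd⟩ := hA
  refine ⟨⟨F, P, hF, hP, fun i hi => hc i hi.1⟩, ?_⟩
  intro B hB
  by_cases hβ : B.top ≤ β
  · rcases hd B hB with ⟨m, h⟩ | ⟨m, h⟩
    · exact Or.inl ⟨m, fun i hi => ⟨h hi, (lt_top_of_mem_tail hS hB hi).trans_le hβ⟩⟩
    · exact Or.inr ⟨m, Set.disjoint_left.2 fun i h1 h2 => Set.disjoint_left.1 h h1 h2.1⟩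
  · exact Or.inr (disj_high hS hB (fun i hi => hi.2) (not_le.1 hβ))

theorem isA_countable (hS : IsSys 𝔅) {A : Set W} (hA : IsA 𝔅 A) : A.Countable := by
  obtain ⟨⟨F, P, hF, hP, hc⟩, -⟩ := hA
  have hct : ∀ B ∈ P, (B.tail 0).Countable := by
    intro B hB
    refine Set.Countable.mono ?_ (Set.countable_iUnion fun n => (hS.good B (hP B hB) n).count)
    rintro i ⟨n, _, hi⟩
    exact Set.mem_iUnion.2 ⟨n, hi⟩
  have hP' : {B | B ∈ P}.Countable := (Multiset.finite_toSet P).countable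
  refine Set.Countable.mono ?_ (hF.countable.union (hP'.biUnion hct))
  intro i hi
  rcases hc i hi with h | ⟨B, h1, h2⟩
  · exact Or.inl h
  · exact Or.inr (Set.mem_biUnion h1 h2)

/-- No tail of a pattern is contained in a finite set. -/
theorem not_tail_sub_finite (hS : IsSys 𝔅) {B : Pat W} (hB : B ∈ 𝔅) {A : Set W} (hA : A.Finite)
    (m : ℕ) : ¬ B.tail m ⊆ A := by
  obtain ⟨m', h⟩ := finite_disj hS hB hA
  exact not_sub_of_disjoint hS hB h

theorem low_cover (hS : IsSys 𝔅) {B : Pat W} (hB : B ∈ 𝔅) (m : ℕ) :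
    ∃ (F : Set W) (P : Multiset (Pat W)), F.Finite ∧ (∀ B' ∈ P, B' ∈ low 𝔅 B.top) ∧
      ∀ n < m, ∀ i ∈ B.C n, i ∈ F ∨ ∃ B' ∈ P, i ∈ B'.tail 0 := by
  induction m with
  | zero => exact ⟨∅, 0, Set.finite_empty, fun B' hB' => absurd hB' (Multiset.notMem_zero B'),
      fun n hn => absurd hn (Nat.not_lt_zero n)⟩
  | succ m ih =>
    obtain ⟨F, P, hF, hP, hc⟩ := ih
    obtain ⟨F', P', hF', hP', hc'⟩ := (hS.good B hB m).isA.1
    refine ⟨F ∪ F', P + P', hF.union hF', ?_, ?_⟩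
    · intro B' hB'
      rcases Multiset.mem_add.1 hB' with h | h
      · exact hP B' h
      · exact hP' B' h
    · intro n hn i hi
      rcases (Nat.lt_succ_iff.1 hn).eq_or_lt with h | h
      · rw [h] at hi
        rcases hc' i hi with h | ⟨B', h1, h2⟩
        · exact Or.inl (Or.inr h)
        · exact Or.inr ⟨B', Multiset.mem_add.2 (Or.inr h1), h2⟩
      · rcases hc n h i hi with h | ⟨B', h1, h2⟩
        · exact Or.inl (Or.inl h)
        · exact Or.inr ⟨B', Multiset.mem_add.2 (Or.inl h1), h2⟩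

/-- Induction principle. -/
theorem isA_induction [WellFoundedLT W] (hS : IsSys 𝔅) (P : Set W → Prop)
    (hfin : ∀ A : Set W, A.Finite → P A)
    (hstep : ∀ (A : Set W) (B : Pat W) (m : ℕ), IsA 𝔅 A → B ∈ 𝔅 → B.tail m ⊆ A →
      (∀ m', m ≤ m' → P (A \ B.tail m')) → P A) :
    ∀ A : Set W, IsA 𝔅 A → P A := by
  have key : ∀ c : Multiset W, ∀ (A F : Set W) (Q : Multiset (Pat W)), IsA 𝔅 A → F.Finite →
      (∀ B ∈ Q, B ∈ 𝔅) → (∀ i ∈ A, i ∈ F ∨ ∃ B ∈ Q, i ∈ B.tail 0) → Q.map Pat.top = c → P A := by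
    intro c
    induction c using (WellFounded.cutExpand (wellFounded_lt (α := W))).induction with
    | _ c ih =>
    intro A F Q hA hF hQ hcov hc
    rcases Multiset.empty_or_exists_mem Q with hQ0 | ⟨B, hBQ⟩
    · refine hfin A (hF.subset fun i hi => ?_)
      rcases hcov i hi with h | ⟨B, h1, _⟩
      · exact h
      · rw [hQ0] at h1
        exact absurd h1 (Multiset.notMem_zero B)
    · obtain ⟨Q', rfl⟩ := Multiset.exists_cons_of_mem hBQ
      have hB : B ∈ 𝔅 := hQ B hBQ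
      have hcut : ∀ P' : Multiset (Pat W), (∀ B' ∈ P', B' ∈ low 𝔅 B.top) →
          Relation.CutExpand (· < ·) ((Q' + P').map Pat.top) c := by
        intro P' hP'
        refine ⟨P'.map Pat.top, B.top, ?_, ?_⟩
        · intro a ha
          obtain ⟨B', hB', rfl⟩ := Multiset.mem_map.1 ha
          exact (hP' B' hB').2
        · rw [← hc, Multiset.map_add, Multiset.map_cons, ← Multiset.singleton_add]
          abel
      have hmem : ∀ P' : Multiset (Pat W), (∀ B' ∈ P', B' ∈ low 𝔅 B.top) →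
          ∀ B' ∈ Q' + P', B' ∈ 𝔅 := by
        intro P' hP' B' hB'
        rcases Multiset.mem_add.1 hB' with h | h
        · exact hQ B' (Multiset.mem_cons_of_mem h)
        · exact (hP' B' h).1
      have hcov' : ∀ (m : ℕ) (F' : Set W) (P' : Multiset (Pat W)),
          (∀ n < m, ∀ i ∈ B.C n, i ∈ F' ∨ ∃ B' ∈ P', i ∈ B'.tail 0) →
          ∀ i ∈ A, i ∉ B.tail m → i ∈ F ∪ F' ∨ ∃ B' ∈ Q' + P', i ∈ B'.tail 0 := by
        intro m F' P' hc' i hi him
        rcases hcov i hi with h | ⟨B', h1, h2⟩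
        · exact Or.inl (Or.inl h)
        · rcases Multiset.mem_cons.1 h1 with h | h
          · subst h
            obtain ⟨n, _, hn⟩ := h2
            have hnm : n < m := by
              by_contra hcon
              exact him ⟨n, not_lt.1 hcon, hn⟩
            rcases hc' n hnm i hn with h | ⟨B'', h3, h4⟩
            · exact Or.inl (Or.inr h)
            · exact Or.inr ⟨B'', Multiset.mem_add.2 (Or.inr h3), h4⟩
          · exact Or.inr ⟨B', Multiset.mem_add.2 (Or.inl h), h2⟩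
      rcases hA.dich hB with ⟨m, hm⟩ | ⟨m, hm⟩
      · refine hstep A B m hA hB (hm m le_rfl) fun m' hm' => ?_
        obtain ⟨F', P', hF', hP', hc'⟩ := low_cover hS hB m'
        exact ih _ (hcut P' hP') (A \ B.tail m') (F ∪ F') (Q' + P')
          (isA_diff hS hA (isA_tail hS hB m')) (hF.union hF') (hmem P' hP')
          (fun i hi => hcov' m' F' P' hc' i hi.1 hi.2) rfl
      · obtain ⟨F', P', hF', hP', hc'⟩ := low_cover hS hB m
        exact ih _ (hcut P' hP') A (F ∪ F') (Q' + P') hA (hF.union hF') (hmem P' hP')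
          (fun i hi => hcov' m F' P' hc' i hi fun h => Set.disjoint_left.1 (hm m le_rfl) h hi) rfl
  intro A hA
  obtain ⟨F, Q, hF, hQ, hcov⟩ := hA.1
  exact key _ A F Q hA hF hQ hcov rfl

theorem low_of_isA [WellFoundedLT W] (hS : IsSys 𝔅) {A : Set W} {x δ : W} (hA : IsA 𝔅 A)
    (hAx : A ⊆ Set.Iio x) (hx : x < δ) : IsA (low 𝔅 δ) A := by
  refine ⟨?_, fun B hB => hA.2 B hB.1⟩
  refine isA_induction hS (fun A => A ⊆ Set.Iio x → ∃ (F : Set W) (P : Multiset (Pat W)),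
    F.Finite ∧ (∀ B ∈ P, B ∈ low 𝔅 δ) ∧ ∀ i ∈ A, i ∈ F ∨ ∃ B ∈ P, i ∈ B.tail 0) ?_ ?_ A hA hAx
  · intro A hA _
    exact ⟨A, 0, hA, fun B hB => absurd hB (Multiset.notMem_zero B), fun i hi => Or.inl hi⟩
  · intro A B m hA hB hsub ih hAx
    have htop : B.top ≤ x := by
      by_contra hcon
      obtain ⟨m', hm'⟩ := disj_high hS hB hAx (not_le.1 hcon)
      exact not_sub_of_disjoint hS hB hm' hsub
    obtain ⟨F, P, hF, hP, hc⟩ := ih m le_rfl (Set.sdiff_subset.trans hAx)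
    refine ⟨F, B ::ₘ P, hF, ?_, ?_⟩
    · intro B' hB'
      rcases Multiset.mem_cons.1 hB' with h | h
      · rw [h]
        exact ⟨hB, htop.trans_lt hx⟩
      · exact hP B' h
    · intro i hi
      by_cases him : i ∈ B.tail m
      · exact Or.inr ⟨B, Multiset.mem_cons_self B P, tail_anti B (Nat.zero_le m) him⟩
      · rcases hc i ⟨hi, him⟩ with h | ⟨B', h1, h2⟩
        · exact Or.inl h
        · exact Or.inr ⟨B', Multiset.mem_cons_of_mem h1, h2⟩

end Sets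

end Pool.Agent.Helper513.ZgT0
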