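import Pool.Agent.Helper513.ZgT0.Sets

set_option autoImplicit false

namespace Pool.Agent.Helper513.ZgT0

section VZ

variable {W : Type} [LinearOrder W] {𝔅 : Set (Pat W)}

theorem K_ext {a b : K} (h : a = 1 ↔ b = 1) : a = b := by
  revert a b
  decide

theorem K_mul_eq_one {a b : K} : a * b = 1 ↔ a = 1 ∧ b = 1 := by
  revert a b
  decide

theorem D_congr (hS : IsSys 𝔅) {B : Pat W} (hB : B ∈ 𝔅) {n : ℕ} {s t : W → K}
    (h : ∀ i ∈ B.C n, s i = t i) : B.D n s = B.D n t :=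
  (good_C hS hB n).isV.1 s t h

theorem D_of_eq (hS : IsSys 𝔅) {B : Pat W} (hB : B ∈ 𝔅) {n : ℕ} {s : W → K}
    (h : ∀ i ∈ B.C n, s i = B.z i) : B.D n s = 1 := by
  rw [D_congr hS hB h]
  exact (good_C hS hB n).one

theorem sp_congr_disj {A A' : Set W} (hd : Disjoint A A') (z s : W → K) :
    ∀ i ∈ A', s i = sp A z s i := fun _ hi =>
  (sp_of_notMem (fun hiA => Set.disjoint_left.1 hd hiA hi)).symm

theorem t_succ (hS : IsSys 𝔅) {B : Pat W} (hB : B ∈ 𝔅) (m : ℕ) (s : W → K) :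
    B.t m s = B.D m s * B.t (m + 1) s := by
  apply K_ext
  rw [K_mul_eq_one, t_eq_one_iff, t_eq_one_iff]
  constructor
  · intro h
    exact ⟨h m le_rfl, fun n hn => h n (by omega)⟩
  · rintro ⟨h1, h2⟩ n hn
    rcases Nat.eq_or_lt_of_le hn with h | h
    · subst h; exact h1
    · exact h2 n h

theorem dep_t (hS : IsSys 𝔅) {B : Pat W} (hB : B ∈ 𝔅) (m : ℕ) : DepOn (B.tail m) (B.t m) := by
  intro s t hst
  apply K_ext
  rw [t_eq_one_iff, t_eq_one_iff]
  refine forall_congr' fun n => forall_congr' fun hn => ?_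
  rw [D_congr hS hB (fun i hi => hst i (C_sub_tail B hn hi))]

/-- If `z` agrees with `B.z` on `B.tail m` then `B.t m z = 1`. -/
theorem t_of_eq (hS : IsSys 𝔅) {B : Pat W} (hB : B ∈ 𝔅) {m : ℕ} {z : W → K}
    (hz : ∀ i ∈ B.tail m, z i = B.z i) : B.t m z = 1 := by
  rw [t_eq_one_iff]
  intro n hn
  exact D_of_eq hS hB (fun i hi => hz i (C_sub_tail B hn hi))

theorem V_shift (hS : IsSys 𝔅) {B : Pat W} (hB : B ∈ 𝔅) {m m' : ℕ} (hm : m ≤ m') {v : Fn W}
    (h : ∀ s, v s = v (sp (B.tail m) B.z s) * B.t m s) :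
    ∀ s, v s = v (sp (B.tail m') B.z s) * B.t m' s := by
  intro s
  have e1 : sp (B.tail m) B.z (sp (B.tail m') B.z s) = sp (B.tail m) B.z s := by
    funext i
    by_cases hi : i ∈ B.tail m
    · rw [sp_of_mem hi, sp_of_mem hi]
    · rw [sp_of_notMem hi, sp_of_notMem hi, sp_of_notMem (fun hi' => hi (tail_anti B hm hi'))]
  have e2 : B.t m s = B.t m (sp (B.tail m') B.z s) * B.t m' s := by
    apply K_ext
    rw [K_mul_eq_one, t_eq_one_iff, t_eq_one_iff, t_eq_one_iff]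
    have e3 : ∀ n, n < m' → B.D n s = B.D n (sp (B.tail m') B.z s) := by
      intro n hn
      exact D_congr hS hB (sp_congr_disj (C_disjoint_tail hS hB hn).symm _ _)
    constructor
    · intro h1
      refine ⟨fun n hn => ?_, fun n hn => h1 n (hm.trans hn)⟩
      rcases lt_or_ge n m' with h2 | h2
      · rw [← e3 n h2]; exact h1 n hn
      · exact D_of_eq hS hB (fun i hi => sp_of_mem (C_sub_tail B h2 hi))
    · rintro ⟨h1, h2⟩ n hn
      rcases lt_or_ge n m' with h3 | h3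
      · rw [e3 n h3]; exact h1 n hn
      · exact h2 n h3
  rw [h (sp (B.tail m') B.z s), e1, h s, mul_assoc, ← e2, ← h s]

theorem isV_zero {A : Set W} : IsV 𝔅 A 0 := by
  refine ⟨fun _ _ _ => rfl, ?_⟩
  rintro B hB ⟨m, hm⟩
  refine ⟨m, hm, fun s => ?_⟩
  simp

theorem isV_add (hS : IsSys 𝔅) {A : Set W} {v w : Fn W} (hv : IsV 𝔅 A v) (hw : IsV 𝔅 A w) :
    IsV 𝔅 A (v + w) := by
  refine ⟨fun s t hst => ?_, ?_⟩
  · rw [Pi.add_apply, Pi.add_apply, hv.1 s t hst, hw.1 s t hst]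
  · intro B hB hm
    obtain ⟨m1, hm1, h1⟩ := hv.2 B hB hm
    obtain ⟨m2, hm2, h2⟩ := hw.2 B hB hm
    refine ⟨max m1 m2, (tail_anti B (le_max_left _ _)).trans hm1, fun s => ?_⟩
    have e1 := V_shift hS hB (le_max_left m1 m2) h1 s
    have e2 := V_shift hS hB (le_max_right m1 m2) h2 s
    rw [Pi.add_apply, Pi.add_apply, add_mul, ← e1, ← e2]

theorem isV_smul {A : Set W} {v : Fn W} (c : K) (hv : IsV 𝔅 A v) : IsV 𝔅 A (c • v) := by
  refine ⟨fun s t hst => ?_, ?_⟩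
  · rw [Pi.smul_apply, Pi.smul_apply, hv.1 s t hst]
  · intro B hB hm
    obtain ⟨m1, hm1, h1⟩ := hv.2 B hB hm
    refine ⟨m1, hm1, fun s => ?_⟩
    rw [Pi.smul_apply, Pi.smul_apply, smul_eq_mul, smul_eq_mul, mul_assoc, ← h1 s]

theorem isV_mul_aux (hS : IsSys 𝔅) {A A' : Set W}
    {v w : Fn W} (hv : IsV 𝔅 A v) (hw : DepOn A' w) {B : Pat W} (hB : B ∈ 𝔅) {m : ℕ}
    (hm : B.tail m ⊆ A) (hm' : Disjoint (B.tail m) A') :
    ∃ m', m ≤ m' ∧ ∀ s, (v * w) s = (v * w) (sp (B.tail m') B.z s) * B.t m' s := by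
  obtain ⟨m1, hm1, h1⟩ := hv.2 B hB ⟨m, hm⟩
  refine ⟨max m m1, le_max_left _ _, fun s => ?_⟩
  have e1 := V_shift hS hB (le_max_right m m1) h1 s
  have e2 : w s = w (sp (B.tail (max m m1)) B.z s) :=
    hw _ _ (sp_congr_disj (hm'.mono_left (tail_anti B (le_max_left _ _))) _ _)
  rw [Pi.mul_apply, Pi.mul_apply, mul_right_comm, ← e1, ← e2]

/-- Product of functions on disjoint sets. -/
theorem isV_mul (hS : IsSys 𝔅) {A A' : Set W} (hA : IsA 𝔅 A) (hA' : IsA 𝔅 A')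
    (hd : Disjoint A A') {v w : Fn W} (hv : IsV 𝔅 A v) (hw : IsV 𝔅 A' w) :
    IsV 𝔅 (A ∪ A') (v * w) := by
  refine ⟨fun s t hst => ?_, ?_⟩
  · rw [Pi.mul_apply, Pi.mul_apply, hv.1 s t (fun i hi => hst i (Or.inl hi)),
      hw.1 s t (fun i hi => hst i (Or.inr hi))]
  · rintro B hB ⟨m, hm⟩
    rcases hA.dich hB with ⟨m0, h0⟩ | ⟨m0, h0⟩
    · have h1 := h0 m0 le_rfl
      obtain ⟨m', hm', h2⟩ := isV_mul_aux hS hv hw.1 hB h1 (hd.mono_left h1)
      exact ⟨m', ((tail_anti B hm').trans h1).trans Set.subset_union_left, h2⟩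
    · have h1 := h0 (max m m0) (le_max_right _ _)
      have h3 : B.tail (max m m0) ⊆ A' := by
        intro i hi
        rcases hm (tail_anti B (le_max_left _ _) hi) with h | h
        · exact absurd h (Set.disjoint_left.1 h1 hi)
        · exact h
      obtain ⟨m', hm', h2⟩ := isV_mul_aux hS hw hv.1 hB h3 h1
      refine ⟨m', ((tail_anti B hm').trans h3).trans Set.subset_union_right, fun s => ?_⟩
      rw [mul_comm v w]
      exact h2 s

/-- Specialisation. -/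
theorem isV_spec (hS : IsSys 𝔅) {A A' : Set W} {v : Fn W} (hv : IsV 𝔅 A' v) (z : W → K) :
    IsV 𝔅 (A' \ A) (fun s => v (sp A z s)) := by
  refine ⟨fun s t hst => ?_, ?_⟩
  · apply hv.1
    intro i hi
    by_cases hiA : i ∈ A
    · rw [sp_of_mem hiA, sp_of_mem hiA]
    · rw [sp_of_notMem hiA, sp_of_notMem hiA]
      exact hst i ⟨hi, hiA⟩
  · rintro B hB ⟨m, hm⟩
    obtain ⟨m1, hm1, h1⟩ := hv.2 B hB ⟨m, hm.trans Set.diff_subset⟩
    have h2 : B.tail (max m m1) ⊆ A' \ A := (tail_anti B (le_max_left _ _)).trans hm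
    refine ⟨max m m1, h2, fun s => ?_⟩
    have e1 := V_shift hS hB (le_max_right m m1) h1 (sp A z s)
    have e2 : sp (B.tail (max m m1)) B.z (sp A z s) = sp A z (sp (B.tail (max m m1)) B.z s) := by
      funext i
      by_cases hi : i ∈ B.tail (max m m1)
      · rw [sp_of_mem hi, sp_of_notMem (h2 hi).2, sp_of_mem hi]
      · rw [sp_of_notMem hi]
        by_cases hiA : i ∈ A
        · rw [sp_of_mem hiA, sp_of_mem hiA]
        · rw [sp_of_notMem hiA, sp_of_notMem hiA, sp_of_notMem hi]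
    have e3 : B.t (max m m1) (sp A z s) = B.t (max m m1) s :=
      dep_t hS hB _ _ _ (fun i hi => sp_of_notMem (h2 hi).2)
    rw [e2, e3] at e1
    exact e1

theorem isV_fin (hS : IsSys 𝔅) {A : Set W} (hA : A.Finite) {v : Fn W} (hv : DepOn A v) :
    IsV 𝔅 A v := by
  refine ⟨hv, ?_⟩
  rintro B hB ⟨m, hm⟩
  exact absurd hm (not_tail_sub_finite hS hB hA m)

/-- Multiplication by a function of finitely many coordinates. -/
theorem isV_finmul (hS : IsSys 𝔅) {A F : Set W} (hF : F.Finite) (hFA : F ⊆ A) {v w : Fn W}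
    (hw : DepOn F w) (hv : IsV 𝔅 A v) : IsV 𝔅 A (w * v) := by
  refine ⟨fun s t hst => ?_, ?_⟩
  · rw [Pi.mul_apply, Pi.mul_apply, hv.1 s t hst, hw s t (fun i hi => hst i (hFA hi))]
  · rintro B hB ⟨m, hm⟩
    rcases (isA_finite hS hF).dich hB with ⟨m0, h0⟩ | ⟨m0, h0⟩
    · exact absurd (h0 m0 le_rfl) (not_tail_sub_finite hS hB hF m0)
    · have h1 := h0 (max m m0) (le_max_right _ _)
      have h3 : B.tail (max m m0) ⊆ A := (tail_anti B (le_max_left _ _)).trans hm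
      obtain ⟨m', hm', h2⟩ := isV_mul_aux hS hv hw hB h3 h1
      refine ⟨m', (tail_anti B hm').trans h3, fun s => ?_⟩
      rw [mul_comm w v]
      exact h2 s

theorem isV_t (hS : IsSys 𝔅) {B : Pat W} (hB : B ∈ 𝔅) (m : ℕ) : IsV 𝔅 (B.tail m) (B.t m) := by
  refine ⟨dep_t hS hB m, ?_⟩
  rintro B' hB' ⟨k, hk⟩
  by_cases hne : B' = B
  · subst hne
    refine ⟨m, subset_rfl, fun s => ?_⟩
    rw [t_of_eq hS hB (fun i hi => sp_of_mem hi), one_mul]
  · obtain ⟨n, k', hn, hk'⟩ := tail_in_block hS hB hB' hne hk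
    obtain ⟨k1, hk1, h1⟩ := (good_C hS hB n).isV.2 B' hB' ⟨k', hk'⟩
    refine ⟨k1, hk1.trans (C_sub_tail B hn), fun s => ?_⟩
    have e3 : ∀ l, l ≠ n → B.D l s = B.D l (sp (B'.tail k1) B'.z s) := by
      intro l hl
      exact D_congr hS hB (sp_congr_disj ((C_disjoint hS hB hl).symm.mono_left hk1) _ _)
    apply K_ext
    rw [K_mul_eq_one, t_eq_one_iff, t_eq_one_iff]
    constructor
    · intro h2
      have h3 := h2 n hn
      rw [h1 s, K_mul_eq_one] at h3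
      refine ⟨fun l hl => ?_, h3.2⟩
      by_cases hln : l = n
      · subst hln; exact h3.1
      · rw [← e3 l hln]; exact h2 l hl
    · rintro ⟨h2, h3⟩ l hl
      by_cases hln : l = n
      · subst hln
        rw [h1 s, K_mul_eq_one]
        exact ⟨h2 l hl, h3⟩
      · rw [e3 l hln]; exact h2 l hl

theorem isZ_mono {A A' : Set W} (h : A ⊆ A') {z : W → K} (hz : IsZ 𝔅 A' z) : IsZ 𝔅 A z := by
  rintro B hB ⟨m, hm⟩
  exact hz B hB ⟨m, hm.trans h⟩

theorem isZ_congr {A : Set W} {z z' : W → K} (h : ∀ i ∈ A, z i = z' i) (hz : IsZ 𝔅 A z) :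
    IsZ 𝔅 A z' := by
  rintro B hB ⟨m, hm⟩
  obtain ⟨m1, h1⟩ := hz B hB ⟨m, hm⟩
  refine ⟨max m m1, fun i hi => ?_⟩
  rw [← h i (hm (tail_anti B (le_max_left _ _) hi))]
  exact h1 i (tail_anti B (le_max_right _ _) hi)

theorem isZ_fin (hS : IsSys 𝔅) {A : Set W} (hA : A.Finite) (z : W → K) : IsZ 𝔅 A z := by
  rintro B hB ⟨m, hm⟩
  exact absurd hm (not_tail_sub_finite hS hB hA m)

/-- Glueing. -/
theorem isZ_glue (hS : IsSys 𝔅) {A A' : Set W} (hA' : IsA 𝔅 A') {z z' : W → K}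
    (hz : IsZ 𝔅 A z) (hz' : IsZ 𝔅 A' z') : IsZ 𝔅 (A ∪ A') (sp A' z' z) := by
  rintro B hB ⟨m, hm⟩
  rcases hA'.dich hB with ⟨m0, h0⟩ | ⟨m0, h0⟩
  · obtain ⟨m1, h1⟩ := hz' B hB ⟨m0, h0 m0 le_rfl⟩
    refine ⟨max m0 m1, fun i hi => ?_⟩
    rw [sp_of_mem (h0 _ (le_max_left _ _) hi)]
    exact h1 i (tail_anti B (le_max_right _ _) hi)
  · have h3 : B.tail (max m m0) ⊆ A := by
      intro i hi
      rcases hm (tail_anti B (le_max_left _ _) hi) with h | h
      · exact h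
      · exact absurd h (Set.disjoint_left.1 (h0 _ (le_max_right _ _)) hi)
    obtain ⟨m1, h1⟩ := hz B hB ⟨_, h3⟩
    refine ⟨max m0 m1, fun i hi => ?_⟩
    rw [sp_of_notMem (Set.disjoint_left.1 (h0 _ (le_max_left _ _)) hi)]
    exact h1 i (tail_anti B (le_max_right _ _) hi)

theorem isZ_tail (hS : IsSys 𝔅) {B : Pat W} (hB : B ∈ 𝔅) (m : ℕ) : IsZ 𝔅 (B.tail m) B.z := by
  rintro B' hB' ⟨k, hk⟩
  by_cases hne : B' = B
  · subst hne
    exact ⟨m, fun i _ => rfl⟩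
  · obtain ⟨n, k', hn, hk'⟩ := tail_in_block hS hB hB' hne hk
    exact (good_C hS hB n).isZ B' hB' ⟨k', hk'⟩

end VZ

end Pool.Agent.Helper513.ZgT0
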